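import Pool.Agent.helper31.JBX.Ub

/-!
# JBX-Dn: at least one third of all numbers of edges are in the optimal ranges
-/

set_option autoImplicit false

open Finset

namespace Pool.Agent.helper31.JBX

open Pool.Agent.helper81.JB

theorem opt_gg {m : ℕ} (h : Opt m) : ∃ k, bdk k m = gg m := by
  rcases h with ⟨k, r, h1, h2, rfl⟩ | ⟨k, s, h1, h2, rfl⟩ | ⟨k, u, h1, h2⟩
  · exact ⟨k, le_antisymm ((bdk_r h1 h2).trans (gg_rr h1 h2).ge) (gg_le _ _)⟩
  · rcases Nat.eq_zero_or_pos s with rfl | hs
    · refine ⟨k, le_antisymm ?_ (gg_le _ _)⟩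
      have h3 := bdk_r (k := k) (r := 0) (by omega) (by omega)
      have h4 := gg_rr (k := k) (r := 0) (by omega) (by omega)
      rw [Nat.add_zero] at h3 h4
      rw [Nat.sub_zero, h4]
      exact h3
    · have h4 := gg_ss h1 h2
      obtain ⟨k, rfl⟩ : ∃ j, k = j + 1 := ⟨_, (Nat.sub_add_cancel h1).symm⟩
      exact ⟨k, le_antisymm ((bdk_s (by omega) (by omega)).trans h4.ge) (gg_le _ _)⟩
  · exact ⟨k, le_antisymm (h2.trans (gg_sq h1 h2).ge) (gg_le _ _)⟩

theorem third (K : ℕ) : K * (2 * K + 1) ≤ 3 * {m | m < K * (2 * K + 1) ∧ Opt m}.ncard := by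
  classical
  have h0 : ∀ N : ℕ, {m | m < N ∧ Opt m}.ncard = ((range N).filter fun m => Opt m).card := by
    intro N
    rw [← Set.ncard_coe_finset]
    congr 1
    ext m
    simp
  rw [h0]
  induction K with
  | zero => simp
  | succ K ih =>
    set a := K * (2 * K + 1) with ha
    set b := (K + 1) * (2 * (K + 1) + 1) with hb
    have hab : b = a + (4 * K + 3) := by rw [ha, hb]; ring
    have hsub : ((range a).filter fun m => Opt m) ∪
        (Ico a (a + min (K + 4) (4 * K + 3)) ∪ Ico (b - min ((K + 4) / 3) (4 * K + 3 - min (K + 4) (4 * K + 3))) b) ⊆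
        (range b).filter fun m => Opt m := by
      intro m hm
      simp only [mem_union, mem_filter, mem_range, mem_Ico] at hm ⊢
      rcases hm with ⟨h1, h2⟩ | ⟨h1, h2⟩ | ⟨h1, h2⟩
      · exact ⟨by omega, h2⟩
      · refine ⟨by omega, Or.inl ⟨K, m - a, by omega, by omega, by omega⟩⟩
      · refine ⟨h2, Or.inr (Or.inl ⟨K + 1, b - m, by omega, by omega, by omega⟩)⟩
    have hd1 : Disjoint (Ico a (a + min (K + 4) (4 * K + 3)))
        (Ico (b - min ((K + 4) / 3) (4 * K + 3 - min (K + 4) (4 * K + 3))) b) := by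
      rw [Finset.disjoint_left]
      intro m h1 h2
      rw [mem_Ico] at h1 h2
      omega
    have hd2 : Disjoint ((range a).filter fun m => Opt m) (Ico a (a + min (K + 4) (4 * K + 3)) ∪
        Ico (b - min ((K + 4) / 3) (4 * K + 3 - min (K + 4) (4 * K + 3))) b) := by
      rw [Finset.disjoint_left]
      intro m h1 h2
      rw [mem_union, mem_Ico, mem_Ico] at h2
      rw [mem_filter, mem_range] at h1
      omega
    have h1 := card_le_card hsub
    rw [card_union_of_disjoint hd2, card_union_of_disjoint hd1, Nat.card_Ico, Nat.card_Ico] at h1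
    omega

end Pool.Agent.helper31.JBX
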