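import Pool.Agent.helper31.JBX.Un

/-!
# JBX-Cn: there are enough nonadjacent pairs

`W` is a class with `E W ≥ τ + 1`, `B = Bg W`, `|B| = K + 1`, `C = PC W` (big vertices of the other class),
`|C| = K`, `S = W \ B`, `S' = Wᶜ \ C`.  `E univ = 4 τ - L` (`h.tot`, `two_E`).
`E univ ≥ E (W ∪ C) = E W + E C + N W C`, `N W C = N B C + N S C`, `N B C = (K + 1) K - Mo B C` (`N_add_Mo`),
`2 E C = K (K - 1) - Mo C C` (`N_add_Mo_self`, `two_E`).  So
`2 (4 τ - L) ≥ 2 E W + K (K - 1) - Mo C C + 2 (K + 1) K - 2 Mo C B + 2 N C S = 2 E W + K (3 K + 1) - ph W C`,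
i.e. `ph W C ≥ 2 (E W - τ) + K (3 K + 1) - 2 (3 τ - L)`.
`hyp` with `K`: `2 τ < K (K + 1)` because `2 (τ + 1) ≤ 2 E B ≤ (K + 1) K` (`E_Bg`, `E_le_choose`).
-/

set_option autoImplicit false

open Finset

namespace Pool.Agent.helper31.JBX

open Pool.Agent.helper81.JB

variable {V : Type} [Fintype V] [DecidableEq V] {G : SimpleGraph V} {τ L : ℤ} {W : Finset V}

theorem ph_total (h : Stk G τ L W) (hL : -3 ≤ L)
    (hyp : ∀ K : ℤ, 0 ≤ K → 2 * τ < K * (K + 1) → 2 * (3 * τ - L) ≤ K * (3 * K + 1))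
    (hc : (Bg G τ W).card = (PC G τ W).card + 1) : 2 * (E G W - τ) ≤ ph G τ W (PC G τ W) := by
  have hBW : Bg G τ W ⊆ W := Bg_subset
  have hCW : PC G τ W ⊆ Wᶜ := filter_subset _ _
  have hdWC : Disjoint W (PC G τ W) := by
    rw [Finset.disjoint_left]
    intro v hv hv'
    exact (Finset.mem_compl.1 (hCW hv')) hv
  have hdBC : Disjoint (Bg G τ W) (PC G τ W) := Finset.disjoint_of_subset_left hBW hdWC
  have h1 := two_E G (univ : Finset V)
  have h2 : E G (W ∪ PC G τ W) ≤ E G univ := E_mono G (subset_univ _)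
  have h3 := E_union G hdWC
  have h4 := N_sdiff_left G hBW (PC G τ W)
  have h5 := N_add_Mo G hdBC
  have h6 := N_add_Mo_self G (PC G τ W)
  have h7 := two_E G (PC G τ W)
  have h8 := N_comm G (W \ Bg G τ W) (PC G τ W)
  have h9 := Mo_comm G (Bg G τ W) (PC G τ W)
  have h10 := E_Bg h (by linarith)
  have h11 := E_le_choose G (Bg G τ W)
  have h12 := h.tot
  have hcz : ((Bg G τ W).card : ℤ) = ((PC G τ W).card : ℤ) + 1 := by
    rw [hc]; push_cast; ring
  rw [hcz] at h5 h11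
  set K : ℤ := ((PC G τ W).card : ℤ) with hK
  have hK0 : 0 ≤ K := by rw [hK]; exact Int.natCast_nonneg _
  have h13 := hyp K hK0 (by nlinarith)
  unfold ph
  nlinarith

end Pool.Agent.helper31.JBX
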