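import Pool.Agent.helper31.JBX.Un

/-!
# JBX-Fi: the final exchange

`x = E W - τ`, `y = τ - E Wᶜ`, `B = Bg W`, `S = W \ B`, `Y ⊆ PC W ⊆ Wᶜ`, `φ(Y) = ph W Y / 2`;
for `v ∈ PC W` let `c v = Mo {v} B - N {v} S`, so `ph Y = 2 ∑_Y c + Mo Y Y`, and
`ph Y - ph (Y.erase v) = 2 c v + 2 Mo {v} Y`.

* `ph_erase`.
* `ph_even`: `Mo Y Y` is even (`N_add_Mo_self`, `two_E`).
* `Y_card`: `2 x ≤ ph Y`, `ph (Y.erase v) < 2 x` for all `v ∈ Y`, `c v ≤ x - 1`.  Let `2 p = ph Y`, `k = p - x + 1`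
  (`≥ 1`).  For `v ∈ Y`: `c v + Mo {v} Y ≥ k` (evenness).  Sum: `∑ c + Mo Y Y ≥ k |Y|`, and `∑ c + Mo Y Y =
  2 p - ∑ c`, so `k |Y| ≤ 2 (x - 1) + 2 k - ∑ c`.  Let `q = 2 (x - 1) - ∑ c`: `k (|Y| - 2) ≤ q`.  If `|Y| ≥ 2`
  then `0 ≤ q` and `|Y| - 2 ≤ q` (as `k ≥ 1`), so `|Y| ≤ 2 x - ∑ c`.  If `|Y| = 1`, `Y = {v}`: `ph Y = 2 c v <
  2 x`, contradiction. `Y = ∅`: `ph = 0 < 2 x`.
* `T_card` (for `Y ⊆ PC W`): the number of `z ∈ zU` which are not adjacent to some `v ∈ Y` is at most `Mo Y B`.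
* `final`: let `I ⊆ zT W Y`, `|I| = |Y|`, `X = W \ I ∪ Y`.  `E X = E W - N I W + E I + E Y + N W Y - N I Y`,
  with `N {i} W = |B| - 1` (`zU_deg`), `I` a clique, `N I Y = |Y| ^ 2`, `2 E Y = |Y| (|Y| - 1) - Mo Y Y`,
  `N {v} W = |B| - Mo {v} B + N {v} S`: `2 E X = 2 E W - ph Y ≤ 2 τ`.
  The cut: `flip_formula`: `N X Xᶜ = N W Wᶜ - ∑_Y (al v - 2) + Mo Y Y` (`N Y Y = |Y| (|Y| - 1) - Mo Y Y`).
  So (`cut_eq` for `X` and `W`, `E Xᶜ - τ = (2 τ - L) - N X Xᶜ - (E X - τ)`): `E Xᶜ - τ = ∑_Y (al v - 2) - Mo Y Y +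
  ph Y / 2 - y`; the claim is `∑_Y (al - 2) - Mo Y Y + ph Y / 2 ≤ y`.  `∑_Y (al - 2) ≤ y - L - x - 2 x'`
  (`hal`, `hal2`).  Take `v ∈ Y` (not empty): `ph Y / 2 - Mo Y Y = ph (Y.erase v) / 2 - Mo (Y.erase v) (Y.erase v)
  + c v - Mo {v} Y ≤ (x - 1) + (x - 1)`.  So the sum is `≤ y - L + x - 2 x' - 2 ≤ y` by `hxx`, `1 ≤ x'`.
-/

set_option autoImplicit false

open Finset

namespace Pool.Agent.helper31.JBX

open Pool.Agent.helper81.JB

variable {V : Type} [Fintype V] [DecidableEq V] {G : SimpleGraph V} {τ L : ℤ} {W Y : Finset V}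

theorem Fi_Mo_insert {v : V} (hv : v ∈ Y) (A : Finset V) :
    Mo G Y A = Mo G {v} A + Mo G (Y.erase v) A := by
  have h : Y = {v} ∪ Y.erase v := by
    ext a
    simp only [mem_union, mem_singleton, mem_erase]
    constructor
    · intro ha
      by_cases h : a = v
      · exact Or.inl h
      · exact Or.inr ⟨h, ha⟩
    · rintro (rfl | ha)
      · exact hv
      · exact ha.2
  have hd : Disjoint {v} (Y.erase v) := by
    rw [disjoint_singleton_left]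
    exact notMem_erase v Y
  have h1 := Mo_union_left G hd A
  rw [← h] at h1
  exact h1

theorem Fi_N_insert {v : V} (hv : v ∈ Y) (A : Finset V) :
    N G Y A = N G {v} A + N G (Y.erase v) A := by
  rw [N_erase_left G hv]
  ring

theorem Fi_Mo_self (v : V) : Mo G {v} {v} = 0 := by
  rw [Mo_sing_sum, sum_singleton, mis_self]

theorem Fi_MoYY {v : V} (hv : v ∈ Y) :
    Mo G Y Y = Mo G (Y.erase v) (Y.erase v) + 2 * Mo G {v} Y := by
  have h1 := Fi_Mo_insert (G := G) hv Y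
  have h2 : Mo G (Y.erase v) Y = Mo G {v} (Y.erase v) + Mo G (Y.erase v) (Y.erase v) := by
    rw [Mo_comm G (Y.erase v) Y, Fi_Mo_insert (G := G) hv (Y.erase v)]
  have h3 : Mo G {v} Y = Mo G {v} (Y.erase v) := by
    rw [Mo_comm G {v} Y, Fi_Mo_insert (G := G) hv {v}, Fi_Mo_self, zero_add, Mo_comm]
  rw [h1, h2, h3]
  ring

theorem ph_erase {v : V} (hv : v ∈ Y) : ph G τ W Y = ph G τ W (Y.erase v) +
    2 * (Mo G {v} (Bg G τ W) - N G {v} (W \ Bg G τ W)) + 2 * Mo G {v} Y := by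
  unfold ph
  rw [Fi_MoYY hv, Fi_Mo_insert (G := G) hv (Bg G τ W), Fi_N_insert (G := G) hv (W \ Bg G τ W)]
  ring

theorem Fi_Mo_even (Y : Finset V) : Even (Mo G Y Y) := by
  have h1 := N_add_Mo_self G Y
  have h2 := two_E G Y
  have h3 : Mo G Y Y = (Y.card : ℤ) * (Y.card - 1) - 2 * E G Y := by linarith
  rw [h3]
  exact (Int.even_mul_pred_self _).sub (even_two_mul _)

theorem ph_even : Even (ph G τ W Y) := by
  unfold ph
  exact ((even_two_mul _).add (Fi_Mo_even Y)).sub (even_two_mul _)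

theorem Fi_ph_empty : ph G τ W ∅ = 0 := by
  have h1 : ∀ A : Finset V, Mo G ∅ A = 0 := fun A => by simp [Mo]
  unfold ph
  rw [h1, h1, N_empty_left]
  ring

theorem Fi_sum_c : ∑ v ∈ Y, (Mo G {v} (Bg G τ W) - N G {v} (W \ Bg G τ W)) =
    Mo G Y (Bg G τ W) - N G Y (W \ Bg G τ W) := by
  rw [sum_sub_distrib, ← Mo_sum, ← N_sum]

theorem Fi_nonempty (h : Stk G τ L W) (hY : 2 * (E G W - τ) ≤ ph G τ W Y) : Y.Nonempty := by
  rw [nonempty_iff_ne_empty]
  rintro rfl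
  rw [Fi_ph_empty] at hY
  have := h.big
  linarith

theorem Y_card (h : Stk G τ L W)
    (hc : ∀ v ∈ Y, Mo G {v} (Bg G τ W) - N G {v} (W \ Bg G τ W) ≤ E G W - τ - 1)
    (hY : 2 * (E G W - τ) ≤ ph G τ W Y)
    (hmin : ∀ v ∈ Y, ph G τ W (Y.erase v) < 2 * (E G W - τ)) :
    (Y.card : ℤ) + Mo G Y (Bg G τ W) ≤ 2 * (E G W - τ) + N G Y (W \ Bg G τ W) := by
  obtain ⟨p, hp⟩ := ph_even (G := G) (τ := τ) (W := W) (Y := Y)
  have hsum := Fi_sum_c (G := G) (τ := τ) (W := W) (Y := Y)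
  have hne := Fi_nonempty h hY
  have hk : ∀ v ∈ Y, p - (E G W - τ) + 1 ≤
      Mo G {v} (Bg G τ W) - N G {v} (W \ Bg G τ W) + Mo G {v} Y := by
    intro v hv
    have h1 := ph_erase (G := G) (τ := τ) (W := W) hv
    have h2 := hmin v hv
    omega
  have hs : (Y.card : ℤ) * (p - (E G W - τ) + 1) ≤
      Mo G Y (Bg G τ W) - N G Y (W \ Bg G τ W) + Mo G Y Y := by
    have h1 := sum_le_sum hk
    rw [sum_const, nsmul_eq_mul, sum_add_distrib, hsum, ← Mo_sum] at h1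
    exact h1
  have hph : ph G τ W Y = 2 * Mo G Y (Bg G τ W) + Mo G Y Y - 2 * N G Y (W \ Bg G τ W) := rfl
  have hcard : 1 ≤ Y.card := hne.card_pos
  rcases Nat.lt_or_ge Y.card 2 with h2 | h2
  · have h3 : Y.card = 1 := by omega
    obtain ⟨v, hv⟩ := card_eq_one.1 h3
    subst hv
    have h4 := hc v (mem_singleton_self v)
    rw [hph, Fi_Mo_self] at hY
    linarith
  · have h3 : (2 : ℤ) ≤ Y.card := by exact_mod_cast h2
    have hk1 : 1 ≤ p - (E G W - τ) + 1 := by omega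
    have h4 : (Y.card : ℤ) - 2 ≤ (p - (E G W - τ) + 1) * ((Y.card : ℤ) - 2) := by
      nlinarith
    nlinarith

theorem Fi_PC_subset : PC G τ W ⊆ Wᶜ := filter_subset _ _

theorem Fi_zU_subset : zU G τ W ⊆ Bg G τ W := (filter_subset _ _).trans Zr_subset

open Classical in
theorem T_card (hYc : Y ⊆ PC G τ W) : ((zU G τ W).card : ℤ) ≤
    ((zU G τ W).filter fun v => ∀ y ∈ Y, G.Adj v y).card + Mo G Y (Bg G τ W) := by
  have h1 := card_filter_add_card_filter_not (s := zU G τ W) (fun v => ∀ y ∈ Y, G.Adj v y)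
  set bad := (zU G τ W).filter fun v => ¬ ∀ y ∈ Y, G.Adj v y with hbad
  have h2 : (bad.card : ℤ) ≤ Mo G Y (Bg G τ W) := by
    rw [Mo_comm G Y]
    have hsub : bad ⊆ Bg G τ W := (filter_subset _ _).trans Fi_zU_subset
    refine le_trans ?_ (Mo_mono G hsub (Subset.refl Y))
    rw [Mo_sum]
    have h3 : ∀ z ∈ bad, (1 : ℤ) ≤ Mo G {z} Y := by
      intro z hz
      rw [hbad, mem_filter] at hz
      obtain ⟨hz1, hz2⟩ := hz
      push Not at hz2
      obtain ⟨y, hy, hzy⟩ := hz2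
      have hzW : z ∈ W := Bg_subset (Fi_zU_subset hz1)
      have hyW : y ∉ W := mem_compl.1 (Fi_PC_subset (hYc hy))
      have hne : z ≠ y := fun e => hyW (e ▸ hzW)
      rw [Mo_sing_sum, ← mis_not G hzy hne]
      exact single_le_sum (f := fun y => mis G z y) (fun y _ => mis_nonneg G z y) hy
    have h4 := sum_le_sum h3
    rw [sum_const, nsmul_eq_mul, mul_one] at h4
    exact h4
  have h5 : ((zU G τ W).card : ℤ) = ((zU G τ W).filter fun v => ∀ y ∈ Y, G.Adj v y).card + bad.card := by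
    exact_mod_cast h1.symm
  rw [h5]
  linarith

theorem final_good (h : Stk G τ L W) (hL : -3 ≤ L) {x' : ℤ} (hx' : 1 ≤ x')
    (hxx : E G W - τ ≤ x' + L + 3) (hYc : Y ⊆ PC G τ W)
    (hc : ∀ v ∈ Y, Mo G {v} (Bg G τ W) - N G {v} (W \ Bg G τ W) ≤ E G W - τ - 1)
    (hal2 : ∀ v ∈ PC G τ W, 2 ≤ al G W v)
    (hal : ∑ v ∈ PC G τ W, (al G W v - 2) ≤ (τ - E G Wᶜ) - L - (E G W - τ) - 2 * x')
    (hY : 2 * (E G W - τ) ≤ ph G τ W Y)
    (hmin : ∀ v ∈ Y, ph G τ W (Y.erase v) < 2 * (E G W - τ))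
    {I : Finset V} (hI : I ⊆ zU G τ W) (hIY : ∀ i ∈ I, ∀ y ∈ Y, G.Adj i y)
    (hcard : I.card = Y.card) : E G (W \ I ∪ Y) ≤ τ ∧ E G (W \ I ∪ Y)ᶜ ≤ τ := by
  have hIB : I ⊆ Bg G τ W := hI.trans Fi_zU_subset
  have hIW : I ⊆ W := hIB.trans Bg_subset
  have hYW : Y ⊆ Wᶜ := hYc.trans Fi_PC_subset
  have hdWY : Disjoint W Y := disjoint_left.2 fun v hv hv' => (mem_compl.1 (hYW hv')) hv
  have hdBY : Disjoint (Bg G τ W) Y := hdWY.mono_left Bg_subset
  have hdIY : Disjoint I Y := hdWY.mono_left hIW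
  have hcardz : (I.card : ℤ) = Y.card := by exact_mod_cast hcard
  -- edges
  have hII : Mo G I I = 0 := Mo_eq_zero G fun a ha b hb hab => zU_adj (hI ha) (hIB hb) hab
  have eII := N_add_Mo_self G I
  have eYY := N_add_Mo_self G Y
  have tI := two_E G I
  have tY := two_E G Y
  have hIY0 : Mo G I Y = 0 := Mo_eq_zero G fun a ha b hb _ => hIY a ha b hb
  have eIY := N_add_Mo G hdIY
  have eYB := N_add_Mo G hdBY.symm
  have hIWn : N G I W = (I.card : ℤ) * ((Bg G τ W).card - 1) := by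
    rw [N_sum, sum_congr rfl fun z hz => zU_deg h (hI hz), sum_const, nsmul_eq_mul]
  have hYWn : N G Y W = N G Y (Bg G τ W) + N G Y (W \ Bg G τ W) := by
    rw [N_sdiff_right G Bg_subset]; ring
  have hdX : Disjoint (W \ I) Y := hdWY.mono_left sdiff_subset
  have eX : E G (W \ I ∪ Y) = E G W - E G I - (N G I W - N G I I) + E G Y + (N G Y W - N G I Y) := by
    rw [E_union G hdX, E_sdiff G hIW, N_sdiff_right G hIW, N_comm G (W \ I) Y, N_sdiff_right G hIW,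
      N_comm G Y I]
  have hph : ph G τ W Y = 2 * Mo G Y (Bg G τ W) + Mo G Y Y - 2 * N G Y (W \ Bg G τ W) := rfl
  rw [hII] at eII
  rw [hIY0] at eIY
  rw [hcardz] at eII eIY hIWn
  have e2X : 2 * E G (W \ I ∪ Y) = 2 * E G W - ph G τ W Y := by
    rw [eX, hph]
    have r1 : N G I W = (Y.card : ℤ) * (Bg G τ W).card - Y.card := by rw [hIWn]; ring
    have r2 : N G I I = (Y.card : ℤ) * Y.card - Y.card := by linarith
    have r3 : N G I Y = (Y.card : ℤ) * Y.card := by linarith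
    have r4 : N G Y (Bg G τ W) = (Y.card : ℤ) * (Bg G τ W).card - Mo G Y (Bg G τ W) := by linarith
    have r5 : N G Y Y = (Y.card : ℤ) * Y.card - Y.card - Mo G Y Y := by linarith
    linarith
  refine ⟨by linarith, ?_⟩
  -- the cut
  have hflip := flip_formula G hIW hYW
  have hal0 : ∑ v ∈ I, al G W v = 0 :=
    sum_eq_zero fun v hv => (mem_Zr.1 ((filter_subset _ _) (hI hv))).2
  have hsumY : ∑ v ∈ Y, (al G W v - 2) = ∑ v ∈ Y, al G W v - 2 * Y.card := by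
    rw [sum_sub_distrib, sum_const, nsmul_eq_mul]; ring
  have hle : ∑ v ∈ Y, (al G W v - 2) ≤ (τ - E G Wᶜ) - L - (E G W - τ) - 2 * x' :=
    (sum_le_sum_of_subset_of_nonneg hYc fun v hv _ => by
      have := hal2 v hv
      linarith).trans hal
  have cW := cut_eq G (U := W) h.tot
  have cX := cut_eq G (U := W \ I ∪ Y) h.tot
  obtain ⟨v, hv⟩ := Fi_nonempty h hY
  have p1 := ph_erase (G := G) (τ := τ) (W := W) hv
  have p2 := Fi_MoYY (G := G) hv
  obtain ⟨q, hq⟩ := ph_even (G := G) (τ := τ) (W := W) (Y := Y.erase v)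
  have p3 := hmin v hv
  have p4 := hc v hv
  have p5 := Mo_nonneg G {v} Y
  have p6 := Mo_nonneg G (Y.erase v) (Y.erase v)
  have q1 : q ≤ E G W - τ - 1 := by omega
  have r2 : N G I I = (Y.card : ℤ) * Y.card - Y.card := by linarith
  have r3 : N G I Y = (Y.card : ℤ) * Y.card := by linarith
  have r5 : N G Y Y = (Y.card : ℤ) * Y.card - Y.card - Mo G Y Y := by linarith
  rw [hal0, r2, r3, r5] at hflip
  linarith

end Pool.Agent.helper31.JBX
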