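import Pool.Agent.helper31.JBX.Defs

/-!
# JBX-Rm: the removal of single vertices

* `zr1_sub`, `zr1_zc`: induction on `k`.
* `zr1_stable`: if `(zr1 k Y).card = Y.card` (so `zr1 k Y = Y` by `zr1_sub`) then for each `v ∈ Y` with `v < k`,
  `¬ zc (Y.erase v)`: induction on `k`; in the step for `k = v` the set is still `Y` (it only shrinks).
* `zrm_stable`: if no pass of the first `j` passes is stable then the cardinality drops by at least `j`;
  after a stable pass the set does not change any more.  With `j = n * n ≥ n ≥ |Y|`.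
* `zY_props`: `Y.filter (fun u => u.val ≠ v.val) = Y.erase v`.
-/

set_option autoImplicit false

open Finset

namespace Pool.Agent.helper31.JBX

open Pool.Agent.helper81.JB

variable {n : ℕ} {G : SimpleGraph (Fin n)} {τ : ℤ} {W : Finset (Fin n)}

theorem zr1_sub (k : ℕ) (Y : Finset (Fin n)) : zr1 G τ W k Y ⊆ Y := by
  induction k generalizing Y with
  | zero => exact subset_rfl
  | succ k ih =>
    unfold zr1
    split_ifs with hc
    · exact (ih _).trans (filter_subset _ _)
    · exact ih _

theorem zr1_zc (k : ℕ) {Y : Finset (Fin n)} (h : zc G τ W Y) : zc G τ W (zr1 G τ W k Y) := by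
  induction k generalizing Y with
  | zero => exact h
  | succ k ih =>
    unfold zr1
    split_ifs with hc
    · exact ih hc.2
    · exact ih h

theorem rm_zr1_stable (k : ℕ) {Y : Finset (Fin n)} (h : zr1 G τ W k Y = Y) (v : Fin n)
    (hv : v ∈ Y) (hk : v.val < k) : ¬ zc G τ W (Y.erase v) := by
  induction k generalizing Y with
  | zero => exact absurd hk (Nat.not_lt_zero _)
  | succ k ih =>
    unfold zr1 at h
    split_ifs at h with hc
    · exfalso
      obtain ⟨w, hw, hwk⟩ := hc.1
      have h1 := zr1_sub (G := G) (τ := τ) (W := W) k (Y.filter fun v => v.val ≠ k)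
      rw [h] at h1
      have h2 := (mem_filter.1 (h1 hw)).2
      exact h2 hwk
    · rcases Nat.lt_succ_iff_lt_or_eq.1 hk with h3 | h3
      · exact ih h hv h3
      · have h4 : (Y.filter fun u => u.val ≠ k) = Y.erase v := by
          ext u
          rw [mem_filter, mem_erase]
          constructor
          · rintro ⟨hu, hne⟩
            refine ⟨fun he => hne (by rw [he]; exact h3), hu⟩
          · rintro ⟨hne, hu⟩
            refine ⟨hu, fun he => hne (Fin.ext (by rw [he, h3]))⟩
        rw [h4] at hc
        intro h5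
        exact hc ⟨⟨v, hv, h3⟩, h5⟩

theorem rm_zrm_sub (j : ℕ) (Y : Finset (Fin n)) : zrm G τ W j Y ⊆ Y := by
  induction j generalizing Y with
  | zero => exact subset_rfl
  | succ j ih => exact (ih _).trans (zr1_sub _ _)

theorem rm_zrm_zc (j : ℕ) {Y : Finset (Fin n)} (h : zc G τ W Y) : zc G τ W (zrm G τ W j Y) := by
  induction j generalizing Y with
  | zero => exact h
  | succ j ih => exact ih (zr1_zc _ h)

theorem rm_zrm_const (j : ℕ) {Y : Finset (Fin n)} (h : zr1 G τ W (n * n) Y = Y) :
    zrm G τ W j Y = Y := by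
  induction j with
  | zero => rfl
  | succ j ih =>
    change zrm G τ W j (zr1 G τ W (n * n) Y) = Y
    rw [h, ih]

theorem rm_zrm_stable (j : ℕ) (Y : Finset (Fin n)) :
    zr1 G τ W (n * n) (zrm G τ W j Y) = zrm G τ W j Y ∨
      (zrm G τ W j Y).card + j ≤ Y.card := by
  induction j generalizing Y with
  | zero => exact Or.inr le_rfl
  | succ j ih =>
    change zr1 G τ W (n * n) (zrm G τ W j (zr1 G τ W (n * n) Y)) =
      zrm G τ W j (zr1 G τ W (n * n) Y) ∨ (zrm G τ W j (zr1 G τ W (n * n) Y)).card + (j + 1) ≤ Y.card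
    by_cases h : zr1 G τ W (n * n) Y = Y
    · left
      rw [h, rm_zrm_const j h, h]
    · rcases ih (zr1 G τ W (n * n) Y) with h1 | h1
      · exact Or.inl h1
      · right
        have h2 : (zr1 G τ W (n * n) Y).card < Y.card :=
          card_lt_card (Finset.ssubset_iff_subset_ne.2 ⟨zr1_sub _ _, h⟩)
        omega

theorem zY_props (h : zc G τ W (PC G τ W)) : zY G τ W ⊆ PC G τ W ∧ zc G τ W (zY G τ W) ∧
    ∀ v ∈ zY G τ W, ¬ zc G τ W ((zY G τ W).erase v) := by
  refine ⟨rm_zrm_sub _ _, rm_zrm_zc _ h, fun v hv => ?_⟩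
  have hn : 0 < n := lt_of_le_of_lt (Nat.zero_le _) v.isLt
  have hnn : n ≤ n * n := Nat.le_mul_of_pos_left n hn
  rcases rm_zrm_stable (G := G) (τ := τ) (W := W) (n * n) (PC G τ W) with h1 | h1
  · exact rm_zr1_stable (n * n) h1 v hv (lt_of_lt_of_le v.isLt hnn)
  · exfalso
    have h2 : (PC G τ W).card ≤ n := by
      have := card_le_univ (PC G τ W)
      rwa [Fintype.card_fin] at this
    have h3 : 0 < (zrm G τ W (n * n) (PC G τ W)).card := card_pos.2 ⟨v, hv⟩
    omega

end Pool.Agent.helper31.JBX
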