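import Pool.Agent.helper31.JBX.BS
import Pool.Agent.helper31.JBX.Cn
import Pool.Agent.helper31.JBX.Fi
import Pool.Agent.helper31.JBX.Rm
import Pool.Agent.helper81.JB.AlgR3

/-!
# JBX-As: there is no bad world

`h : Wld G τ L U`, `z ∈ zU G τ U` (`exists_zU`), `W = sw U z`, `x = E U - τ`, `y = τ - E Uᶜ`, `b = |Bg U| = |Bg W|`
(`same_card`), `x1 = E W - τ = b - 1 - y`, `y1 = τ - E Wᶜ = b - 1 - x` (`bs_x`); `PC U = (Bg W).erase z` (`sw_Bg`),
`PC W = (Bg U).erase z` (`sw_Bg` for `W`, `sw W z = U`), so both have `b - 1` elements.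

* `fz_good`: the general statement for a class `W`: `Y = zY W` (`zY_props`, `zc = (2 x ≤ ph)`), `Y_card`, `T_card`
  give `|Y| ≤ |zT W Y|`: `|Y| + Mo Y B ≤ 2 x + N Y S ≤ 2 x + N S Wᶜ ≤ x + x' + L + 3 + N S Wᶜ ≤ |zU|`
  (`2 x ≤ x + x' + L + 3` by `hxx`), so `I = firstk (zT W Y) |Y|` has `|Y|` elements; `final_good`.
* `case_U` (`x ≤ x1 + L + 3`): `fz_good` for `U` with `x' = x1`.
  `hc`: for `v ∈ PC U` there is `u ∈ zU U` adjacent to `v`: otherwise `Mo {v} (Bg U) ≥ |zU U| ≥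
  x + L + 3 + x1 + N S Uᶜ` (`zU_card`, `|Bg U| - y - 2 = x1 - 1`); but `v ∈ Bg W`, so `N {v} Wᶜ ≥ y1 + 1`
  (`deg_out`) and `N {v} Wᶜ ≤ N {v} U = b - Mo {v} (Bg U) + N {v} S ≤ b - Mo {v} (Bg U) + N S Uᶜ`, so
  `Mo {v} (Bg U) ≤ b + N S Uᶜ - y1 - 1 = x + N S Uᶜ`, contradiction (`L + 3 + x1 > 0`).
  Then for `W' = sw U u`: `v ∈ Bg W'` (`sw_Bg`), `τ - E W'ᶜ = b - 1 - x` (`bs_x`), `N {v} W'ᶜ = N {v} U - 1 ≥ b - x`, so
  `Mo {v} (Bg U) - N {v} S = b - N {v} U ≤ x - 1`. `hal2`: `v`, `u` adjacent, `al U u = 0`, `loc.two`.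
  `hal`: `al U v - 2 ≤ al W v` (`al_sw_compl`), `∑_{PC U} al W v ≤ ∑_W al W = y1 - L - 3 x1 = y - x - L - 2 x1`.
  `hcard`: `zU_card` (with `n_le`).  `htot`: `ph_total`.
* `case_W` (`x > x1 + L + 3`, so `x1 ≤ x + L + 3` as `L ≥ -3`): `fz_good` for `W = sw U z` with `x' = x`.
  `hc`: `v ∈ PC W = (Bg U).erase z`: `N {v} Uᶜ ≥ y + 1`; `N {v} W = N {v} Uᶜ + 1` (`z`, `v` adjacent) `=
  b - Mo {v} (Bg W) + N {v} (W \ Bg W)` (`v ∉ W`), so `Mo {v} (Bg W) - N {v} (W \ Bg W) ≤ b - y - 2 = x1 - 1`.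
  `hal2`: `al W v = al U v + 2` (`al_sw_mem`). `hal`: `∑_{PC W} al U v ≤ ∑_U al U = y - L - 3 x`, and
  `y1 - L - x1 - 2 x = y - x - L - 2 x`.  `hcard`: `zU_card_B`. `htot`: `ph_total`.
-/

set_option autoImplicit false

open Finset

namespace Pool.Agent.helper31.JBX

open Pool.Agent.helper81.JB

variable {n : ℕ} {G : SimpleGraph (Fin n)} {τ L : ℤ} {U W : Finset (Fin n)}

theorem PC_subset : PC G τ W ⊆ Wᶜ := by
  unfold PC
  exact filter_subset _ _

/-- the degree of a vertex outside `W` to `W` -/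
theorem As_deg {v : Fin n} (hv : v ∉ W) :
    N G {v} W = (Bg G τ W).card - Mo G {v} (Bg G τ W) + N G {v} (W \ Bg G τ W) := by
  have h1 : v ∉ Bg G τ W := fun h => hv (Bg_subset h)
  have h2 := N_add_Mo_of_notMem G h1
  have h3 := N_sdiff_right G (Bg_subset (G := G) (τ := τ) (U := W)) {v}
  linarith

theorem fz_good (h : Stk G τ L W) (hL : -3 ≤ L) {x' : ℤ} (hx' : 1 ≤ x')
    (hxx : E G W - τ ≤ x' + L + 3)
    (hcard : (E G W - τ) + x' + L + 3 + N G (W \ Bg G τ W) Wᶜ ≤ ((zU G τ W).card : ℤ))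
    (hc : ∀ v ∈ PC G τ W, Mo G {v} (Bg G τ W) - N G {v} (W \ Bg G τ W) ≤ E G W - τ - 1)
    (hal2 : ∀ v ∈ PC G τ W, 2 ≤ al G W v)
    (hal : ∑ v ∈ PC G τ W, (al G W v - 2) ≤ (τ - E G Wᶜ) - L - (E G W - τ) - 2 * x')
    (htot : 2 * (E G W - τ) ≤ ph G τ W (PC G τ W)) : good G τ (fZ G τ W) := by
  classical
  obtain ⟨hY, hYz, hYm⟩ := zY_props (G := G) (τ := τ) (W := W) htot
  have hmin : ∀ v ∈ zY G τ W, ph G τ W ((zY G τ W).erase v) < 2 * (E G W - τ) :=
    fun v hv => not_le.1 (hYm v hv)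
  have hc' : ∀ v ∈ zY G τ W, Mo G {v} (Bg G τ W) - N G {v} (W \ Bg G τ W) ≤ E G W - τ - 1 :=
    fun v hv => hc v (hY hv)
  have h1 := Y_card h hc' hYz hmin
  have h2 : ((zU G τ W).card : ℤ) ≤ (zT G τ W (zY G τ W)).card + Mo G (zY G τ W) (Bg G τ W) := by
    have h0 := T_card (G := G) (τ := τ) (W := W) (Y := zY G τ W) hY
    refine h0.trans ?_
    have h0' : ∀ (A B : Finset (Fin n)), (∀ v, v ∈ A ↔ v ∈ B) →
        (A.card : ℤ) + Mo G (zY G τ W) (Bg G τ W) ≤ B.card + Mo G (zY G τ W) (Bg G τ W) := by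
      intro A B hAB
      rw [Finset.ext hAB]
    refine h0' _ _ fun v => ?_
    unfold zT
    simp only [mem_filter]
  have h3 : N G (zY G τ W) (W \ Bg G τ W) ≤ N G (W \ Bg G τ W) Wᶜ := by
    rw [N_comm G (zY G τ W)]
    exact N_mono G (Finset.Subset.refl _) (hY.trans PC_subset)
  have h4 : (zY G τ W).card ≤ (zT G τ W (zY G τ W)).card := by
    have : ((zY G τ W).card : ℤ) ≤ (zT G τ W (zY G τ W)).card := by linarith
    exact_mod_cast this
  have h5 : zT G τ W (zY G τ W) ⊆ zU G τ W := by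
    unfold zT
    exact filter_subset _ _
  refine final_good h hL hx' hxx hY hc' hal2 hal hYz hmin
    ((firstk_subset _ _).trans h5) ?_ (firstk_card _ h4)
  intro i hi y hy
  have h6 := firstk_subset _ _ hi
  unfold zT at h6
  exact (mem_filter.1 h6).2 y hy

theorem case_U (h : Wld G τ L U)
    (hyp : ∀ K : ℤ, 0 ≤ K → 2 * τ < K * (K + 1) → 2 * (3 * τ - L) ≤ K * (3 * K + 1))
    {z : Fin n} (hz : z ∈ zU G τ U) (hx : E G U - τ ≤ (E G (sw U z) - τ) + L + 3) : False := by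
  classical
  have hL := h.hL
  have s0 := h.s0
  have hz0 := zU_zr hz
  have s1 := h.s1 hz0
  obtain ⟨e1, e2⟩ := bs_x h hz
  have b0 := s0.big
  have b1 := s1.big
  have hzU : z ∈ U := Bg_subset (Zr_subset hz0)
  have hsub : zU G τ U ⊆ Bg G τ U := fun u hu => Zr_subset (zU_zr hu)
  have hcard := zU_card s0 hL (n_le h)
  have hvU : ∀ v ∈ PC G τ U, v ∉ U := fun v hv => by
    have := PC_subset hv
    simpa using this
  -- the neighbour in `zU`
  have hnb : ∀ v ∈ PC G τ U, ∃ u ∈ zU G τ U, G.Adj u v := by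
    intro v hv
    by_contra hcon
    push Not at hcon
    have h1 : ((zU G τ U).card : ℤ) ≤ Mo G {v} (Bg G τ U) := by
      have h2 : Mo G {v} (zU G τ U) = (zU G τ U).card := by
        rw [Mo_sing_sum, Finset.sum_congr rfl (g := fun _ => (1 : ℤ))]
        · simp
        · intro u hu
          refine mis_not G (fun ha => hcon u hu ha.symm) ?_
          rintro rfl
          exact hvU _ hv (Bg_subset (hsub hu))
      rw [← h2]
      exact Mo_mono G (Finset.Subset.refl _) hsub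
    have h3 : v ∈ Bg G τ (sw U z) := by
      rw [sw_Bg s0 s1 hL hz0]
      exact mem_insert_of_mem hv
    have h4 := deg_out s1 h3
    have h5 : N G {v} (sw U z)ᶜ ≤ N G {v} U := by
      rw [sw_compl]
      exact N_mono G (Finset.Subset.refl _) (erase_subset _ _)
    have h6 := As_deg (G := G) (τ := τ) (hvU v hv)
    have h7 : N G {v} (U \ Bg G τ U) ≤ N G (U \ Bg G τ U) Uᶜ := by
      rw [N_comm G {v}]
      exact N_mono G (Finset.Subset.refl _)
        (Finset.singleton_subset_iff.2 (PC_subset hv))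
    linarith
  have hc : ∀ v ∈ PC G τ U, Mo G {v} (Bg G τ U) - N G {v} (U \ Bg G τ U) ≤ E G U - τ - 1 := by
    intro v hv
    obtain ⟨u, hu, ha⟩ := hnb v hv
    have hu0 := zU_zr hu
    have huU : u ∈ U := Bg_subset (Zr_subset hu0)
    have s1' := h.s1 hu0
    have h3 : v ∈ Bg G τ (sw U u) := by
      rw [sw_Bg s0 s1' hL hu0]
      exact mem_insert_of_mem hv
    have h4 := deg_out s1' h3
    rw [sw_compl, N_erase_right G huU, N_sing, ind_adj G ha] at h4
    have h5 := (bs_x h hu).2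
    rw [sw_compl] at h5
    have h6 := As_deg (G := G) (τ := τ) (hvU v hv)
    linarith
  have hal2 : ∀ v ∈ PC G τ U, 2 ≤ al G U v := by
    intro v hv
    obtain ⟨u, hu, ha⟩ := hnb v hv
    have hu0 := zU_zr hu
    have h1 := s0.loc.two u (Bg_subset (Zr_subset hu0)) v (hvU v hv) ha
    have h2 := (mem_Zr.1 hu0).2
    linarith
  have hal : ∑ v ∈ PC G τ U, (al G U v - 2) ≤
      (τ - E G Uᶜ) - L - (E G U - τ) - 2 * (E G (sw U z) - τ) := by
    have h1 : ∑ v ∈ PC G τ U, (al G U v - 2) ≤ ∑ v ∈ PC G τ U, al G (sw U z) v := by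
      refine Finset.sum_le_sum fun v hv => ?_
      rw [al_sw_compl G hzU (hvU v hv)]
      have := ind_le_one G z v
      linarith
    have h2 : PC G τ U ⊆ sw U z := fun v hv => mem_insert_of_mem (PC_subset hv)
    have h3 := sum_al_sub_le s1 h2
    linarith
  have hBc : (Bg G τ U).card = (PC G τ U).card + 1 := by
    rw [← same_card h hz, sw_Bg s0 s1 hL hz0, card_insert_of_notMem fun hc => hvU z hc hzU]
  refine h.fz.1 (fz_good s0 hL (x' := E G (sw U z) - τ) (by linarith) (by linarith)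
    (by linarith) hc hal2 hal (ph_total s0 hL hyp hBc))

theorem case_W (h : Wld G τ L U)
    (hyp : ∀ K : ℤ, 0 ≤ K → 2 * τ < K * (K + 1) → 2 * (3 * τ - L) ≤ K * (3 * K + 1))
    {z : Fin n} (hz : z ∈ zU G τ U) (hx : (E G (sw U z) - τ) + L + 3 < E G U - τ) : False := by
  classical
  have hL := h.hL
  have s0 := h.s0
  have hz0 := zU_zr hz
  have s1 := h.s1 hz0
  obtain ⟨e1, e2⟩ := bs_x h hz
  have b0 := s0.big
  have b1 := s1.big
  have hzU : z ∈ U := Bg_subset (Zr_subset hz0)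
  have hzW := sw_mem s0 s1 hL hz0
  have hcard := zU_card_B h hz
  have hsame := same_card h hz
  have hsw : sw (sw U z) z = U := sw_sw hzU
  have hB : Bg G τ U = insert z (PC G τ (sw U z)) := by
    have := sw_Bg s1 (by rw [hsw]; exact s0) hL hzW
    rwa [hsw] at this
  have hzP : z ∉ PC G τ (sw U z) := fun hc => by
    have := PC_subset hc
    rw [sw_compl] at this
    exact (Finset.notMem_erase z U) this
  have hP : ∀ v ∈ PC G τ (sw U z), v ∈ Bg G τ U ∧ v ∈ U ∧ v ≠ z := by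
    intro v hv
    have h1 : v ∈ Bg G τ U := by
      rw [hB]
      exact mem_insert_of_mem hv
    exact ⟨h1, Bg_subset h1, fun hc => hzP (hc ▸ hv)⟩
  have hc : ∀ v ∈ PC G τ (sw U z), Mo G {v} (Bg G τ (sw U z)) -
      N G {v} (sw U z \ Bg G τ (sw U z)) ≤ E G (sw U z) - τ - 1 := by
    intro v hv
    obtain ⟨h1, h2, h3⟩ := hP v hv
    have h4 := deg_out s0 h1
    have h5 : v ∉ sw U z := by
      have := PC_subset hv
      simpa using this
    have h6 := As_deg (G := G) (τ := τ) h5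
    have h7 : N G {v} (sw U z) = N G {z} {v} + N G {v} Uᶜ :=
      N_insert_right G (by simpa using hzU) {v}
    rw [N_sing, ind_adj G (zU_adj hz h1 h3.symm)] at h7
    have h8 : ((Bg G τ (sw U z)).card : ℤ) = (Bg G τ U).card := by rw [hsame]
    linarith
  have hal2 : ∀ v ∈ PC G τ (sw U z), 2 ≤ al G (sw U z) v := by
    intro v hv
    obtain ⟨h1, h2, h3⟩ := hP v hv
    rw [al_sw_mem G hzU h2 h3, ind_adj G (zU_adj hz h1 h3.symm)]
    have := s0.loc.one v
    linarith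
  have hal : ∑ v ∈ PC G τ (sw U z), (al G (sw U z) v - 2) ≤
      (τ - E G (sw U z)ᶜ) - L - (E G (sw U z) - τ) - 2 * (E G U - τ) := by
    have h1 : ∑ v ∈ PC G τ (sw U z), (al G (sw U z) v - 2) =
        ∑ v ∈ PC G τ (sw U z), al G U v := by
      refine Finset.sum_congr rfl fun v hv => ?_
      obtain ⟨h1, h2, h3⟩ := hP v hv
      rw [al_sw_mem G hzU h2 h3, ind_adj G (zU_adj hz h1 h3.symm)]
      ring
    have h3 := sum_al_sub_le s0 (S := PC G τ (sw U z)) fun v hv => (hP v hv).2.1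
    linarith
  have hBc : (Bg G τ (sw U z)).card = (PC G τ (sw U z)).card + 1 := by
    rw [hsame, hB, card_insert_of_notMem hzP]
  have h8 : ((Bg G τ (sw U z)).card : ℤ) = (Bg G τ U).card := by rw [hsame]
  refine h.fz.2 z (fz_good s1 hL (x' := E G U - τ) (by linarith) (by linarith)
    (by linarith) hc hal2 hal (ph_total s1 hL hyp hBc))

theorem no_world (h : Wld G τ L U)
    (hyp : ∀ K : ℤ, 0 ≤ K → 2 * τ < K * (K + 1) → 2 * (3 * τ - L) ≤ K * (3 * K + 1)) :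
    False := by
  obtain ⟨z, hz⟩ := exists_zU h
  by_cases hx : E G U - τ ≤ (E G (sw U z) - τ) + L + 3
  · exact case_U h hyp hz hx
  · exact case_W h hyp hz (not_le.1 hx)

end Pool.Agent.helper31.JBX
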