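import Pool.Agent.helper31.JBX.DZ
import Pool.Agent.helper81.JB.AlgR3

/-!
# JBX-BS: the chain in the other class

`h : Wld G τ L U`, `z ∈ zU G τ U`, `W = sw U z`, `B = Bg U`, `S = U \ B`, `b = |B|`; `β = N {z} U = b - 1` (`zU_deg`);
`x1 = E W - τ = b - 1 - y`, `y1 = τ - E Wᶜ = b - 1 - x` (`sw_x`); `sw W z = U` (`sw_sw`), `Zp W z = (Zr U).erase z`.

* `bs_deg`: `N {i} W = b - 1` for `i ∈ Zr W`: `i = z`: `zr_own`; `i ∈ Zp U z`: `zp_deg`, `zp_univ`.
* `bs_in`: for `j ∈ (Zr U).erase z`: `N {j} W = N {j} Uᶜ + 1 = N {j} U + 1 = b - Mo {j} B + N {j} S`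
  (`mo_bg`; `j`, `z` adjacent).
* `bs_X`: for `w ∈ S1 W` and `t ≤ |(Zp W z).filter (Adj w)|`, `t ≤ |Xn (Zr W) w|`: every `i ∈ Zr W` is adjacent
  to every `j ∈ Zp W z` (`zp_univ`, `z` universal), so `cT W z w t = Xn (Zr W) w`.
  `X = cX W z w t`: `Chn G τ L W z I J` holds; `E X - τ = x1 + g`, `g = ∑_J N {j} W - ∑_I N {i} W - t =
  ∑_J (N {j} S - Mo {j} B) ≥ - ∑_{Zr U} Mo {j} B ≥ - (∑_{S1 U} al) / 2 ≥ - (y - L - 3 x) / 2` (`two_sum_mo`).
  `X` is not good (`h.ng`): if `E X ≤ τ` then `E Xᶜ ≥ τ + 1`, and `(τ - E Xᶜ) - (E X - τ) = y - x`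
  (`ch_y`, `sw_x`), so `E X - τ ≤ -1 - (y - x)`, i.e. `x1 + g ≤ - 1 - y + x`; with `x1 ≥ 1` this contradicts
  `g ≥ - (y - L - 3 x) / 2` (`y ≥ L + 3 x`, `x ≥ 1`, `L ≥ -3`).  So `E X ≥ τ + 1` and `X` is stuck.
* `n_le_B`: `chain_main`: `2 t ≤ al W w` and `t + g ≤ N {w} Wᶜ - y1 - 1`, so
  `t ≤ N {w} Wᶜ - (b - x) + ∑_{Zr U} Mo {j} B`.
  `C = (Zp W z).filter (Adj w)`: `|C| = |Zr U| - 1 - (number of nonneighbours of w in (Zr U).erase z) ≥
  |Zr U| - 1 - ((b - 1) + N {w} S - N {w} Wᶜ)` (`N {w} Wᶜ = N {w} (B.erase z) + N {w} S`), and `|Zr U| =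
  3 x + L + b - y + ∑_S al + ∑_{S1} (al - 1)` (`zr_card2`), `∑_{Zr U} Mo ≤ ∑_{S1} (al - 1)`,
  `N {w} S ≤ N S Uᶜ ≤ 2 (x - 1) + ∑_S al` (`small_out`).  If `|C| ≤ |Xn (Zr W) w|` take `t = |C|`:
  `3 x + L + b - y + ∑_S al - b - N {w} S ≤ - (b - x)`, i.e. `2 x + L + (b - y) + ∑_S al ≤ N {w} S`,
  contradiction (`b ≥ y + 2`).  So `|Xn (Zr W) w| < |C|`; take `t = |Xn (Zr W) w|`.
* `same_card`: by `uni_card` for `W` there are more than `x1 - 1 ≥ N (Bg W) (W \ Bg W)` vertices `i ∈ Zr W` with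
  `Mo {i} (Bg W) = 0`; one of them has `N {i} (W \ Bg W) = 0`: `N {i} W = |Bg W| - 1`; `bs_deg`.
* `zU_card_B`: `zU_card` for `W`.
-/

set_option autoImplicit false

open Finset

namespace Pool.Agent.helper31.JBX

open Pool.Agent.helper81.JB

variable {n : ℕ} {G : SimpleGraph (Fin n)} {τ L : ℤ} {U : Finset (Fin n)} {z w : Fin n}

theorem zU_zr (hz : z ∈ zU G τ U) : z ∈ Zr G τ U := (mem_zU.1 hz).1

theorem bs_x (h : Wld G τ L U) (hz : z ∈ zU G τ U) :
    E G (sw U z) - τ = (Bg G τ U).card - 1 - (τ - E G Uᶜ) ∧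
      τ - E G (sw U z)ᶜ = (Bg G τ U).card - 1 - (E G U - τ) := by
  have h1 := sw_x h.s0 (zU_zr hz)
  rw [zU_deg h.s0 hz] at h1
  exact h1

theorem bs_zmem (_ : Wld G τ L U) (hz : z ∈ zU G τ U) : z ∈ U :=
  Bg_subset (Zr_subset (zU_zr hz))

theorem bs_deg (h : Wld G τ L U) (hz : z ∈ zU G τ U) {i : Fin n} (hi : i ∈ Zr G τ (sw U z)) :
    N G {i} (sw U z) = (Bg G τ U).card - 1 := by
  have hz' := zU_zr hz
  have hzU := bs_zmem h hz
  by_cases hiz : i = z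
  · subst hiz
    rw [← zr_own (h.s1 hz') hi, sw_compl, N_erase_right G hzU, N_sing, ind_self, sub_zero,
      zU_deg h.s0 hz]
  · have hi' : i ∈ Zp G τ U z := mem_erase.2 ⟨hiz, hi⟩
    obtain ⟨e1, e2⟩ := zp_deg h.s0 (h.s1 hz') h.hL hz' hi'
    obtain ⟨e3, e4⟩ := zp_univ h hz hi'
    rw [e1, e2, e3, e4]
    ring

theorem bs_in (h : Wld G τ L U) (hz : z ∈ zU G τ U) {j : Fin n} (hj : j ∈ Zr G τ U) (hne : j ≠ z) :
    N G {j} (sw U z) = (Bg G τ U).card - Mo G {j} (Bg G τ U) + N G {j} (U \ Bg G τ U) := by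
  have hz' := zU_zr hz
  have hzU := bs_zmem h hz
  have hzc : z ∉ Uᶜ := fun hc => (mem_compl.1 hc) hzU
  have e1 := zr_own h.s0 hj
  have e2 := mo_bg h.s0 (Zr_subset hj)
  have e3 : G.Adj j z := zr_adj h.s0 h.hL hj hz' hne
  unfold sw
  rw [N_insert_right G hzc, e1, N_sing, ind_adj G e3.symm]
  linarith

theorem bs_sw (h : Wld G τ L U) (hz : z ∈ zU G τ U) : sw (sw U z) z = U := sw_sw (bs_zmem h hz)

theorem bs_Zp (h : Wld G τ L U) (hz : z ∈ zU G τ U) : Zp G τ (sw U z) z = (Zr G τ U).erase z := by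
  unfold Zp
  rw [bs_sw h hz]

/-- zero vertices of the two classes are adjacent -/
theorem bs_adj (h : Wld G τ L U) (hz : z ∈ zU G τ U) {i j : Fin n} (hi : i ∈ Zr G τ (sw U z))
    (hj : j ∈ (Zr G τ U).erase z) : G.Adj i j := by
  have hz' := zU_zr hz
  obtain ⟨hjz, hj'⟩ := mem_erase.1 hj
  by_cases hiz : i = z
  · subst hiz
    exact zr_adj h.s0 h.hL hz' hj' (Ne.symm hjz)
  · have hi' : i ∈ Zp G τ U z := mem_erase.2 ⟨hiz, hi⟩
    obtain ⟨e3, -⟩ := zp_univ h hz hi'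
    have hiU : i ∉ U := (zp_props h.s0 (h.s1 hz') h.hL hz' hi').1
    have hjB : j ∈ Bg G τ U := Zr_subset hj'
    have hij : i ≠ j := fun hc => hiU (hc ▸ Bg_subset hjB)
    by_contra hna
    have h1 : Mo G {i} {j} ≤ Mo G {i} (Bg G τ U) := Mo_mono G (Subset.refl _) (singleton_subset_iff.2 hjB)
    have h2 : Mo G {i} {j} = 1 := by
      rw [Mo_sing_sum, sum_singleton, mis_not G hna hij]
    rw [h2, e3] at h1
    norm_num at h1

theorem bs_cT (h : Wld G τ L U) (hz : z ∈ zU G τ U) (w : Fin n) (t : ℕ) :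
    cT G τ (sw U z) z w t = Xn G (Zr G τ (sw U z)) w := by
  classical
  unfold cT
  refine filter_true_of_mem fun i hi j hj => ?_
  have h1 : j ∈ Zp G τ (sw U z) z := (cJ_props (G := G) (τ := τ) (sw U z)).1 hj
  rw [bs_Zp h hz] at h1
  have h2 : i ∈ Zr G τ (sw U z) := by
    unfold Xn at hi
    exact (mem_filter.1 hi).1
  exact bs_adj h hz h2 h1

theorem bs_Xn {Z : Finset (Fin n)} {w i : Fin n} : i ∈ Xn G Z w ↔ i ∈ Z ∧ ¬ G.Adj w i := by
  classical
  unfold Xn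
  exact mem_filter

open Classical in
/-- the chain in the other class -/
theorem bs_chain (h : Wld G τ L U) (hz : z ∈ zU G τ U) (hw : w ∈ S1 G τ (sw U z)) {t : ℕ}
    (ht1 : t ≤ ((Zp G τ (sw U z) z).filter fun v => G.Adj w v).card)
    (ht2 : t ≤ (Xn G (Zr G τ (sw U z)) w).card) :
    2 * (t : ℤ) ≤ al G (sw U z) w ∧ (t : ℤ) ≤ N G {w} (sw U z)ᶜ - ((Bg G τ U).card -
      (E G U - τ)) + ∑ v ∈ Zr G τ U, Mo G {v} (Bg G τ U) := by
  have hz' := zU_zr hz
  have h0 := h.s0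
  have h1 := h.s1 hz'
  have hb := bs_x h hz
  set W : Finset (Fin n) := sw U z with hW
  set J : Finset (Fin n) := cJ G τ W z w t with hJ
  set I : Finset (Fin n) := firstk (cT G τ W z w t) t with hI
  obtain ⟨j1, j2, j3⟩ := cJ_props (G := G) (τ := τ) (z := z) (w := w) (t := t) W
  have hJc : J.card = t := j3 ht1
  have hIs : I ⊆ Xn G (Zr G τ W) w := by
    rw [← bs_cT h hz w t]
    exact firstk_subset _ _
  have hIc : I.card = t := firstk_card _ (by rw [bs_cT h hz w t]; exact ht2)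
  have hIZ : I ⊆ Zr G τ W := fun i hi => (bs_Xn.1 (hIs hi)).1
  have hJZ : J ⊆ (Zr G τ U).erase z := by
    rw [← bs_Zp h hz]
    exact j1
  have c : Chn G τ L W z I J :=
    { h := h1
      h1 := by rw [bs_sw h hz]; exact h0
      hL := h.hL
      hz := sw_mem h0 h1 h.hL hz'
      hJ := j1
      hI := hIZ
      adj := fun i hi j hj => bs_adj h hz (hIZ hi) (hJZ hj)
      card := by rw [hIc, hJc] }
  have hXdef : cX G τ W z w t = W \ I ∪ J := rfl
  have htn : t ≤ n := by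
    refine ht2.trans ((card_le_univ _).trans ?_)
    rw [Fintype.card_fin]
  have hSf : cX G τ W z w t ∈ Sf G τ U :=
    Or.inr (Or.inr (Or.inr (Or.inr ⟨z, w, t, htn, rfl⟩)))
  rw [hXdef] at hSf
  -- the gain
  have g1 : ∑ i ∈ I, N G {i} W = t * ((Bg G τ U).card - 1) := by
    rw [sum_congr rfl fun i hi => bs_deg h hz (hIZ hi), sum_const, hIc, nsmul_eq_mul]
  have g2 : ∑ j ∈ J, N G {j} W = t * (Bg G τ U).card - ∑ j ∈ J, Mo G {j} (Bg G τ U) +
      ∑ j ∈ J, N G {j} (U \ Bg G τ U) := by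
    have : ∀ j ∈ J, N G {j} W = (Bg G τ U).card - Mo G {j} (Bg G τ U) +
        N G {j} (U \ Bg G τ U) := by
      intro j hj
      have hj' := mem_erase.1 (hJZ hj)
      exact bs_in h hz hj'.2 hj'.1
    rw [sum_congr rfl this, sum_add_distrib, sum_sub_distrib, sum_const, hJc, nsmul_eq_mul]
  have g3 : 0 ≤ ∑ j ∈ J, N G {j} (U \ Bg G τ U) := sum_nonneg fun j _ => N_nonneg G _ _
  have g4 : ∑ j ∈ J, Mo G {j} (Bg G τ U) ≤ ∑ v ∈ Zr G τ U, Mo G {v} (Bg G τ U) :=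
    sum_le_sum_of_subset_of_nonneg (fun j hj => (mem_erase.1 (hJZ hj)).2)
      fun v _ _ => Mo_nonneg G _ _
  have g5 := (two_sum_mo h0 h.hL (n_le h)).1
  have g6 : ∑ v ∈ S1 G τ U, al G U v ≤ (τ - E G Uᶜ) - L - 3 * (E G U - τ) := by
    refine sum_al_sub_le h0 ?_
    unfold S1
    exact sdiff_subset.trans Bg_subset
  have g7 := y_ge h0
  have hx1 := h.big
  have hL := h.hL
  have hE := ch_E c
  have hy := ch_y c
  have hcut : N G (W \ I ∪ J) (W \ I ∪ J)ᶜ = N G U Uᶜ := by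
    rw [ch_cut c, hW, sw_cut h0 hz']
  have hWbig := h1.big
  obtain ⟨hb1, hb2⟩ := hb
  rw [hJc, g1, g2] at hE
  have hng := h.ng _ hSf
  have hbig : τ + 1 ≤ E G (W \ I ∪ J) := by
    by_contra hcon
    push Not at hcon
    have hc1 : E G (W \ I ∪ J) ≤ τ := by omega
    have hc2 : τ + 1 ≤ E G (W \ I ∪ J)ᶜ := by
      by_contra hcc
      push Not at hcc
      exact hng ⟨hc1, by omega⟩
    nlinarith
  have hX : Stk G τ L (W \ I ∪ J) := h.st _ hSf hcut hbig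
  have hwB : w ∈ Bg G τ W := (mem_S1 h1.loc).1 hw |>.1
  have hw1 : 1 ≤ al G W w := ((mem_S1 h1.loc).1 hw).2
  have hwI : w ∉ I := by
    intro hc
    have := (mem_Zr.1 (hIZ hc)).2
    omega
  obtain ⟨m1, m2⟩ := chain_main c hX hwB hwI j2 fun i hi => (bs_Xn.1 (hIs hi)).2
  rw [hJc] at m1
  refine ⟨m1, ?_⟩
  rw [g1, g2, hb2] at m2
  nlinarith

open Classical in
theorem n_le_B (h : Wld G τ L U) (hz : z ∈ zU G τ U) : ∀ w ∈ S1 G τ (sw U z),
    2 * ((Xn G (Zr G τ (sw U z)) w).card : ℤ) ≤ al G (sw U z) w := by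
  intro w hw
  rcases le_or_gt (Xn G (Zr G τ (sw U z)) w).card
    ((Zp G τ (sw U z) z).filter fun v => G.Adj w v).card with hle | hlt
  · exact (bs_chain h hz hw hle le_rfl).1
  · exfalso
    have hz' := zU_zr hz
    have h0 := h.s0
    have h1 := h.s1 hz'
    have key := (bs_chain h hz hw le_rfl hlt.le).2
    have hzU := bs_zmem h hz
    have hzW : z ∈ Zr G τ (sw U z) := sw_mem h0 h1 h.hL hz'
    have hwB : w ∈ Bg G τ (sw U z) := ((mem_S1 h1.loc).1 hw).1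
    have hw1 : 1 ≤ al G (sw U z) w := ((mem_S1 h1.loc).1 hw).2
    have hwz : w ≠ z := by
      intro hc
      rw [hc, (mem_Zr.1 hzW).2] at hw1
      norm_num at hw1
    have hwU : w ∉ U := by
      have h2 := Bg_subset hwB
      unfold sw at h2
      rcases mem_insert.1 h2 with h3 | h3
      · exact absurd h3 hwz
      · exact mem_compl.1 h3
    have hzB : z ∈ Bg G τ U := Zr_subset hz'
    rw [bs_Zp h hz] at key
    -- the number of neighbours in the zero vertices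
    have hwZ : w ∉ (Zr G τ U).erase z := fun hc =>
      hwU (Bg_subset (Zr_subset (mem_of_mem_erase hc)))
    have hwBe : w ∉ (Bg G τ U).erase z := fun hc => hwU (Bg_subset (mem_of_mem_erase hc))
    have c1 : (((Zr G τ U).erase z).filter fun v => G.Adj w v).card +
        (Xn G ((Zr G τ U).erase z) w).card = ((Zr G τ U).erase z).card := by
      unfold Xn
      exact card_filter_add_card_filter_not (fun v => G.Adj w v)
    have c2 : ((Zr G τ U).erase z).card + 1 = (Zr G τ U).card := card_erase_add_one hz'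
    have c3 : ((Bg G τ U).erase z).card + 1 = (Bg G τ U).card := card_erase_add_one hzB
    have c4 : ((Xn G ((Zr G τ U).erase z) w).card : ℤ) ≤ Mo G {w} ((Bg G τ U).erase z) := by
      rw [← Mo_eq_Xn G hwZ]
      exact Mo_mono G (Subset.refl _) (erase_subset_erase _ Zr_subset)
    have c5 := N_add_Mo_of_notMem (G := G) hwBe
    have c6 : N G {w} (sw U z)ᶜ = N G {w} ((Bg G τ U).erase z) + N G {w} (U \ Bg G τ U) := by
      rw [sw_compl, N_erase_right G hzU, N_erase_right G hzB, N_sdiff_right G Bg_subset]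
      ring
    have c7 : N G {w} (U \ Bg G τ U) ≤ N G (U \ Bg G τ U) Uᶜ := by
      rw [N_comm]
      exact N_mono G (Subset.refl _) (singleton_subset_iff.2 (mem_compl.2 hwU))
    have c8 := small_out h0 h.hL
    have c9 : 0 ≤ N G (Bg G τ U) (U \ Bg G τ U) := N_nonneg G _ _
    have c10 := zr_card2 h0
    have c11 := (two_sum_mo h0 h.hL (n_le h)).2
    have c12 := bg_card h0 h.hL h.hτ
    have c1' : ((((Zr G τ U).erase z).filter fun v => G.Adj w v).card : ℤ) +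
        (Xn G ((Zr G τ U).erase z) w).card = ((Zr G τ U).erase z).card := by exact_mod_cast c1
    have c2' : (((Zr G τ U).erase z).card : ℤ) + 1 = (Zr G τ U).card := by exact_mod_cast c2
    have c3' : (((Bg G τ U).erase z).card : ℤ) + 1 = (Bg G τ U).card := by exact_mod_cast c3
    have hL := h.hL
    linarith

theorem same_card (h : Wld G τ L U) (hz : z ∈ zU G τ U) :
    (Bg G τ (sw U z)).card = (Bg G τ U).card := by
  have h1 := h.s1 (zU_zr hz)
  have e1 := zU_card h1 h.hL (n_le_B h hz)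
  have e2 := bg_card h1 h.hL h.hτ
  have e3 : 0 ≤ N G (sw U z \ Bg G τ (sw U z)) (sw U z)ᶜ := N_nonneg G _ _
  have e4 := h1.big
  have e5 := h.hL
  have e6 : 0 < (zU G τ (sw U z)).card := by
    have : (0 : ℤ) < ((zU G τ (sw U z)).card : ℤ) := by linarith
    exact_mod_cast this
  obtain ⟨i, hi⟩ := card_pos.1 e6
  have e7 := zU_deg h1 hi
  have e8 := bs_deg h hz (zU_zr hi)
  rw [e7] at e8
  have e9 : ((Bg G τ (sw U z)).card : ℤ) = (Bg G τ U).card := by linarith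
  exact_mod_cast e9

theorem zU_card_B (h : Wld G τ L U) (hz : z ∈ zU G τ U) :
    (E G (sw U z) - τ) + L + 4 + ((Bg G τ (sw U z)).card - (τ - E G (sw U z)ᶜ) - 2) +
      N G (sw U z \ Bg G τ (sw U z)) (sw U z)ᶜ ≤ ((zU G τ (sw U z)).card : ℤ) :=
  zU_card (h.s1 (zU_zr hz)) h.hL (n_le_B h hz)

end Pool.Agent.helper31.JBX
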