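import Pool.Agent.helper31.JBX.Defs
import Pool.Agent.helper81.JB.D1

/-!
# JBX-Ba, second half: zero vertices and big vertices of a stuck class
-/

set_option autoImplicit false

open Finset

namespace Pool.Agent.helper31.JBX

open Pool.Agent.helper81.JB

variable {V : Type} [Fintype V] [DecidableEq V] {G : SimpleGraph V} {τ L : ℤ} {U : Finset V}

theorem zr_card (h : Stk G τ L U) :
    ((Zr G τ U).card : ℤ) = (Bg G τ U).card - ∑ v ∈ Bg G τ U, al G U v +
      ∑ v ∈ S1 G τ U, (al G U v - 1) := by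
  have h2 := sum_Bg_eq h
  have h3 : (S1 G τ U).card + (Zr G τ U).card = (Bg G τ U).card := by
    unfold S1
    exact Finset.card_sdiff_add_card_eq_card Zr_subset
  have h4 : ∑ v ∈ S1 G τ U, (al G U v - 1) = ∑ v ∈ S1 G τ U, al G U v - (S1 G τ U).card := by
    rw [Finset.sum_sub_distrib]
    simp
  have h5 : ((S1 G τ U).card : ℤ) + (Zr G τ U).card = (Bg G τ U).card := by
    exact_mod_cast h3
  linarith

theorem zr_card2 (h : Stk G τ L U) :
    ((Zr G τ U).card : ℤ) = 3 * (E G U - τ) + L + 2 + ((Bg G τ U).card - (τ - E G Uᶜ) - 2) +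
      ∑ v ∈ U \ Bg G τ U, al G U v + ∑ v ∈ S1 G τ U, (al G U v - 1) := by
  have h1 := zr_card h
  have h2 := sum_al_U G (U := U) h.tot
  have h3 : ∑ v ∈ U \ Bg G τ U, al G U v + ∑ v ∈ Bg G τ U, al G U v = ∑ v ∈ U, al G U v :=
    Finset.sum_sdiff Bg_subset
  linarith

theorem s1_nonneg (h : Stk G τ L U) (S : Finset V) (hS : S ⊆ S1 G τ U) :
    0 ≤ ∑ v ∈ S, (al G U v - 1) := by
  refine Finset.sum_nonneg fun v hv => ?_
  have := ((mem_S1 h.loc).1 (hS hv)).2
  linarith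

theorem zr_own (_h : Stk G τ L U) {z : V} (hz : z ∈ Zr G τ U) : N G {z} Uᶜ = N G {z} U := by
  obtain ⟨h1, h2⟩ := mem_Zr.1 hz
  rw [al_mem G (Bg_subset h1)] at h2
  linarith

theorem zr_out (h : Stk G τ L U) {z : V} (hz : z ∈ Zr G τ U) :
    (τ - E G Uᶜ) + 1 ≤ N G {z} U := by
  rw [← zr_own h hz]
  exact deg_out h (mem_Zr.1 hz).1

theorem mo_bg (_h : Stk G τ L U) {z : V} (hz : z ∈ Bg G τ U) :
    Mo G {z} (Bg G τ U) = (Bg G τ U).card - 1 - N G {z} U + N G {z} (U \ Bg G τ U) := by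
  have h1 := N_add_Mo_of_mem G hz
  have h2 := N_sdiff_right G (Bg_subset (G := G) (τ := τ) (U := U)) {z}
  linarith

theorem mo_zr_le (h : Stk G τ L U) {z : V} (hz : z ∈ Zr G τ U) :
    Mo G {z} (Bg G τ U) ≤ (Bg G τ U).card - (τ - E G Uᶜ) - 2 + N G {z} (U \ Bg G τ U) := by
  have h1 := mo_bg h (mem_Zr.1 hz).1
  have h2 := zr_out h hz
  linarith

theorem zr_adj (h : Stk G τ L U) (hL : -3 ≤ L) {z z' : V} (hz : z ∈ Zr G τ U)
    (hz' : z' ∈ Zr G τ U) (hne : z ≠ z') : G.Adj z z' :=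
  Zr_adj h hL hz hz' hne

theorem mem_Bg_iff (h : Stk G τ L U) (hL : -3 ≤ L) {v : V} (hv : v ∈ U) :
    v ∈ Bg G τ U ↔ N G U Uᶜ - 2 * τ - 1 ≤ N G {v} univ := by
  have h1 := cut_eq G (U := U) h.tot
  have h2 := N_compl_right G {v} U
  have h3 := h.big
  constructor
  · intro hB
    have h4 := deg_out h hB
    have h5 : E G U - τ ≤ N G {v} U := by
      unfold Bg at hB
      exact (Finset.mem_filter.1 hB).2
    linarith
  · intro hN
    unfold Bg
    rw [Finset.mem_filter]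
    refine ⟨hv, ?_⟩
    by_contra hcon
    have h5 : N G {v} U ≤ E G U - τ - 1 := by omega
    have h6 : al G U v ≤ ∑ w ∈ U, al G U w :=
      Finset.single_le_sum (f := fun w => al G U w) (fun w _ => h.loc.one w) hv
    rw [sum_al_U G (U := U) h.tot, al_mem G hv] at h6
    linarith

theorem PB_eq (h : Stk G τ L U) (hL : -3 ≤ L) : PB G τ U = Bg G τ U := by
  ext v
  unfold PB
  rw [Finset.mem_filter]
  constructor
  · rintro ⟨hv, h1⟩
    exact (mem_Bg_iff h hL hv).2 h1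
  · intro hv
    exact ⟨Bg_subset hv, (mem_Bg_iff h hL (Bg_subset hv)).1 hv⟩

/-- the sum of the numbers of nonneighbours of the zero vertices -/
theorem sum_mo_zr (h : Stk G τ L U) (hL : -3 ≤ L) :
    ∑ z ∈ Zr G τ U, Mo G {z} (Bg G τ U) = ∑ w ∈ S1 G τ U, ((Xn G (Zr G τ U) w).card : ℤ) := by
  rw [← Mo_sum]
  have h1 : Bg G τ U = S1 G τ U ∪ Zr G τ U := by
    unfold S1
    exact (Finset.sdiff_union_of_subset Zr_subset).symm
  have h2 : Disjoint (S1 G τ U) (Zr G τ U) := by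
    unfold S1
    exact Finset.sdiff_disjoint
  have h3 : Mo G (Zr G τ U) (Zr G τ U) = 0 :=
    Mo_eq_zero G fun a ha b hb hab => zr_adj h hL ha hb hab
  have h4 : Mo G (Zr G τ U) (Bg G τ U) = Mo G (Zr G τ U) (S1 G τ U) := by
    conv_lhs => rw [h1]
    rw [Mo_union_right G h2, h3, add_zero]
  rw [h4, Mo_comm, Mo_sum]
  refine Finset.sum_congr rfl fun w hw => ?_
  exact Mo_eq_Xn G (Finset.disjoint_left.1 h2 hw)

end Pool.Agent.helper31.JBX
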