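import Pool.Agent.helper31.JBX.BaA
import Pool.Agent.helper31.JBX.BaB

/-!
# JBX-Ba: basic counting for a stuck class

`x = E G U - τ ≥ 1`, `y = τ - E G Uᶜ`, `B = Bg G τ U`, `Z = Zr G τ U`, `S = U \ B`; `y ≥ L + 3 x` (`y_ge`),
`∑_{U} al = y - L - 3 x` (`sum_al_U`), `al ≥ 0` (`h.loc.one`), `E B ≥ τ + 1` (`E_Bg`),
`N {v} Uᶜ ≥ y + 1` for `v ∈ B` (`deg_out`).

* `small_edges`: `E U = E B + E S + N B S` (`E_union` or `E_sdiff`).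
* `small_out`: `N S Uᶜ = ∑_S al + N S U` (`sum_al_sub`), `N S U = N S B + N S S = N S B + 2 E S`.
* `bg_card`: let `c = |B|`. `N B U = N B Uᶜ - ∑_B al ≥ c (y + 1) - (y - L - 3 x)`, `N B U = N B B + N B S
  ≤ c (c - 1) + (x - 1)` (`N_add_Mo_self`, `Mo_nonneg`, `small_edges`, `E_nonneg`).  So
  `c (y + 2 - c) ≤ y - L - 2 x - 1`.  If `c ≤ y + 1` then, as `c ≥ 1` (`E B ≥ τ + 1`; `c ≥ 1` suffices: if
  `c = 0` then `E B = 0`; note `τ ≥ 0` is not assumed: if `τ < 0` use `N B B ≥ 2 (τ + 1)`... see `hτ`),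
  `(c - 1) (y + 1 - c) ≥ 0` gives `c (y + 2 - c) ≥ y + 1`, so `L + 2 x + 2 ≤ 0`, contradiction.
* `zr_card`: `|B| = |Z| + |S1|`, `∑_B al = ∑_{S1} al`.
* `zr_card2`: `∑_B al = (y - L - 3 x) - ∑_S al`.
* `mo_zr`: `N {z} U = N {z} B + N {z} S` and `N {z} B + Mo {z} B = |B| - 1` (`N_add_Mo_of_mem`).
* `mem_Bg_iff`: for `v ∈ U`: if `x ≤ N {v} U` then `N {v} univ = N {v} U + N {v} Uᶜ ≥ x + y + 1`;
  otherwise `N {v} univ = 2 N {v} U + al v ≤ 2 (x - 1) + (y - L - 3 x)`; `N U Uᶜ - 2 τ = y - L - x`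
  (`cut_eq`).
-/

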