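import Pool.Agent.helper81.JB.C

set_option autoImplicit false

open Finset

namespace Pool.Agent.helper31.JBX

open Pool.Agent.helper81.JB

variable {V : Type} [Fintype V] [DecidableEq V] {G : SimpleGraph V} {τ L : ℤ} {U : Finset V}

theorem sum_al_nonneg (h : Stk G τ L U) (S : Finset V) : 0 ≤ ∑ v ∈ S, al G U v :=
  Finset.sum_nonneg fun v _ => h.loc.one v

theorem sum_al_sub_le (h : Stk G τ L U) {S : Finset V} (hS : S ⊆ U) :
    ∑ v ∈ S, al G U v ≤ (τ - E G Uᶜ) - L - 3 * (E G U - τ) := by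
  rw [← sum_al_U G (U := U) h.tot]
  exact Finset.sum_le_sum_of_subset_of_nonneg hS fun v _ _ => h.loc.one v

theorem small_edges (h : Stk G τ L U) (hL : -3 ≤ L) :
    N G (Bg G τ U) (U \ Bg G τ U) + E G (U \ Bg G τ U) ≤ (E G U - τ) - 1 := by
  have h1 := E_sdiff G (Bg_subset (G := G) (τ := τ) (U := U))
  have h2 := E_Bg h (by linarith)
  linarith

theorem small_out (h : Stk G τ L U) (hL : -3 ≤ L) :
    N G (U \ Bg G τ U) Uᶜ + N G (Bg G τ U) (U \ Bg G τ U) ≤
      2 * ((E G U - τ) - 1) + ∑ v ∈ U \ Bg G τ U, al G U v := by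
  have h1 := small_edges h hL
  have h2 := sum_al_sub G (Finset.sdiff_subset (s := U) (t := Bg G τ U))
  have h3 := N_sdiff_right G (Bg_subset (G := G) (τ := τ) (U := U)) (U \ Bg G τ U)
  have h4 := two_E G (U \ Bg G τ U)
  have h5 := N_comm G (U \ Bg G τ U) (Bg G τ U)
  linarith

theorem bg_card (h : Stk G τ L U) (hL : -3 ≤ L) (hτ : 0 ≤ τ) :
    (τ - E G Uᶜ) + 2 ≤ ((Bg G τ U).card : ℤ) := by
  have h1 := small_edges h hL
  have h2 := E_Bg h (by linarith)
  have h3 := E_le_choose G (Bg G τ U)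
  have h4 := two_E G (Bg G τ U)
  have h5 : ((Bg G τ U).card : ℤ) * ((τ - E G Uᶜ) + 1) ≤ N G (Bg G τ U) Uᶜ := by
    rw [N_sum]
    have := Finset.card_nsmul_le_sum (Bg G τ U) (fun v => N G {v} Uᶜ) ((τ - E G Uᶜ) + 1)
      fun v hv => deg_out h hv
    rwa [nsmul_eq_mul] at this
  have h6 := sum_al_sub_le h (Bg_subset (G := G) (τ := τ) (U := U))
  rw [sum_al_sub G Bg_subset] at h6
  have h7 := N_sdiff_right G (Bg_subset (G := G) (τ := τ) (U := U)) (Bg G τ U)
  have h8 := E_nonneg G (U \ Bg G τ U)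
  have h9 := h.big
  have h10 : (0 : ℤ) ≤ ((Bg G τ U).card : ℤ) := by positivity
  generalize ((Bg G τ U).card : ℤ) = c at h3 h5 h10 ⊢
  obtain ⟨y, hy⟩ : ∃ y : ℤ, τ - E G Uᶜ = y := ⟨_, rfl⟩
  rw [hy] at h5 h6 ⊢
  have h11 : 1 ≤ c := by
    by_contra hcon
    have h12 : c = 0 := by omega
    rw [h12] at h3
    linarith
  by_contra hcon
  have hcon' : c ≤ y + 1 := by omega
  have h13 : 0 ≤ (c - 1) * (y + 1 - c) := mul_nonneg (by linarith) (by linarith)
  nlinarith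

end Pool.Agent.helper31.JBX
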