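import Mathlib.Data.Nat.Basic
import Mathlib.Order.Lattice

/-!
# The bound for the number of edges in each class (MP_f18503_lc)

If `k (2 k + 1) ≤ m < (k + 1) (2 k + 3)` and `s = (k + 1) (2 k + 3) - m`, then `bdk k m` is the maximum of
`⌊m / 4⌋`, `k (k + 1) / 2` and `(k + 1) (k + 2) / 2 - s`.  `Opt m`: one of the three cases in which this is the
least possible bound for all graphs with `m` edges.
-/

set_option autoImplicit false

namespace Pool.Agent.helper31.JBX

/-- the bound for the number of edges in each class; divisions are rounded down, and the last difference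
is `0` if negative -/
def bdk (k m : ℕ) : ℕ :=
  max (m / 4) (max (k * (k + 1) / 2) ((k + 1) * (k + 2) / 2 + m - (k + 1) * (2 * k + 3)))

/-- numbers of edges for which the bound is optimal -/
def Opt (m : ℕ) : Prop :=
  (∃ k r : ℕ, r ≤ k + 3 ∧ r ≤ 4 * k + 2 ∧ m = k * (2 * k + 1) + r) ∨
  (∃ k s : ℕ, 1 ≤ k ∧ 3 * s ≤ k + 3 ∧ m = k * (2 * k + 1) - s) ∨
  ∃ k u : ℕ, u ^ 2 ≤ m ∧ bdk k m ≤ u ^ 2 / 4

end Pool.Agent.helper31.JBX
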