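import Pool.Agent.helper31.JBX.Sw

/-!
# JBX-Ch: the chain exchange

`h : Stk G τ L W`, `z ∈ Zr G τ W`, `h1 : Stk G τ L (sw W z)`, `J ⊆ Zp W z`, `I ⊆ Zr W`, `|I| = |J| = t`,
all vertices of `I` adjacent to all of `J`.  `I` is a clique (`zr_adj`) with `al = 0`, `J` is a clique
(`zp_adj`) with `al = 2` (`zp_props`), `J ⊆ Wᶜ`.

* `ch_cut`: `flip_formula`, `N I I = N J J = t (t - 1)`, `N I J = t ^ 2`.
* `ch_E`: `E (W \ I) = E W - N I W + E I` (`E_sdiff`), `E (W \ I ∪ J) = E (W \ I) + E J + N (W \ I) J`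
  (`E_union`), `N (W \ I) J = N W J - N I J`.
* `ch_y`: from `ch_cut` and `cut_eq` (the sum `E X + E Xᶜ` is determined by the cut).
* `ch_al`: `al_mem` twice.
* `ch_bg`: `mem_Bg_iff` twice and `ch_cut`. `ch_zr`: `al = 0 + 2 t - 2 t`.
* `chain_main`: `w ∈ Bg X` for `X = W \ I ∪ J`; `hX.loc.one w`, `ch_al`; `deg_out hX`, `ch_out`, `ch_y`.
* `chain_last`: `adj01 hX` for `w` and `i`: if `al X w ≤ 1` then `w`, `i` are adjacent.
-/

set_option autoImplicit false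

open Finset

namespace Pool.Agent.helper31.JBX

open Pool.Agent.helper81.JB

variable {V : Type} [Fintype V] [DecidableEq V] {G : SimpleGraph V} {τ L : ℤ} {W I J : Finset V}
  {z : V}

/-- the hypotheses of the chain exchange -/
structure Chn (G : SimpleGraph V) (τ L : ℤ) (W : Finset V) (z : V) (I J : Finset V) : Prop where
  h : Stk G τ L W
  h1 : Stk G τ L (sw W z)
  hL : -3 ≤ L
  hz : z ∈ Zr G τ W
  hJ : J ⊆ Zp G τ W z
  hI : I ⊆ Zr G τ W
  adj : ∀ i ∈ I, ∀ j ∈ J, G.Adj i j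
  card : I.card = J.card

theorem ch_Jc (c : Chn G τ L W z I J) : J ⊆ Wᶜ := by
  intro v hv
  exact Finset.mem_compl.2 (zp_props c.h c.h1 c.hL c.hz (c.hJ hv)).1

theorem ch_IW (c : Chn G τ L W z I J) : I ⊆ W :=
  c.hI.trans (Zr_subset.trans Bg_subset)

theorem ch_disj (c : Chn G τ L W z I J) : Disjoint I J := by
  rw [Finset.disjoint_left]
  intro v hv hvJ
  exact (Finset.mem_compl.1 (ch_Jc c hvJ)) (ch_IW c hv)

theorem ch_disj2 (c : Chn G τ L W z I J) : Disjoint (W \ I) J := by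
  rw [Finset.disjoint_left]
  intro v hv hvJ
  exact (Finset.mem_compl.1 (ch_Jc c hvJ)) (mem_sdiff.1 hv).1

theorem ch_compl (c : Chn G τ L W z I J) : (W \ I ∪ J)ᶜ = Wᶜ \ J ∪ I := by
  ext v
  have h1 : v ∈ I → v ∈ W := fun hv => ch_IW c hv
  have h2 : v ∈ J → v ∉ W := fun hv => Finset.mem_compl.1 (ch_Jc c hv)
  simp only [mem_compl, mem_union, mem_sdiff]
  tauto

theorem ch_disj3 (c : Chn G τ L W z I J) : Disjoint (Wᶜ \ J) I := by
  rw [Finset.disjoint_left]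
  intro v hv hvI
  exact (Finset.mem_compl.1 (mem_sdiff.1 hv).1) (ch_IW c hvI)

theorem ch_II (c : Chn G τ L W z I J) : N G I I = (J.card : ℤ) * (J.card - 1) := by
  have h1 := N_add_Mo_self G I
  rw [Mo_eq_zero G fun a ha b hb hab => zr_adj c.h c.hL (c.hI ha) (c.hI hb) hab, c.card] at h1
  linarith

theorem ch_JJ (c : Chn G τ L W z I J) : N G J J = (J.card : ℤ) * (J.card - 1) := by
  have h1 := N_add_Mo_self G J
  rw [Mo_eq_zero G fun a ha b hb hab => zp_adj c.h c.h1 c.hL c.hz (c.hJ ha) (c.hJ hb) hab] at h1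
  linarith

theorem ch_IJ (c : Chn G τ L W z I J) : N G I J = (J.card : ℤ) * J.card := by
  have h1 := N_add_Mo G (ch_disj c)
  rw [Mo_eq_zero G fun a ha b hb _ => c.adj a ha b hb, c.card] at h1
  linarith

theorem ch_sumI (c : Chn G τ L W z I J) : ∑ v ∈ I, al G W v = 0 :=
  Finset.sum_eq_zero fun _ hv => (mem_Zr.1 (c.hI hv)).2

theorem ch_sumJ (c : Chn G τ L W z I J) : ∑ v ∈ J, al G W v = 2 * J.card := by
  rw [Finset.sum_congr rfl fun v hv => (zp_props c.h c.h1 c.hL c.hz (c.hJ hv)).2.2.2.1,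
    Finset.sum_const, nsmul_eq_mul]
  ring

theorem ch_all {w : V} {A : Finset V} (h : ∀ a ∈ A, G.Adj w a) : N G {w} A = A.card := by
  rw [N_sing_sum, Finset.sum_congr rfl fun a ha => ind_adj G (h a ha), Finset.sum_const,
    nsmul_eq_mul, mul_one]

theorem ch_none {w : V} {A : Finset V} (h : ∀ a ∈ A, ¬ G.Adj w a) : N G {w} A = 0 := by
  rw [N_sing_sum]
  exact Finset.sum_eq_zero fun a ha => ind_not G (h a ha)

theorem ch_cut (c : Chn G τ L W z I J) : N G (W \ I ∪ J) (W \ I ∪ J)ᶜ = N G W Wᶜ := by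
  rw [flip_formula G (ch_IW c) (ch_Jc c), ch_sumI c, ch_sumJ c, ch_II c, ch_JJ c, ch_IJ c]
  ring

theorem ch_E (c : Chn G τ L W z I J) :
    E G (W \ I ∪ J) = E G W + ∑ j ∈ J, N G {j} W - ∑ i ∈ I, N G {i} W - J.card := by
  have h1 := E_sdiff G (ch_IW c)
  have h2 := E_union G (ch_disj2 c)
  have h3 : N G I (W \ I) = N G I W - N G I I := N_sdiff_right G (ch_IW c) I
  have h4 : N G (W \ I) J = N G W J - N G I J := N_sdiff_left G (ch_IW c) J
  have h5 := two_E G I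
  have h6 := two_E G J
  have h7 : N G W J = N G J W := N_comm G W J
  have h8 := N_sum G J W
  have h9 := N_sum G I W
  have hII := ch_II c
  have hJJ := ch_JJ c
  have hIJ := ch_IJ c
  rw [← h8, ← h9]
  have h10 : (J.card : ℤ) * (J.card - 1) = J.card * J.card - J.card := by ring
  rw [h10] at hII hJJ
  generalize (J.card : ℤ) * J.card = q at hII hJJ hIJ
  linarith

theorem ch_y (c : Chn G τ L W z I J) :
    (τ - E G (W \ I ∪ J)ᶜ) - (E G (W \ I ∪ J) - τ) = (τ - E G Wᶜ) - (E G W - τ) := by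
  have h1 := cut_eq G (U := W) c.h.tot
  have h2 := cut_eq G (U := W \ I ∪ J) c.h.tot
  have h3 := ch_cut c
  linarith

theorem ch_al (c : Chn G τ L W z I J) {w : V} (hw : w ∈ W) (hwI : w ∉ I) :
    al G (W \ I ∪ J) w = al G W w + 2 * N G {w} I - 2 * N G {w} J := by
  have hX : w ∈ W \ I ∪ J := mem_union_left _ (mem_sdiff.2 ⟨hw, hwI⟩)
  rw [al_mem G hX, al_mem G hw, ch_compl c, N_union_right G (ch_disj3 c),
    N_union_right G (ch_disj2 c), N_sdiff_right G (ch_Jc c), N_sdiff_right G (ch_IW c)]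
  ring

theorem ch_out (c : Chn G τ L W z I J) {w : V} (hw : w ∈ W) :
    N G {w} (W \ I ∪ J)ᶜ = N G {w} Wᶜ + N G {w} I - N G {w} J := by
  rw [ch_compl c, N_union_right G (ch_disj3 c), N_sdiff_right G (ch_Jc c)]
  ring

theorem ch_bg (c : Chn G τ L W z I J) (hX : Stk G τ L (W \ I ∪ J)) {w : V} (hw : w ∈ Bg G τ W)
    (hwI : w ∉ I) : w ∈ Bg G τ (W \ I ∪ J) := by
  have hwW := Bg_subset hw
  have hX' : w ∈ W \ I ∪ J := mem_union_left _ (mem_sdiff.2 ⟨hwW, hwI⟩)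
  rw [mem_Bg_iff hX c.hL hX', ch_cut c]
  exact (mem_Bg_iff c.h c.hL hwW).1 hw

theorem ch_zr (c : Chn G τ L W z I J) (hX : Stk G τ L (W \ I ∪ J)) {i : V} (hi : i ∈ Zr G τ W)
    (hiI : i ∉ I) (hij : ∀ j ∈ J, G.Adj i j) : i ∈ Zr G τ (W \ I ∪ J) := by
  have hiB := Zr_subset hi
  have hiW := Bg_subset hiB
  refine mem_Zr.2 ⟨ch_bg c hX hiB hiI, ?_⟩
  have h1 : N G {i} I = I.card := ch_all fun a ha =>
    zr_adj c.h c.hL hi (c.hI ha) fun e => hiI (e ▸ ha)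
  rw [ch_al c hiW hiI, (mem_Zr.1 hi).2, h1, ch_all hij, c.card]
  ring

theorem chain_main (c : Chn G τ L W z I J) (hX : Stk G τ L (W \ I ∪ J)) {w : V}
    (hw : w ∈ Bg G τ W) (hwI : w ∉ I) (h1 : ∀ j ∈ J, G.Adj w j) (h2 : ∀ i ∈ I, ¬ G.Adj w i) :
    2 * (J.card : ℤ) ≤ al G W w ∧
      ∑ j ∈ J, N G {j} W - ∑ i ∈ I, N G {i} W ≤ N G {w} Wᶜ - (τ - E G Wᶜ) - 1 := by
  have hwW := Bg_subset hw
  have h3 := hX.loc.one w
  have h4 := ch_al c hwW hwI
  have h5 := deg_out hX (ch_bg c hX hw hwI)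
  have h6 := ch_out c hwW
  have h7 := ch_y c
  have h8 := ch_E c
  rw [ch_all h1, ch_none h2] at h4 h6
  constructor
  · linarith
  · linarith

theorem chain_last (c : Chn G τ L W z I J) (hX : Stk G τ L (W \ I ∪ J)) {w i : V}
    (hw : w ∈ Bg G τ W) (hwI : w ∉ I) (h1 : ∀ j ∈ J, G.Adj w j) (h2 : ∀ i ∈ I, ¬ G.Adj w i)
    (hi : i ∈ Zr G τ W) (hiI : i ∉ I) (hij : ∀ j ∈ J, G.Adj i j) (hne : w ≠ i)
    (hwi : ¬ G.Adj w i) : 2 * (J.card : ℤ) + 2 ≤ al G W w := by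
  have hwW := Bg_subset hw
  have h4 := ch_al c hwW hwI
  rw [ch_all h1, ch_none h2] at h4
  have h5 := ch_zr c hX hi hiI hij
  have h6 := (mem_Zr.1 h5).2
  by_contra hcon
  apply hwi
  refine adj01 hX c.hL (ch_bg c hX hw hwI) (mem_Zr.1 h5).1 hne ?_
  omega

end Pool.Agent.helper31.JBX
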