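import Pool.Agent.helper31.JBX.Ex
import Pool.Agent.helper31.JBX.Ch
import Pool.Agent.helper81.JB.AlgR3

/-!
# JBX-CA: the chain in the heavy class

`h : Wld G τ L U`, `x = E G U - τ`, `y = τ - E G Uᶜ`, `B = Bg G τ U`, `S = U \ B`; `z ∈ Zr U` with the minimal
number `D = Mo {z} B` of nonneighbours in `B` (`hmin`).  `C = (Zp U z).filter (Adj w)`, `J = cJ U z w t`,
`T = Xn (Zr U) w`, `T_J = cT U z w t`, `I = firstk T_J t`.
`firstk S q ⊆ S` and `(firstk S q).card = q` for `q ≤ S.card`: `firstk_subset`, `firstk_card` of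
`helper81/JB/AlgR3` (import it, or reprove them).

* `cJ_props`. `chn_cX`: `Chn G τ L U z (firstk T_J t) J` (`w` is adjacent to all of `J`, not adjacent to `I`).
* `cX_gain`: `∑_J N {j} U - ∑_I N {i} U - t = ∑_I Mo {i} B - ∑_J Mo {j} B + ∑_J N {j} S - ∑_I N {i} S`
  (`zp_deg`, `mo_bg`) `≥ - (x - 1)`: `Mo {j} B ≤ D` (`ex_D`), `Mo {i} B ≥ D`, `∑_I N {i} S ≤ N B S ≤ x - 1`.
* `cX_stk`: `cX U z w t ∈ Sf` (`t ≤ n`), `ch_cut`, `ch_E`, `cX_gain`, `h.st`.
* `steps`: from `chain_main` and `cX_gain`: `t - (x - 1) ≤ N {w} Uᶜ - y - 1`, and `partners`: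
  `|C| = N {w} (Zp U z) ≥ x + L + 2 - y + N {w} Uᶜ`, so `t < |C|` if `L ≥ -3`.
* `claimA`: let `q = al w / 2` (`≥ 0`).  If `|C| ≤ q`: take `t = |C|`; `t ≤ |T_J|` would give `t < |C|`
  (`steps`); so `|T_J| < t`, and `|T| ≤ |T_J| + ∑_{J} Mo {j} B ≤ (t - 1) + t D`.  If `|C| > q`: take
  `t = q`; if `|T_J| > q` then some `i ∈ T_J` is not in `I`, and `chain_last` gives `2 q + 2 ≤ al w`,
  contradiction.  So `|T| ≤ q + q D`.  The case `q = 0`: the same (`J = I = ∅`).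
  (`|T \ T_J| ≤ ∑_{j ∈ J} |{v ∈ T : v, j not adjacent}| ≤ ∑_J Mo {j} B`.)
* `first_one`: `D = 1`, `|T| = al w ≥ 4`, `q = al w / 2 ≥ 2`, `|T| = 2 q` (`al w` is even? if `al w = 2 q + 1`
  then `|T| ≤ 2 q` by `claimA`).  `|C| ≤ q` would give `|T| ≤ 2 q - 1`.  So `|C| > q`, and for `J = firstk C q`:
  `2 q = |T| ≤ q + |T \ T_J|`, `|T \ T_J| ≤ ∑_{j ∈ J} |{v ∈ T : not adjacent to j}|` and each summand is `≤
  Mo {j} B ≤ 1`; so each `j ∈ J` has exactly one nonneighbour in `T` and `Mo {j} B = 1`.  The smallest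
  element `c` of `C` is in `J = firstk C q` as `q ≥ 1`.
-/

set_option autoImplicit false

open Finset

namespace Pool.Agent.helper31.JBX

open Pool.Agent.helper81.JB

variable {n : ℕ} {G : SimpleGraph (Fin n)} {τ L : ℤ} {U : Finset (Fin n)} {z w : Fin n} {t : ℕ}

open Classical in
theorem cJ_props (W : Finset (Fin n)) : cJ G τ W z w t ⊆ Zp G τ W z ∧
    (∀ j ∈ cJ G τ W z w t, G.Adj w j) ∧
    (t ≤ ((Zp G τ W z).filter fun v => G.Adj w v).card → (cJ G τ W z w t).card = t) := by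
  refine ⟨fun j hj => ?_, fun j hj => ?_, fun ht => ?_⟩
  · exact (mem_filter.1 (firstk_subset _ _ hj)).1
  · exact (mem_filter.1 (firstk_subset _ _ hj)).2
  · exact firstk_card _ ht

theorem CA_mem_cT {W : Finset (Fin n)} {i : Fin n} (hi : i ∈ cT G τ W z w t) :
    i ∈ Xn G (Zr G τ W) w ∧ ∀ j ∈ cJ G τ W z w t, G.Adj i j := by
  classical
  unfold cT at hi
  exact mem_filter.1 hi

theorem CA_mem_Xn {S : Finset (Fin n)} {i : Fin n} (hi : i ∈ Xn G S w) : i ∈ S ∧ ¬ G.Adj w i := by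
  classical
  unfold Xn at hi
  exact mem_filter.1 hi

theorem CA_xn_sub (S : Finset (Fin n)) : Xn G S w ⊆ S := fun _ hi => (CA_mem_Xn hi).1

theorem CA_chn (h : Wld G τ L U) (hz : z ∈ Zr G τ U)
    (h1 : (cJ G τ U z w t).card = t) (h2 : t ≤ (cT G τ U z w t).card) :
    Chn G τ L U z (firstk (cT G τ U z w t) t) (cJ G τ U z w t) where
  h := h.s0
  h1 := h.s1 hz
  hL := h.hL
  hz := hz
  hJ := (cJ_props U).1
  hI := fun i hi => (CA_mem_Xn (CA_mem_cT (firstk_subset _ _ hi)).1).1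
  adj := fun i hi j hj => (CA_mem_cT (firstk_subset _ _ hi)).2 j hj
  card := by rw [firstk_card _ h2, h1]

theorem CA_gain (h : Wld G τ L U) (hz : z ∈ Zr G τ U)
    (hmin : ∀ z' ∈ Zr G τ U, Mo G {z} (Bg G τ U) ≤ Mo G {z'} (Bg G τ U)) {I J : Finset (Fin n)}
    (hJ : J ⊆ Zp G τ U z) (hI : I ⊆ Zr G τ U) (hc : I.card = J.card) :
    -((E G U - τ) - 1) ≤ ∑ j ∈ J, N G {j} U - ∑ i ∈ I, N G {i} U - J.card := by
  have h0 := h.s0
  have h1 := h.s1 hz
  have e1 : ∑ j ∈ J, N G {j} U = ∑ j ∈ J, (((Bg G τ U).card : ℤ) - Mo G {j} (Bg G τ U) +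
      N G {j} (U \ Bg G τ U)) :=
    sum_congr rfl fun j hj => (zp_deg h0 h1 h.hL hz (hJ hj)).2
  have e2 : ∑ i ∈ I, N G {i} U = ∑ i ∈ I, (((Bg G τ U).card : ℤ) - 1 - Mo G {i} (Bg G τ U) +
      N G {i} (U \ Bg G τ U)) :=
    sum_congr rfl fun i hi => by
      have := mo_bg h0 (Zr_subset (hI hi))
      linarith
  have e3 : ∑ j ∈ J, (((Bg G τ U).card : ℤ) - Mo G {j} (Bg G τ U) + N G {j} (U \ Bg G τ U)) ≥
      ∑ j ∈ J, (((Bg G τ U).card : ℤ) - Mo G {z} (Bg G τ U)) :=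
    sum_le_sum fun j hj => by
      have := (ex_D h hz (hJ hj)).1
      have := N_nonneg G {j} (U \ Bg G τ U)
      linarith
  have e4 : ∑ i ∈ I, (((Bg G τ U).card : ℤ) - 1 - Mo G {i} (Bg G τ U) + N G {i} (U \ Bg G τ U)) ≤
      ∑ i ∈ I, (((Bg G τ U).card : ℤ) - 1 - Mo G {z} (Bg G τ U) + N G {i} (U \ Bg G τ U)) :=
    sum_le_sum fun i hi => by
      have := hmin i (hI hi)
      linarith
  have e5 : ∑ i ∈ I, N G {i} (U \ Bg G τ U) ≤ (E G U - τ) - 1 := by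
    rw [← N_sum]
    have a1 := N_mono G (hI.trans Zr_subset) (Subset.refl (U \ Bg G τ U))
    have a2 := small_edges h0 h.hL
    have a3 := E_nonneg G (U \ Bg G τ U)
    linarith
  have e6 : ∑ j ∈ J, (((Bg G τ U).card : ℤ) - Mo G {z} (Bg G τ U)) =
      J.card * (((Bg G τ U).card : ℤ) - Mo G {z} (Bg G τ U)) := by
    rw [sum_const, nsmul_eq_mul]
  have e7 : ∑ i ∈ I, (((Bg G τ U).card : ℤ) - 1 - Mo G {z} (Bg G τ U) + N G {i} (U \ Bg G τ U)) =
      J.card * (((Bg G τ U).card : ℤ) - 1 - Mo G {z} (Bg G τ U)) +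
        ∑ i ∈ I, N G {i} (U \ Bg G τ U) := by
    rw [sum_add_distrib, sum_const, nsmul_eq_mul, hc]
  rw [e1, e2]
  linarith

theorem cX_stk (h : Wld G τ L U) (hz : z ∈ Zr G τ U)
    (hmin : ∀ z' ∈ Zr G τ U, Mo G {z} (Bg G τ U) ≤ Mo G {z'} (Bg G τ U)) (hw : w ∈ Bg G τ U)
    (h1 : (cJ G τ U z w t).card = t) (h2 : t ≤ (cT G τ U z w t).card) :
    Stk G τ L (cX G τ U z w t) := by
  have c := CA_chn h hz h1 h2
  have ht : t ≤ n := h2.trans ((card_le_univ _).trans (by rw [Fintype.card_fin]))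
  refine h.st _ (Or.inr (Or.inr (Or.inr (Or.inl ⟨z, w, t, ht, rfl⟩)))) (ch_cut c) ?_
  have e1 := ch_E c
  have e2 := CA_gain h hz hmin c.hJ c.hI c.card
  unfold cX
  rw [e1]
  linarith

theorem CA_cardN (S : Finset (Fin n)) [DecidablePred fun v => G.Adj w v] :
    N G {w} S = ((S.filter fun v => G.Adj w v).card : ℤ) := by
  rw [N_sing_sum, card_filter, Nat.cast_sum]
  refine sum_congr rfl fun b _ => ?_
  by_cases hA : G.Adj w b
  · rw [ind_adj G hA, if_pos hA]; rfl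
  · rw [ind_not G hA, if_neg hA]; rfl

open Classical in
theorem steps (h : Wld G τ L U) (hz : z ∈ Zr G τ U)
    (hmin : ∀ z' ∈ Zr G τ U, Mo G {z} (Bg G τ U) ≤ Mo G {z'} (Bg G τ U)) (hw : w ∈ S1 G τ U)
    (h1 : t ≤ ((Zp G τ U z).filter fun v => G.Adj w v).card)
    (h2 : t ≤ (cT G τ U z w t).card) :
    2 * (t : ℤ) ≤ al G U w ∧ t < ((Zp G τ U z).filter fun v => G.Adj w v).card ∧
      (t < (cT G τ U z w t).card → 2 * (t : ℤ) + 2 ≤ al G U w) := by
  have h0 := h.s0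
  have hs1 := h.s1 hz
  have hwB : w ∈ Bg G τ U := (mem_sdiff.1 hw).1
  have hwZ : w ∉ Zr G τ U := (mem_sdiff.1 hw).2
  have hJc : (cJ G τ U z w t).card = t := (cJ_props U).2.2 h1
  have c := CA_chn h hz hJc h2
  have hX := cX_stk h hz hmin hwB hJc h2
  have hwI : w ∉ firstk (cT G τ U z w t) t := fun hh => hwZ (c.hI hh)
  have hadj : ∀ j ∈ cJ G τ U z w t, G.Adj w j := (cJ_props U).2.1
  have hnadj : ∀ i ∈ firstk (cT G τ U z w t) t, ¬ G.Adj w i := fun i hi =>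
    (CA_mem_Xn (CA_mem_cT (firstk_subset _ _ hi)).1).2
  obtain ⟨m1, m2⟩ := chain_main c hX hwB hwI hadj hnadj
  have g := CA_gain h hz hmin c.hJ c.hI c.card
  have hwz : w ≠ z := fun e => hwZ (e ▸ hz)
  have pt := partners h0 hs1 h.hL hz (Bg_subset hwB) hwz
  have s1n := s1_nonneg hs1 (S1 G τ (sw U z)) (Subset.refl _)
  rw [CA_cardN (Zp G τ U z)] at pt
  rw [hJc] at m1 g
  have hLL := h.hL
  refine ⟨m1, ?_, fun h3 => ?_⟩
  · have : (t : ℤ) < (((Zp G τ U z).filter fun v => G.Adj w v).card : ℤ) := by linarith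
    exact_mod_cast this
  · obtain ⟨i, hi, hiI⟩ : ∃ i ∈ cT G τ U z w t, i ∉ firstk (cT G τ U z w t) t := by
      by_contra hcon
      push Not at hcon
      have := card_le_card hcon
      rw [firstk_card _ h2] at this
      omega
    have hi' := CA_mem_cT hi
    have hi'' := CA_mem_Xn hi'.1
    have := chain_last c hX hwB hwI hadj hnadj hi''.1 hiI hi'.2 (fun e => hwZ (e ▸ hi''.1)) hi''.2
    rw [hJc] at this
    exact this

/-- the vertices of `T` which are not adjacent to all of `J` -/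
theorem CA_miss (h : Wld G τ L U) (hz : z ∈ Zr G τ U) :
    ((Xn G (Zr G τ U) w).card : ℤ) ≤ (cT G τ U z w t).card +
      ∑ j ∈ cJ G τ U z w t, Mo G {j} (Xn G (Zr G τ U) w) := by
  classical
  have hsub : Xn G (Zr G τ U) w ⊆ cT G τ U z w t ∪
      (cJ G τ U z w t).biUnion fun j => Xn G (Xn G (Zr G τ U) w) j := by
    intro v hv
    rw [mem_union, mem_biUnion]
    by_cases hA : ∀ j ∈ cJ G τ U z w t, G.Adj v j
    · left
      unfold cT
      rw [mem_filter]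
      exact ⟨hv, hA⟩
    · push Not at hA
      obtain ⟨j, hj, hjv⟩ := hA
      right
      refine ⟨j, hj, ?_⟩
      rw [Xn, mem_filter]
      exact ⟨hv, fun hh => hjv hh.symm⟩
  have hc := (card_le_card hsub).trans (card_union_le _ _)
  have hb : ((cJ G τ U z w t).biUnion fun j => Xn G (Xn G (Zr G τ U) w) j).card ≤
      ∑ j ∈ cJ G τ U z w t, (Xn G (Xn G (Zr G τ U) w) j).card := card_biUnion_le
  have he : ∑ j ∈ cJ G τ U z w t, Mo G {j} (Xn G (Zr G τ U) w) =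
      ((∑ j ∈ cJ G τ U z w t, (Xn G (Xn G (Zr G τ U) w) j).card : ℕ) : ℤ) := by
    rw [Nat.cast_sum]
    refine sum_congr rfl fun j hj => ?_
    refine Mo_eq_Xn G ?_
    intro hjT
    have hj1 := (zp_props h.s0 (h.s1 hz) h.hL hz ((cJ_props U).1 hj)).1
    exact hj1 (Bg_subset (Zr_subset (CA_xn_sub _ hjT)))
  rw [he]
  exact_mod_cast hc.trans (Nat.add_le_add_left hb _)

theorem CA_mo_T (h : Wld G τ L U) (hz : z ∈ Zr G τ U) {j : Fin n} (hj : j ∈ Zp G τ U z) :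
    Mo G {j} (Xn G (Zr G τ U) w) ≤ Mo G {j} (Bg G τ U) ∧
      Mo G {j} (Bg G τ U) ≤ Mo G {z} (Bg G τ U) :=
  ⟨Mo_mono G (Subset.refl _) ((CA_xn_sub _).trans Zr_subset), (ex_D h hz hj).1⟩

theorem CA_miss' (h : Wld G τ L U) (hz : z ∈ Zr G τ U) :
    ((Xn G (Zr G τ U) w).card : ℤ) ≤ (cT G τ U z w t).card +
      (cJ G τ U z w t).card * Mo G {z} (Bg G τ U) := by
  refine (CA_miss h hz (t := t)).trans (add_le_add le_rfl ?_)
  have : ∑ j ∈ cJ G τ U z w t, Mo G {j} (Xn G (Zr G τ U) w) ≤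
      ∑ j ∈ cJ G τ U z w t, Mo G {z} (Bg G τ U) :=
    sum_le_sum fun j hj => by
      have := CA_mo_T (w := w) h hz ((cJ_props U).1 hj)
      linarith [this.1, this.2]
  rw [sum_const, nsmul_eq_mul] at this
  exact this

open Classical in
/-- few partners: then there are few candidates -/
theorem CA_few (h : Wld G τ L U) (hz : z ∈ Zr G τ U)
    (hmin : ∀ z' ∈ Zr G τ U, Mo G {z} (Bg G τ U) ≤ Mo G {z'} (Bg G τ U)) (hw : w ∈ S1 G τ U)
    (ht : t = ((Zp G τ U z).filter fun v => G.Adj w v).card) :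
    ((Xn G (Zr G τ U) w).card : ℤ) ≤ t - 1 + t * Mo G {z} (Bg G τ U) := by
  have hJc : (cJ G τ U z w t).card = t := (cJ_props U).2.2 ht.le
  have h3 : (cT G τ U z w t).card < t := by
    by_contra hcon
    have := (steps h hz hmin hw ht.le (not_lt.1 hcon)).2.1
    omega
  have h4 := CA_miss' (w := w) h hz (t := t)
  rw [hJc] at h4
  have h5 : ((cT G τ U z w t).card : ℤ) + 1 ≤ t := by exact_mod_cast h3
  linarith

open Classical in
/-- many partners: then there are few candidates adjacent to all of `J` -/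
theorem CA_many (h : Wld G τ L U) (hz : z ∈ Zr G τ U)
    (hmin : ∀ z' ∈ Zr G τ U, Mo G {z} (Bg G τ U) ≤ Mo G {z'} (Bg G τ U)) (hw : w ∈ S1 G τ U)
    (ht : t ≤ ((Zp G τ U z).filter fun v => G.Adj w v).card) (hq : (t : ℤ) = al G U w / 2) :
    (cT G τ U z w t).card ≤ t := by
  by_contra hcon
  have := (steps h hz hmin hw ht (not_le.1 hcon).le).2.2 (not_le.1 hcon)
  omega

theorem claimA (h : Wld G τ L U) (hz : z ∈ Zr G τ U)
    (hmin : ∀ z' ∈ Zr G τ U, Mo G {z} (Bg G τ U) ≤ Mo G {z'} (Bg G τ U)) (hw : w ∈ S1 G τ U) :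
    ((Xn G (Zr G τ U) w).card : ℤ) ≤ (1 + Mo G {z} (Bg G τ U)) * (al G U w / 2) := by
  classical
  have hD := Mo_nonneg G {z} (Bg G τ U)
  have ha : 1 ≤ al G U w := ((mem_S1 h.s0.loc).1 hw).2
  obtain ⟨q, hq⟩ : ∃ q : ℕ, (q : ℤ) = al G U w / 2 := ⟨(al G U w / 2).toNat, by omega⟩
  rw [← hq]
  rcases le_or_gt ((Zp G τ U z).filter fun v => G.Adj w v).card q with hc | hc
  · have h1 := CA_few h hz hmin hw rfl
    have h2 : (((Zp G τ U z).filter fun v => G.Adj w v).card : ℤ) ≤ q := by exact_mod_cast hc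
    have h3 := mul_le_mul_of_nonneg_right h2 hD
    linarith
  · have h1 := CA_many h hz hmin hw hc.le hq
    have h2 := CA_miss' (w := w) h hz (t := q)
    rw [(cJ_props U).2.2 hc.le] at h2
    have h3 : ((cT G τ U z w q).card : ℤ) ≤ q := by exact_mod_cast h1
    linarith

theorem CA_min_mem {S : Finset (Fin n)} (hS : S.Nonempty) {q : ℕ} (hq : 1 ≤ q) :
    ∃ c ∈ firstk S q, ∀ v ∈ S, c ≤ v := by
  refine ⟨S.min' hS, ?_, fun v hv => min'_le S v hv⟩
  unfold firstk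
  rw [mem_filter]
  refine ⟨min'_mem S hS, ?_⟩
  have : (S.filter fun z => z < S.min' hS) = ∅ := by
    rw [filter_eq_empty_iff]
    intro v hv
    exact not_lt.2 (min'_le S v hv)
  rw [this, card_empty]
  omega

theorem first_one (h : Wld G τ L U) (hz : z ∈ Zr G τ U)
    (hmin : ∀ z' ∈ Zr G τ U, Mo G {z} (Bg G τ U) ≤ Mo G {z'} (Bg G τ U)) (hw : w ∈ S1 G τ U)
    (hD : Mo G {z} (Bg G τ U) = 1) (ha : 4 ≤ al G U w)
    (hX : ((Xn G (Zr G τ U) w).card : ℤ) = al G U w) :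
    ∃ c ∈ Zp G τ U z, G.Adj w c ∧ (∀ v ∈ Zp G τ U z, G.Adj w v → c ≤ v) ∧
      Mo G {c} (Bg G τ U) = 1 ∧ ∃ v ∈ Xn G (Zr G τ U) w, ¬ G.Adj c v := by
  classical
  obtain ⟨q, hq⟩ : ∃ q : ℕ, (q : ℤ) = al G U w / 2 := ⟨(al G U w / 2).toNat, by omega⟩
  have hA := claimA h hz hmin hw
  rw [hD, ← hq, hX] at hA
  have hq2 : 2 * (q : ℤ) = al G U w := by omega
  rcases le_or_gt ((Zp G τ U z).filter fun v => G.Adj w v).card q with hc | hc
  · exfalso
    have h1 := CA_few h hz hmin hw rfl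
    have h2 : (((Zp G τ U z).filter fun v => G.Adj w v).card : ℤ) ≤ q := by exact_mod_cast hc
    rw [hD, hX] at h1
    linarith
  · have h1 := CA_many h hz hmin hw hc.le hq
    have h3 : ((cT G τ U z w q).card : ℤ) ≤ q := by exact_mod_cast h1
    have hJc : (cJ G τ U z w q).card = q := (cJ_props U).2.2 hc.le
    have h2 := CA_miss (w := w) h hz (t := q)
    have hle : ∀ j ∈ cJ G τ U z w q, Mo G {j} (Xn G (Zr G τ U) w) ≤ 1 := fun j hj => by
      have := CA_mo_T (w := w) h hz ((cJ_props U).1 hj)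
      rw [hD] at this
      exact this.1.trans this.2
    have hone : ∀ j ∈ cJ G τ U z w q, Mo G {j} (Xn G (Zr G τ U) w) = 1 := by
      have hsum : ∑ j ∈ cJ G τ U z w q, Mo G {j} (Xn G (Zr G τ U) w) =
          ∑ j ∈ cJ G τ U z w q, (1 : ℤ) := by
        refine le_antisymm (sum_le_sum hle) ?_
        rw [sum_const, nsmul_eq_mul, hJc, mul_one]
        linarith
      exact (sum_eq_sum_iff_of_le hle).1 hsum
    have hq1 : 1 ≤ q := by omega
    obtain ⟨c, hcJ, hcmin⟩ := CA_min_mem (S := (Zp G τ U z).filter fun v => G.Adj w v)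
      (card_pos.1 (by omega)) hq1
    have hcJ' : c ∈ cJ G τ U z w q := hcJ
    have hcZ := (cJ_props U).1 hcJ'
    refine ⟨c, hcZ, (cJ_props U).2.1 c hcJ', fun v hv hwv => hcmin v (mem_filter.2 ⟨hv, hwv⟩), ?_, ?_⟩
    · have h4 := CA_mo_T (w := w) h hz hcZ
      rw [hone c hcJ', hD] at h4
      exact le_antisymm h4.2 h4.1
    · by_contra hcon
      push Not at hcon
      have h5 : Mo G {c} (Xn G (Zr G τ U) w) = 0 := by
        refine Mo_eq_zero G fun a ha' b hb _ => ?_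
        rw [mem_singleton] at ha'
        rw [ha']
        exact hcon b hb
      rw [hone c hcJ'] at h5
      exact one_ne_zero h5

end Pool.Agent.helper31.JBX
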