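import Pool.Agent.helper31.JBX.Syn

/-!
# JBX-Cns: the semantics of `pCo`

`w.length = n * n` (`h.len`), `NT` etc.: `val_NT`, `val_degT`, `val_tauT` (`JB/AlgT2`, `AlgT`), arrays: `fs_upd`,
`nm_fs`, complement `AlgC_compl`, copy `AlgC_copy` (`JB/AlgC`).

* `val_bigT`: `v` is big: `N X Xᶜ - 2 τ - 1 ≤ N {v} univ` (array 0 is `univ`).
* `fs_pPB`: array `a` is `PB G τ X`.
* `val_potT`: `pot` (`N (PB) (PB) ≤ n * n`, so the truncated subtraction is exact; `τ + 1 ≤ E X ↔
  2 * τ + 1 < N X X` by `two_E`).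
* `co_run`: arrays 1 and 2 after `pCo`.
* `sr_piece`: `co_run` after `p`; split on the two conditions.
-/

set_option autoImplicit false

open Finset

namespace Pool.Agent.helper31.JBX

open Pool.Agent.helper81.JB
open Pool.Agent.helper81.LC (Tm Pr val run b2n down outp)
open Function (update)

variable {n : ℕ} {G : SimpleGraph (Fin n)} {w : List Bool} {ρ : Fin 20 → ℕ}
  {A : Fin 16 → ℕ → Bool}

theorem val_bigT (h : Enc G w) (hA : Iv n A) {x xc : Fin 16} (hx : fs n A xc = (fs n A x)ᶜ)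
    {v : Fin n} (hv : ρ 16 = v.val) :
    0 < val w A ρ (bigT x xc) ↔
      N G (fs n A x) (fs n A x)ᶜ - 2 * (ρ 0 : ℤ) - 1 ≤ N G {v} univ := by
  have v1 := val_NT h (ρ := ρ) (hA.sup x) (hA.sup xc)
  have v2 := val_degT h (ρ := ρ) (hA.sup 0) (x := vr 16) (i := v) (fun y => by
    show update ρ 18 y 16 = v.val
    rw [Function.update_of_ne (by decide), hv])
  rw [hx] at v1
  rw [hA.all] at v2
  have v3 : val w A ρ (tauT (.num 0)) = 2 * (0 + ρ 0) + 1 := val_tauT _
  have v4 : val w A ρ (bigT x xc) = if val w A ρ (NT x xc) <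
      val w A ρ (degT (vr 16) 0) + (val w A ρ (tauT (.num 0)) + 1) then 1 else 0 := rfl
  rw [v4, v3, ← v1, ← v2]
  split_ifs with hc
  · constructor
    · intro _
      omega
    · intro _
      exact one_pos
  · constructor
    · intro h0
      exact absurd h0 (lt_irrefl _)
    · intro h0
      omega

theorem fs_pPB (h : Enc G w) (hA : Iv n A) {a x xc : Fin 16} (hx : fs n A xc = (fs n A x)ᶜ) :
    fs n (run w (pPB a x xc) ρ A) a = PB G (ρ 0) (fs n A x) := by
  have h1 : fs n (run w (pPB a x xc) ρ A) a = univ.filter fun v =>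
      0 < val w A (update ρ 16 v.val) (.mul (.arr x (vr 16)) (bigT x xc)) := fs_upd h a 16 _
  rw [h1]
  ext v
  unfold PB
  rw [mem_filter, mem_filter]
  have hv : val w A (update ρ 16 v.val) (vr 16) = v.val := by
    show update ρ 16 v.val 16 = v.val
    exact Function.update_self _ _ _
  have e1 : val w A (update ρ 16 v.val) (.mul (.arr x (vr 16)) (bigT x xc)) =
      val w A (update ρ 16 v.val) (.arr x (vr 16)) * val w A (update ρ 16 v.val) (bigT x xc) := rfl
  have e2 := val_bigT (ρ := update ρ 16 v.val) h hA hx (v := v) (Function.update_self _ _ _)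
  rw [Function.update_of_ne (show (0 : Fin 20) ≠ 16 by decide)] at e2
  rw [e1, val_arr h hv, ← e2]
  by_cases hb : v ∈ fs n A x <;> simp [hb]

theorem Cns_N_le (S : Finset (Fin n)) : N G S S ≤ (n : ℤ) * n := by
  have h1 : ∀ a ∈ S, N G {a} S ≤ (n : ℤ) := by
    intro a _
    refine (N_le_card G S).trans ?_
    have : S.card ≤ n := by
      have := Finset.card_le_univ S
      rwa [Fintype.card_fin] at this
    exact_mod_cast this
  rw [N_sum]
  refine (Finset.sum_le_sum h1).trans ?_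
  rw [Finset.sum_const, nsmul_eq_mul]
  have h2 : (S.card : ℤ) ≤ n := by
    have := Finset.card_le_univ S
    rw [Fintype.card_fin] at this
    exact_mod_cast this
  exact mul_le_mul_of_nonneg_right h2 (Int.natCast_nonneg n)

theorem val_potT (h : Enc G w) (hA : Iv n A) {x xc b : Fin 16} (hx : fs n A xc = (fs n A x)ᶜ)
    (hb : fs n A b = PB G (ρ 0) (fs n A x)) :
    ((val w A ρ (potT x xc b) : ℕ) : ℤ) = pot G (ρ 0) (fs n A x) := by
  have v1 := val_NT h (ρ := ρ) (hA.sup x) (hA.sup xc)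
  have v2 := val_NT h (ρ := ρ) (hA.sup x) (hA.sup x)
  have v3 := val_NT h (ρ := ρ) (hA.sup b) (hA.sup b)
  rw [hx] at v1
  rw [hb] at v3
  have v4 : val w A ρ (tauT (.num 0)) = 2 * (0 + ρ 0) + 1 := val_tauT _
  have v5 : val w A ρ (potT x xc b) =
      ((2 * val w A ρ (NT x xc) +
        (if val w A ρ (tauT (.num 0)) < val w A ρ (NT x x) then 1 else 0)) * w.length +
        (w.length - val w A ρ (NT b b))) * w.length + val w A ρ (NT x x) := rfl
  have v6 : val w A ρ (NT b b) ≤ n * n := by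
    have := Cns_N_le (G := G) (PB G (ρ 0) (fs n A x))
    rw [← v3] at this
    exact_mod_cast this
  have v7 := two_E G (fs n A x)
  rw [v5, v4, h.len]
  unfold pot
  rw [← v1, ← v2, ← v3]
  push_cast [Nat.cast_sub v6]
  congr 5
  rw [← v2] at v7
  by_cases hc : 2 * (0 + ρ 0) + 1 < val w A ρ (NT x x)
  · rw [if_pos hc, if_pos (by omega)]
  · rw [if_neg hc, if_neg (by omega)]

theorem Cns_compl (h : Enc G w) (hA : Iv n A) (a b : Fin 16) :
    fs n (run w (pCp a b) ρ A) a = (fs n A b)ᶜ :=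
  (AlgC_compl h hA.all (hA.sup 0) a b).1

theorem co_run (h : Enc G w) (hA : Iv n A) : Iv n (run w pCo ρ A) ∧
    (fs n (run w pCo ρ A) 1 =
      if pot G (ρ 0) (fs n A 1) < pot G (ρ 0) (fs n A 12) then fs n A 12 else fs n A 1) ∧
    (good G (ρ 0) (fs n A 12) → fs n (run w pCo ρ A) 2 = fs n A 12) ∧
    (¬ good G (ρ 0) (fs n A 12) → fs n (run w pCo ρ A) 2 = fs n A 2) := by
  classical
  -- the stages
  set A1 := run w (pCp 13 12) ρ A with hA1
  set A2 := run w (.ite (.mul (.lt (NT 12 12) (tauT (.num 0))) (.lt (NT 13 13) (tauT (.num 0))))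
    (.upd 2 16 (.arr 12 (vr 16))) .skip : P) ρ A1 with hA2
  set A3 := run w (pCp 11 1) ρ A2 with hA3
  set A4 := run w (pPB 10 1 11) ρ A3 with hA4
  set A5 := run w (pPB 14 12 13) ρ A4 with hA5
  set A6 := run w (.ite (.lt (potT 1 11 10) (potT 12 13 14)) (.upd 1 16 (.arr 12 (vr 16))) .skip : P)
    ρ A5 with hA6
  have hrun : run w pCo ρ A = A6 := rfl
  rw [hrun]
  -- stage 1
  have i1 : Iv n A1 := iv_run _ rfl rfl ρ hA
  have e13 : fs n A1 13 = (fs n A 12)ᶜ := Cns_compl h hA 13 12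
  have n1 : ∀ b : Fin 16, b ≠ 13 → fs n A1 b = fs n A b := fun b hb => fs_upd_ne hb _ _
  -- stage 2
  have c2 : (0 < val w A1 ρ (.mul (.lt (NT 12 12) (tauT (.num 0)))
      (.lt (NT 13 13) (tauT (.num 0))) : T)) ↔ good G (ρ 0) (fs n A 12) := by
    have v1 := val_NT h (ρ := ρ) (i1.sup 12) (i1.sup 12)
    have v2 := val_NT h (ρ := ρ) (i1.sup 13) (i1.sup 13)
    rw [n1 12 (by decide), ← two_E] at v1
    rw [e13, ← two_E] at v2
    have v3 : val w A1 ρ (tauT (.num 0)) = 2 * (0 + ρ 0) + 1 := val_tauT _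
    have v4 : val w A1 ρ (.mul (.lt (NT 12 12) (tauT (.num 0)))
        (.lt (NT 13 13) (tauT (.num 0))) : T) =
        (if val w A1 ρ (NT 12 12) < val w A1 ρ (tauT (.num 0)) then 1 else 0) *
        (if val w A1 ρ (NT 13 13) < val w A1 ρ (tauT (.num 0)) then 1 else 0) := rfl
    rw [v4, v3]
    unfold good
    by_cases q1 : val w A1 ρ (NT 12 12) < 2 * (0 + ρ 0) + 1 <;>
      by_cases q2 : val w A1 ρ (NT 13 13) < 2 * (0 + ρ 0) + 1
    · simp only [q1, q2, if_true, mul_one, Nat.lt_one_iff, zero_lt_one, true_iff]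
      constructor <;> omega
    · simp only [q1, q2, if_true, if_false, mul_zero, lt_irrefl, false_iff, not_and]
      intro _
      omega
    · simp only [q1, q2, if_true, if_false, zero_mul, lt_irrefl, false_iff, not_and]
      intro hq
      omega
    · simp only [q1, q2, if_false, mul_zero, lt_irrefl, false_iff, not_and]
      intro hq
      omega
  have r2 : A2 = if 0 < val w A1 ρ (.mul (.lt (NT 12 12) (tauT (.num 0)))
      (.lt (NT 13 13) (tauT (.num 0))) : T) then run w (.upd 2 16 (.arr 12 (vr 16)) : P) ρ A1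
      else A1 := rfl
  have i2 : Iv n A2 := iv_run _ rfl rfl ρ i1
  have e2 : fs n A2 2 = if good G (ρ 0) (fs n A 12) then fs n A 12 else fs n A 2 := by
    rw [r2]
    by_cases hg : good G (ρ 0) (fs n A 12)
    · rw [if_pos (c2.2 hg), if_pos hg, (AlgC_copy h (ρ := ρ) 2 (i1.sup 12)).1,
        n1 12 (by decide)]
    · rw [if_neg (fun hc => hg (c2.1 hc)), if_neg hg, n1 2 (by decide)]
  have n2 : ∀ b : Fin 16, b ≠ 2 → fs n A2 b = fs n A1 b := by
    intro b hb
    rw [r2]
    split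
    · exact fs_upd_ne hb _ _
    · rfl
  -- stage 3
  have i3 : Iv n A3 := iv_run _ rfl rfl ρ i2
  have e11 : fs n A3 11 = (fs n A2 1)ᶜ := Cns_compl h i2 11 1
  have n3 : ∀ b : Fin 16, b ≠ 11 → fs n A3 b = fs n A2 b := fun b hb => fs_upd_ne hb _ _
  -- stage 4
  have i4 : Iv n A4 := iv_run _ rfl rfl ρ i3
  have e10 : fs n A4 10 = PB G (ρ 0) (fs n A3 1) := fs_pPB h i3 (by
    rw [e11, n3 1 (by decide)])
  have n4 : ∀ b : Fin 16, b ≠ 10 → fs n A4 b = fs n A3 b := fun b hb => fs_upd_ne hb _ _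
  -- stage 5
  have i5 : Iv n A5 := iv_run _ rfl rfl ρ i4
  have e14 : fs n A5 14 = PB G (ρ 0) (fs n A4 12) := fs_pPB h i4 (by
    rw [n4 13 (by decide), n3 13 (by decide), n2 13 (by decide), e13, n4 12 (by decide),
      n3 12 (by decide), n2 12 (by decide), n1 12 (by decide)])
  have n5 : ∀ b : Fin 16, b ≠ 14 → fs n A5 b = fs n A4 b := fun b hb => fs_upd_ne hb _ _
  -- the arrays before stage 6
  have g1 : fs n A5 1 = fs n A 1 := by
    rw [n5 1 (by decide), n4 1 (by decide), n3 1 (by decide), n2 1 (by decide), n1 1 (by decide)]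
  have g12 : fs n A5 12 = fs n A 12 := by
    rw [n5 12 (by decide), n4 12 (by decide), n3 12 (by decide), n2 12 (by decide),
      n1 12 (by decide)]
  have g11 : fs n A5 11 = (fs n A5 1)ᶜ := by
    rw [n5 11 (by decide), n4 11 (by decide), e11, g1, n2 1 (by decide), n1 1 (by decide)]
  have g13 : fs n A5 13 = (fs n A5 12)ᶜ := by
    rw [n5 13 (by decide), n4 13 (by decide), n3 13 (by decide), n2 13 (by decide), e13, g12]
  have g10 : fs n A5 10 = PB G (ρ 0) (fs n A5 1) := by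
    rw [n5 10 (by decide), e10, g1, n3 1 (by decide), n2 1 (by decide), n1 1 (by decide)]
  have g14 : fs n A5 14 = PB G (ρ 0) (fs n A5 12) := by
    rw [e14, g12, n4 12 (by decide), n3 12 (by decide), n2 12 (by decide), n1 12 (by decide)]
  -- stage 6
  have c6 : (0 < val w A5 ρ (.lt (potT 1 11 10) (potT 12 13 14) : T)) ↔
      pot G (ρ 0) (fs n A 1) < pot G (ρ 0) (fs n A 12) := by
    have v1 := val_potT h i5 (ρ := ρ) g11 g10
    have v2 := val_potT h i5 (ρ := ρ) g13 g14
    rw [g1] at v1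
    rw [g12] at v2
    have v4 : val w A5 ρ (.lt (potT 1 11 10) (potT 12 13 14) : T) =
        (if val w A5 ρ (potT 1 11 10) < val w A5 ρ (potT 12 13 14) then 1 else 0) := rfl
    rw [v4, ← v1, ← v2]
    by_cases q1 : val w A5 ρ (potT 1 11 10) < val w A5 ρ (potT 12 13 14)
    · simp only [q1, if_true, zero_lt_one, true_iff]
      exact_mod_cast q1
    · simp only [q1, if_false, lt_irrefl, false_iff]
      intro hc
      apply q1
      exact_mod_cast hc
  have r6 : A6 = if 0 < val w A5 ρ (.lt (potT 1 11 10) (potT 12 13 14) : T) then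
      run w (.upd 1 16 (.arr 12 (vr 16)) : P) ρ A5 else A5 := rfl
  have i6 : Iv n A6 := iv_run _ rfl rfl ρ i5
  have e6 : fs n A6 1 =
      if pot G (ρ 0) (fs n A 1) < pot G (ρ 0) (fs n A 12) then fs n A 12 else fs n A 1 := by
    rw [r6]
    by_cases hg : pot G (ρ 0) (fs n A 1) < pot G (ρ 0) (fs n A 12)
    · rw [if_pos (c6.2 hg), if_pos hg, (AlgC_copy h (ρ := ρ) 1 (i5.sup 12)).1, g12]
    · rw [if_neg (fun hc => hg (c6.1 hc)), if_neg hg, g1]
  have n6 : ∀ b : Fin 16, b ≠ 1 → fs n A6 b = fs n A5 b := by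
    intro b hb
    rw [r6]
    split
    · exact fs_upd_ne hb _ _
    · rfl
  have f2 : fs n A6 2 = if good G (ρ 0) (fs n A 12) then fs n A 12 else fs n A 2 := by
    rw [n6 2 (by decide), n5 2 (by decide), n4 2 (by decide), n3 2 (by decide), e2]
  exact ⟨i6, e6, fun hg => by rw [f2, if_pos hg], fun hg => by rw [f2, if_neg hg]⟩

theorem sr_piece (h : Enc G w) {p : P} {Φ : Fam n} (hp : Cm w p Φ) :
    Sr G w (.seq p pCo) Φ := by
  classical
  intro ρ A hA
  obtain ⟨I1, e1, e2, hF⟩ := hp ρ A hA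
  obtain ⟨I2, r1, r2, r3⟩ := co_run h I1 (ρ := ρ)
  have e : run w (.seq p pCo) ρ A = run w pCo ρ (run w p ρ A) := rfl
  rw [e]
  rw [e1] at r1
  rw [e2] at r3
  refine ⟨I2, ?_, ?_, ?_⟩
  · rw [r1]
    split
    · rename_i hlt
      exact hlt.le
    · exact le_rfl
  · intro σ hσ hg
    by_cases hg' : good G (ρ 0) (fs n (run w p ρ A) 12)
    · rw [r2 hg']
      exact good_mono hσ hg'
    · rw [r3 hg']
      exact hg
  · intro hle
    rw [r1] at hle
    have hnlt : ¬ pot G (ρ 0) (fs n A 1) < pot G (ρ 0) (fs n (run w p ρ A) 12) := by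
      intro hlt
      rw [if_pos hlt] at hle
      exact absurd hlt (not_lt.2 hle)
    rw [if_neg hnlt] at r1
    refine ⟨r1, fun F hΦ => ?_⟩
    have h12 := hF F hΦ
    rw [h12] at hnlt r2
    refine ⟨not_lt.1 hnlt, fun hg => ?_⟩
    rw [r2 hg]
    exact hg

end Pool.Agent.helper31.JBX
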