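import Pool.Agent.helper31.JBX.Ba

/-!
# JBX-Un: universal zero vertices

`x = E G W - τ`, `y = τ - E G Wᶜ`, `B = Bg G τ W`, `S = W \ B`.
`hn`: every `w ∈ S1` has at most `al w / 2` nonneighbours among the zero vertices.

* `two_sum_mo`: `sum_mo_zr` and `hn`.
* `uni_card`: the number of `z ∈ Zr` with `Mo {z} B ≥ 1` is at most `∑_{Zr} Mo {z} B = ∑_{S1} |Xn w| ≤
  ∑_{S1} (al w - 1)` (`al w ≥ 1` on `S1`; if `|Xn w| ≥ 1` then `|Xn w| ≤ al w / 2 ≤ al w - 1`); `zr_card2`.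
* `zU_card`: the number of `z ∈ B` with `N {z} S ≥ 1` is at most `N B S`; `small_out`:
  `∑_S al ≥ N S Wᶜ + N B S - 2 (x - 1)`.
-/

set_option autoImplicit false

open Finset

namespace Pool.Agent.helper31.JBX

open Pool.Agent.helper81.JB

variable {V : Type} [Fintype V] [DecidableEq V] {G : SimpleGraph V} {τ L : ℤ} {W : Finset V}

theorem Un_card_le (S : Finset V) (f : V → ℤ) (p : V → Prop) [DecidablePred p]
    (hf : ∀ z ∈ S, 0 ≤ f z) (hp : ∀ z ∈ S, p z → 1 ≤ f z) :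
    ((S.filter p).card : ℤ) ≤ ∑ z ∈ S, f z := by
  have h1 : ((S.filter p).card : ℤ) = ∑ z ∈ S.filter p, (1 : ℤ) := by simp
  have h2 : ∑ z ∈ S.filter p, (1 : ℤ) ≤ ∑ z ∈ S.filter p, f z := by
    refine Finset.sum_le_sum fun z hz => ?_
    rw [mem_filter] at hz
    exact hp z hz.1 hz.2
  have h3 : ∑ z ∈ S.filter p, f z ≤ ∑ z ∈ S, f z :=
    Finset.sum_le_sum_of_subset_of_nonneg (filter_subset _ _) fun z hz _ => hf z hz
  linarith

theorem two_sum_mo (h : Stk G τ L W) (hL : -3 ≤ L)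
    (hn : ∀ w ∈ S1 G τ W, 2 * ((Xn G (Zr G τ W) w).card : ℤ) ≤ al G W w) :
    2 * ∑ z ∈ Zr G τ W, Mo G {z} (Bg G τ W) ≤ ∑ w ∈ S1 G τ W, al G W w ∧
      ∑ z ∈ Zr G τ W, Mo G {z} (Bg G τ W) ≤ ∑ w ∈ S1 G τ W, (al G W w - 1) := by
  rw [sum_mo_zr h hL]
  constructor
  · rw [Finset.mul_sum]
    exact Finset.sum_le_sum hn
  · refine Finset.sum_le_sum fun w hw => ?_
    have h1 := hn w hw
    have h2 := ((mem_S1 h.loc).1 hw).2
    have h3 : (0 : ℤ) ≤ ((Xn G (Zr G τ W) w).card : ℤ) := Int.natCast_nonneg _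
    omega

open Classical in
theorem uni_card (h : Stk G τ L W) (hL : -3 ≤ L)
    (hn : ∀ w ∈ S1 G τ W, 2 * ((Xn G (Zr G τ W) w).card : ℤ) ≤ al G W w) :
    3 * (E G W - τ) + L + 2 + ((Bg G τ W).card - (τ - E G Wᶜ) - 2) +
      ∑ v ∈ W \ Bg G τ W, al G W v ≤
        (((Zr G τ W).filter fun z => Mo G {z} (Bg G τ W) = 0).card : ℤ) := by
  have h1 := zr_card2 h
  have h2 := (two_sum_mo h hL hn).2
  have h3 := Un_card_le (Zr G τ W) (fun z => Mo G {z} (Bg G τ W))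
    (fun z => ¬ Mo G {z} (Bg G τ W) = 0) (fun z _ => Mo_nonneg G _ _) (fun z _ hz => by
      have := Mo_nonneg G {z} (Bg G τ W)
      omega)
  have h4 := Finset.card_filter_add_card_filter_not (s := Zr G τ W)
    (fun z => Mo G {z} (Bg G τ W) = 0)
  have h5 : (((Zr G τ W).filter fun z => Mo G {z} (Bg G τ W) = 0).card : ℤ) +
      (((Zr G τ W).filter fun z => ¬ Mo G {z} (Bg G τ W) = 0).card : ℤ) =
      ((Zr G τ W).card : ℤ) := by
    exact_mod_cast h4
  linarith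

theorem mem_zU {z : V} : z ∈ zU G τ W ↔ z ∈ Zr G τ W ∧ Mo G {z} (Bg G τ W) = 0 ∧
    N G {z} (W \ Bg G τ W) = 0 := by
  unfold zU
  rw [mem_filter]

theorem zU_card (h : Stk G τ L W) (hL : -3 ≤ L)
    (hn : ∀ w ∈ S1 G τ W, 2 * ((Xn G (Zr G τ W) w).card : ℤ) ≤ al G W w) :
    (E G W - τ) + L + 4 + ((Bg G τ W).card - (τ - E G Wᶜ) - 2) + N G (W \ Bg G τ W) Wᶜ ≤
      ((zU G τ W).card : ℤ) := by
  classical
  have h1 := uni_card h hL hn
  have h2 := small_out h hL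
  set P := (Zr G τ W).filter fun z => Mo G {z} (Bg G τ W) = 0 with hP
  have h3 := Un_card_le P (fun z => N G {z} (W \ Bg G τ W))
    (fun z => ¬ N G {z} (W \ Bg G τ W) = 0) (fun z _ => N_nonneg G _ _) (fun z _ hz => by
      have := N_nonneg G {z} (W \ Bg G τ W)
      omega)
  have h4 := Finset.card_filter_add_card_filter_not (s := P)
    (fun z => N G {z} (W \ Bg G τ W) = 0)
  have h5 : ((P.filter fun z => N G {z} (W \ Bg G τ W) = 0).card : ℤ) +
      ((P.filter fun z => ¬ N G {z} (W \ Bg G τ W) = 0).card : ℤ) = (P.card : ℤ) := by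
    exact_mod_cast h4
  have h6 : P.filter (fun z => N G {z} (W \ Bg G τ W) = 0) = zU G τ W := by
    ext z
    rw [mem_filter, mem_zU, hP, mem_filter]
    tauto
  have h7 : ∑ z ∈ P, N G {z} (W \ Bg G τ W) ≤ N G (Bg G τ W) (W \ Bg G τ W) := by
    rw [N_sum G (Bg G τ W)]
    refine Finset.sum_le_sum_of_subset_of_nonneg ?_ fun z _ _ => N_nonneg G _ _
    exact (filter_subset _ _).trans Zr_subset
  rw [h6] at h5
  linarith

theorem zU_adj {z b : V} (hz : z ∈ zU G τ W) (hb : b ∈ Bg G τ W) (hne : z ≠ b) : G.Adj z b := by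
  by_contra hn
  have h1 := (mem_zU.1 hz).2.1
  rw [Mo_sing_sum] at h1
  have h2 := (Finset.sum_eq_zero_iff_of_nonneg fun c _ => mis_nonneg G z c).1 h1 b hb
  rw [mis_not G hn hne] at h2
  exact one_ne_zero h2

/-- a zero vertex without nonneighbours and without small neighbours has `|B| - 1` neighbours -/
theorem zU_deg (h : Stk G τ L W) {z : V} (hz : z ∈ zU G τ W) :
    N G {z} W = (Bg G τ W).card - 1 := by
  obtain ⟨h1, h2, h3⟩ := mem_zU.1 hz
  have h4 := mo_bg h (Zr_subset h1)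
  rw [h2, h3] at h4
  linarith

end Pool.Agent.helper31.JBX
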