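import Pool.Agent.helper31.JBX.CA
import Pool.Agent.helper31.JBX.Un

/-!
# JBX-DZ: a zero vertex adjacent to all big vertices of its class

`x, y, B, S` as before, `Z = Zr U`, `D = Mo {z} B` minimal, `n_w = |Xn Z w|` for `w ∈ S1`.

* `Zr_nonempty`: `zr_card2`, `bg_card`, `sum_al_nonneg`, `s1_nonneg`: `|Z| ≥ 3 x + L + 2 ≥ 2`.
* `D_zero`: let `z ∈ Z` with minimal `D`, suppose `D ≥ 1`.  `∑_Z Mo {z} B = ∑_{S1} n_w` (`sum_mo_zr`) and it is
  `≥ D |Z|`, `|Z| ≥ 3 x + L + 2 + E + ∑_{S1} (al - 1)` with `E = |B| - y - 2 ≥ 0`.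
  Bounds: `al w ≤ 3`: `n_w ≤ 1` (`claimB`) and for `al w = 1`: `n_w ≤ (1 + D) * 0 = 0` (`claimA`).
  `D ≥ 2`: `n_w ≤ D (al w - 1)` for all `w ∈ S1`: `al w = 1`: `0`; `al w ∈ {2, 3}`: `1`; `al w ≥ 4`:
  `2 n_w ≤ (1 + D) al w ≤ 2 D (al w - 1)` as `D (al w - 2) ≥ 2 (al w - 2) ≥ al w`.  So
  `D |Z| ≤ D ∑ (al - 1) < D |Z|`.
  `D = 1`: `n_w ≤ al w`, and `n_w ≤ al w - 1` unless `n_w = al w ≥ 4`.  Let `Λ` be the set of these `w`.
  `|Z| ≤ ∑ n_w ≤ ∑ (al - 1) + |Λ|`, so `|Λ| ≥ 3 x + L + 2 + E ≥ 2`.  For `w ∈ Λ` let `c_w` be the vertex of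
  `first_one`. Let `w0 ∈ Λ` with `c = c_{w0}` minimal.  `Mo {c} B = 1`, and its only nonneighbour `v` in `B`
  is in `Z`, so `c` is adjacent to all `w ∈ S1`; so for `w ∈ Λ`: `c_w ≤ c` (`c ∈ Zp`, adjacent to `w`) and
  `c ≤ c_w`, so `c_w = c` and `v ∈ Xn Z w` (the only nonneighbour of `c` in `B`).  So `v` is not adjacent
  to all `w ∈ Λ`: `Mo {v} B ≥ |Λ| ≥ 3 x + L + 2 + E`, but `Mo {v} B ≤ E + N {v} S ≤ E + x - 1` (`mo_zr_le`,
  `small_edges`), contradiction.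
* `n_le`: with `D = 0`: `claimA` gives `n_w ≤ al w / 2`.
* `zp_univ`: `ex_D`.
* `exists_zU`: `zU_card` (`≥ x + L + 4 > 0`).
-/

set_option autoImplicit false

open Finset

namespace Pool.Agent.helper31.JBX

open Pool.Agent.helper81.JB

variable {n : ℕ} {G : SimpleGraph (Fin n)} {τ L : ℤ} {U : Finset (Fin n)}

theorem DZ_al_pos (h : Wld G τ L U) {w : Fin n} (hw : w ∈ S1 G τ U) : 1 ≤ al G U w := by
  have h0 := h.s0.loc.one w
  unfold S1 at hw
  rw [mem_sdiff] at hw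
  have h1 : al G U w ≠ 0 := by
    intro h2
    apply hw.2
    unfold Zr
    rw [mem_filter]
    exact ⟨hw.1, h2⟩
  omega

theorem DZ_sub : Zr G τ U ⊆ Bg G τ U := by
  unfold Zr
  exact filter_subset _ _

theorem DZ_x (h : Wld G τ L U) : 1 ≤ E G U - τ := by
  have := h.big
  omega

theorem DZ_card (h : Wld G τ L U) :
    3 * (E G U - τ) + L + 2 + ((Bg G τ U).card - (τ - E G Uᶜ) - 2) +
      ∑ v ∈ S1 G τ U, (al G U v - 1) ≤ ((Zr G τ U).card : ℤ) ∧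
    0 ≤ ((Bg G τ U).card : ℤ) - (τ - E G Uᶜ) - 2 ∧ 0 ≤ ∑ v ∈ S1 G τ U, (al G U v - 1) := by
  have h1 := zr_card2 h.s0
  have h2 := bg_card h.s0 h.hL h.hτ
  have h3 := sum_al_nonneg h.s0 (U \ Bg G τ U)
  have h4 := s1_nonneg h.s0 (S1 G τ U) (Subset.refl _)
  refine ⟨?_, ?_, h4⟩
  · rw [h1]
    linarith
  · linarith

/-- a vertex with `Mo {c} B = 1` has only one nonneighbour in `B` -/
theorem DZ_unique {c : Fin n} {B : Finset (Fin n)} (h : Mo G {c} B = 1) {v v' : Fin n}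
    (hv : v ∈ B) (hv' : v' ∈ B) (hcv : c ≠ v) (hcv' : c ≠ v') (ha : ¬ G.Adj c v)
    (ha' : ¬ G.Adj c v') : v = v' := by
  by_contra hne
  have h1 : Mo G {c} {v, v'} ≤ Mo G {c} B := by
    apply Mo_mono G (Subset.refl _)
    intro u hu
    rw [mem_insert, mem_singleton] at hu
    rcases hu with rfl | rfl
    · exact hv
    · exact hv'
  rw [Mo_sing_sum, sum_pair hne, mis_not G ha hcv, mis_not G ha' hcv', h] at h1
  norm_num at h1

theorem DZ_xn {w : Fin n} {v : Fin n} (hv : v ∈ Xn G (Zr G τ U) w) :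
    v ∈ Zr G τ U ∧ ¬ G.Adj w v := by
  classical
  unfold Xn at hv
  exact mem_filter.1 hv

/-- `Mo {v} B` is at least the number of elements of a set of nonneighbours -/
theorem DZ_mo_ge {v : Fin n} {B Λ : Finset (Fin n)} (hΛ : Λ ⊆ B)
    (h : ∀ w ∈ Λ, v ≠ w ∧ ¬ G.Adj v w) : (Λ.card : ℤ) ≤ Mo G {v} B := by
  have h1 : Mo G {v} Λ ≤ Mo G {v} B := Mo_mono G (Subset.refl _) hΛ
  have h2 : Mo G {v} Λ = Λ.card := by
    rw [Mo_sing_sum, sum_congr rfl fun w hw => mis_not G (h w hw).2 (h w hw).1]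
    simp
  linarith

theorem DZ_zp_notMem (h : Wld G τ L U) {z v : Fin n} (hz : z ∈ Zr G τ U)
    (hv : v ∈ Zp G τ U z) : v ∉ U :=
  (zp_props h.s0 (h.s1 hz) h.hL hz hv).1

/-- the bound for the sum of the numbers of nonneighbours -/
theorem DZ_sum (h : Wld G τ L U) {z : Fin n}
    (hmin : ∀ z' ∈ Zr G τ U, Mo G {z} (Bg G τ U) ≤ Mo G {z'} (Bg G τ U)) :
    Mo G {z} (Bg G τ U) * ((Zr G τ U).card : ℤ) ≤
      ∑ w ∈ S1 G τ U, ((Xn G (Zr G τ U) w).card : ℤ) := by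
  rw [← sum_mo_zr h.s0 h.hL]
  have h1 : ∑ _z' ∈ Zr G τ U, Mo G {z} (Bg G τ U) ≤ ∑ z' ∈ Zr G τ U, Mo G {z'} (Bg G τ U) :=
    sum_le_sum hmin
  rw [sum_const, nsmul_eq_mul, mul_comm] at h1
  exact h1

theorem DZ_two (h : Wld G τ L U) {z : Fin n} (hz : z ∈ Zr G τ U)
    (hmin : ∀ z' ∈ Zr G τ U, Mo G {z} (Bg G τ U) ≤ Mo G {z'} (Bg G τ U))
    (hD : 2 ≤ Mo G {z} (Bg G τ U)) : False := by
  have hx := DZ_x h
  obtain ⟨hc1, hc2, hc3⟩ := DZ_card h
  have hL := h.hL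
  set D := Mo G {z} (Bg G τ U) with hDd
  have h1 : ∀ w ∈ S1 G τ U, ((Xn G (Zr G τ U) w).card : ℤ) ≤ D * (al G U w - 1) := by
    intro w hw
    have ha := DZ_al_pos h hw
    have h2 := claimA h hz hmin hw
    rw [← hDd] at h2
    rcases lt_or_ge (al G U w) 4 with h4 | h4
    · rcases lt_or_ge (al G U w) 2 with h5 | h5
      · have h6 : al G U w = 1 := by omega
        rw [h6] at h2 ⊢
        have h7 : (1 + D) * ((1 : ℤ) / 2) = 0 := by
          rw [show (1 : ℤ) / 2 = 0 by norm_num, mul_zero]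
        rw [h7] at h2
        rw [sub_self, mul_zero]
        exact h2
      · have h6 := claimB h hw (by omega)
        have h7 : ((Xn G (Zr G τ U) w).card : ℤ) ≤ 1 := by exact_mod_cast h6
        nlinarith
    · have h5 : al G U w / 2 * 2 ≤ al G U w := by omega
      have h6 : 2 * ((Xn G (Zr G τ U) w).card : ℤ) ≤ (1 + D) * al G U w := by
        nlinarith
      nlinarith
  have h2 := (DZ_sum h hmin).trans (sum_le_sum h1)
  rw [← mul_sum, ← hDd] at h2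
  have h3 : ((Zr G τ U).card : ℤ) ≤ ∑ w ∈ S1 G τ U, (al G U w - 1) :=
    le_of_mul_le_mul_left h2 (by omega)
  linarith

theorem DZ_one (h : Wld G τ L U) {z : Fin n} (hz : z ∈ Zr G τ U)
    (hmin : ∀ z' ∈ Zr G τ U, Mo G {z} (Bg G τ U) ≤ Mo G {z'} (Bg G τ U))
    (hD : Mo G {z} (Bg G τ U) = 1) : False := by
  classical
  have hx := DZ_x h
  obtain ⟨hc1, hc2, hc3⟩ := DZ_card h
  have hL := h.hL
  set Λ := (S1 G τ U).filter fun w => ((Xn G (Zr G τ U) w).card : ℤ) = al G U w with hΛ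
  -- elements of `Λ`
  have h4 : ∀ w ∈ S1 G τ U, ((Xn G (Zr G τ U) w).card : ℤ) ≤ al G U w ∧
      (((Xn G (Zr G τ U) w).card : ℤ) = al G U w → 4 ≤ al G U w) := by
    intro w hw
    have ha := DZ_al_pos h hw
    have h2 := claimA h hz hmin hw
    rw [hD] at h2
    refine ⟨by omega, fun h5 => ?_⟩
    by_contra h6
    have h7 := claimB h hw (by omega)
    have h8 : ((Xn G (Zr G τ U) w).card : ℤ) ≤ 1 := by exact_mod_cast h7
    have h9 : al G U w = 1 := by omega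
    rw [h9] at h2 h5
    have h10 : (1 + 1) * ((1 : ℤ) / 2) = 0 := by norm_num
    rw [h10] at h2
    omega
  have h5 : ∑ w ∈ S1 G τ U, ((Xn G (Zr G τ U) w).card : ℤ) ≤
      ∑ w ∈ S1 G τ U, (al G U w - 1) + Λ.card := by
    have h6 : (Λ.card : ℤ) = ∑ w ∈ S1 G τ U,
        if ((Xn G (Zr G τ U) w).card : ℤ) = al G U w then (1 : ℤ) else 0 := by
      rw [hΛ, ← sum_filter, sum_const, nsmul_eq_mul, mul_one]
    rw [h6, ← sum_add_distrib]
    apply sum_le_sum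
    intro w hw
    have h7 := (h4 w hw).1
    split_ifs with h8
    · omega
    · omega
  have h6 := DZ_sum h hmin
  rw [hD, one_mul] at h6
  have h7 : 3 * (E G U - τ) + L + 2 + ((Bg G τ U).card - (τ - E G Uᶜ) - 2) ≤ (Λ.card : ℤ) := by
    linarith
  have hne : Λ.Nonempty := by
    rw [← card_pos]
    have : (0 : ℤ) < Λ.card := by linarith
    exact_mod_cast this
  -- the vertices `c_w`
  have h8 : ∀ w ∈ Λ, ∃ c ∈ Zp G τ U z, G.Adj w c ∧ (∀ v ∈ Zp G τ U z, G.Adj w v → c ≤ v) ∧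
      Mo G {c} (Bg G τ U) = 1 ∧ ∃ v ∈ Xn G (Zr G τ U) w, ¬ G.Adj c v := by
    intro w hw
    rw [hΛ, mem_filter] at hw
    exact first_one h hz hmin hw.1 hD ((h4 w hw.1).2 hw.2) hw.2
  choose! f hf using h8
  obtain ⟨w0, hw0, hw0m⟩ := exists_min_image Λ f hne
  obtain ⟨hc, hc', -, hcM, v, hv, hcv⟩ := hf w0 hw0
  have hcU := DZ_zp_notMem h hz hc
  have hvZ := (DZ_xn hv).1
  have hvB := DZ_sub hvZ
  have hBU : Bg G τ U ⊆ U := by unfold Bg; exact filter_subset _ _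
  have hcB : ∀ u ∈ Bg G τ U, f w0 ≠ u := fun u hu he => hcU (he ▸ hBU hu)
  have hΛS : Λ ⊆ S1 G τ U := filter_subset _ _
  have hSB : S1 G τ U ⊆ Bg G τ U := by unfold S1; exact sdiff_subset
  have h9 : ∀ w ∈ Λ, v ≠ w ∧ ¬ G.Adj v w := by
    intro w hw
    have hwB := hSB (hΛS hw)
    have hwv : v ≠ w := by
      intro he
      have h10 := hΛS hw
      unfold S1 at h10
      rw [mem_sdiff] at h10
      exact h10.2 (he ▸ hvZ)
    refine ⟨hwv, ?_⟩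
    -- `c` is adjacent to `w`
    have hcw : G.Adj (f w0) w := by
      by_contra h10
      exact hwv (DZ_unique hcM hvB hwB (hcB v hvB) (hcB w hwB) hcv h10)
    obtain ⟨hc1, hc1', hc1m, hc1M, v1, hv1, hcv1⟩ := hf w hw
    have h10 : f w = f w0 := le_antisymm (hc1m _ hc hcw.symm) (hw0m w hw)
    rw [h10] at hcv1
    have hv1Z := (DZ_xn hv1).1
    have hv1B := DZ_sub hv1Z
    have h11 : v = v1 := DZ_unique hcM hvB hv1B (hcB v hvB) (hcB v1 hv1B) hcv hcv1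
    intro h12
    apply (DZ_xn hv1).2
    rw [← h11]
    exact h12.symm
  have h10 := DZ_mo_ge (G := G) (v := v) (hΛS.trans hSB) h9
  have h11 := mo_zr_le h.s0 hvZ
  have h12 := small_edges h.s0 hL
  have h13 : N G {v} (U \ Bg G τ U) ≤ N G (Bg G τ U) (U \ Bg G τ U) :=
    N_mono G (singleton_subset_iff.2 hvB) (Subset.refl _)
  have h14 := E_nonneg G (U \ Bg G τ U)
  linarith

theorem D_zero (h : Wld G τ L U) : ∃ z ∈ Zr G τ U, Mo G {z} (Bg G τ U) = 0 := by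
  have hx := DZ_x h
  obtain ⟨hc1, hc2, hc3⟩ := DZ_card h
  have hL := h.hL
  have hne : (Zr G τ U).Nonempty := by
    rw [← card_pos]
    have : (0 : ℤ) < (Zr G τ U).card := by linarith
    exact_mod_cast this
  obtain ⟨z, hz, hmin⟩ := exists_min_image (Zr G τ U) (fun z => Mo G {z} (Bg G τ U)) hne
  refine ⟨z, hz, ?_⟩
  have h0 := Mo_nonneg G {z} (Bg G τ U)
  by_contra h1
  rcases eq_or_ne (Mo G {z} (Bg G τ U)) 1 with h2 | h2
  · exact DZ_one h hz hmin h2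
  · exact DZ_two h hz hmin (by omega)

theorem n_le (h : Wld G τ L U) : ∀ w ∈ S1 G τ U,
    2 * ((Xn G (Zr G τ U) w).card : ℤ) ≤ al G U w := by
  intro w hw
  obtain ⟨z, hz, hD⟩ := D_zero h
  have h1 := claimA h hz (fun z' _ => by rw [hD]; exact Mo_nonneg G _ _) hw
  rw [hD] at h1
  omega

theorem exists_zU (h : Wld G τ L U) : ∃ z, z ∈ zU G τ U := by
  have hx := DZ_x h
  have hL := h.hL
  obtain ⟨-, hc2, -⟩ := DZ_card h
  have h1 := zU_card h.s0 hL (n_le h)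
  have h2 := N_nonneg G (U \ Bg G τ U) Uᶜ
  have h3 : (zU G τ U).Nonempty := by
    rw [← card_pos]
    have : (0 : ℤ) < (zU G τ U).card := by linarith
    exact_mod_cast this
  exact h3

/-- the vertices of `Zp U z` have no nonneighbours in `B` and no neighbours in `U \ B` -/
theorem zp_univ (h : Wld G τ L U) {z y : Fin n} (hz : z ∈ zU G τ U) (hy : y ∈ Zp G τ U z) :
    Mo G {y} (Bg G τ U) = 0 ∧ N G {y} (U \ Bg G τ U) = 0 := by
  obtain ⟨hz1, hz2, hz3⟩ := mem_zU.1 hz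
  obtain ⟨h1, h2⟩ := ex_D h hz1 hy
  have h3 : Mo G {y} (Bg G τ U) = 0 :=
    le_antisymm (h1.trans hz2.le) (Mo_nonneg G _ _)
  refine ⟨h3, le_antisymm ?_ (N_nonneg G _ _)⟩
  exact (h2 (by rw [h3, hz2])).trans hz3.le

end Pool.Agent.helper31.JBX
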