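import Pool.Agent.helper81.JB.C
import Pool.Agent.helper81.JB.Alg
import Pool.Agent.helper81.JB.AlgS

/-!
# JBX: judicious bipartitions for all numbers of edges (MP_f18503_lc), definitions

Notation for a class `W` (see `JB/Defs.lean`): `x = E G W - τ` (the excess), `y = τ - E G Wᶜ`,
`B = Bg G τ W` (the big vertices of `W`), `Z = Zr G τ W` (the big vertices with `al = 0`), `S1 = B \ Z`,
`W \ B` the small vertices, `s = y - L - x`, so that `N G W Wᶜ = 2 τ + s` and
`∑_{W} al = s - 2 x`, `sw W z = insert z Wᶜ`, `Zp W z = (Zr (sw W z)).erase z`.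

* `thr G τ W v`: `v` is big, expressed by its degree only: `N G W Wᶜ - 2 τ - 1 ≤ N G {v} univ`.
* `PB G τ W`: the big vertices of `W` (equal to `Bg G τ W` if `W` is stuck).
* `cJ, cI, cX`: the chain: `w` in `W` (or any vertex), `t` vertices `J` of `Zp W z` adjacent to `w`
  are exchanged against `t` vertices `I` of `Zr W`, not adjacent to `w` and adjacent to all of `J`.
* `zc G τ W Y`: the exchange of `Y` against universal vertices of `W` leaves at most `τ` edges in `W`:
  `x ≤ φ(Y)`, where `2 φ(Y) = 2 Mo Y B + Mo Y Y - 2 N Y (W \ B)`.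
* `zU, zI, fZ`: the final exchange.
-/

set_option autoImplicit false

open Finset

namespace Pool.Agent.helper31.JBX

open Pool.Agent.helper81.JB

section general
variable {V : Type} [Fintype V] [DecidableEq V]

open Classical in
/-- the big vertices of `X`, by degree -/
noncomputable def PB (G : SimpleGraph V) (τ : ℤ) (X : Finset V) : Finset V :=
  X.filter fun v => N G X Xᶜ - 2 * τ - 1 ≤ N G {v} univ

open Classical in
/-- the big vertices of the other class -/
noncomputable def PC (G : SimpleGraph V) (τ : ℤ) (X : Finset V) : Finset V :=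
  Xᶜ.filter fun v => N G X Xᶜ - 2 * τ - 1 ≤ N G {v} univ

open Classical in
/-- the universal big vertices without small neighbours of `W`, which are zero vertices -/
noncomputable def zU (G : SimpleGraph V) (τ : ℤ) (W : Finset V) : Finset V :=
  (Zr G τ W).filter fun z => Mo G {z} (Bg G τ W) = 0 ∧ N G {z} (W \ Bg G τ W) = 0

/-- twice the gain of the exchange of `Y` -/
noncomputable def ph (G : SimpleGraph V) (τ : ℤ) (W Y : Finset V) : ℤ :=
  2 * Mo G Y (Bg G τ W) + Mo G Y Y - 2 * N G Y (W \ Bg G τ W)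

end general

section fin
variable {n : ℕ}

open Classical in
/-- the vertices which enter in the chain -/
noncomputable def cJ (G : SimpleGraph (Fin n)) (τ : ℤ) (W : Finset (Fin n)) (z w : Fin n) (t : ℕ) :
    Finset (Fin n) :=
  firstk ((Zp G τ W z).filter fun v => G.Adj w v) t

open Classical in
/-- the candidates which leave in the chain -/
noncomputable def cT (G : SimpleGraph (Fin n)) (τ : ℤ) (W : Finset (Fin n)) (z w : Fin n) (t : ℕ) :
    Finset (Fin n) :=
  (Xn G (Zr G τ W) w).filter fun v => ∀ j ∈ cJ G τ W z w t, G.Adj v j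

/-- the chain -/
noncomputable def cX (G : SimpleGraph (Fin n)) (τ : ℤ) (W : Finset (Fin n)) (z w : Fin n) (t : ℕ) :
    Finset (Fin n) :=
  W \ firstk (cT G τ W z w t) t ∪ cJ G τ W z w t

/-- the condition for `Y` -/
def zc (G : SimpleGraph (Fin n)) (τ : ℤ) (W Y : Finset (Fin n)) : Prop :=
  2 * (E G W - τ) ≤ ph G τ W Y

open Classical in
/-- one pass of the removal: try `v = k - 1, …, 0` -/
noncomputable def zr1 (G : SimpleGraph (Fin n)) (τ : ℤ) (W : Finset (Fin n)) :
    ℕ → Finset (Fin n) → Finset (Fin n)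
  | 0, Y => Y
  | k + 1, Y => zr1 G τ W k
      (if (∃ v ∈ Y, v.val = k) ∧ zc G τ W (Y.filter fun v => v.val ≠ k)
        then Y.filter fun v => v.val ≠ k else Y)

/-- `j` passes of the removal -/
noncomputable def zrm (G : SimpleGraph (Fin n)) (τ : ℤ) (W : Finset (Fin n)) :
    ℕ → Finset (Fin n) → Finset (Fin n)
  | 0, Y => Y
  | j + 1, Y => zrm G τ W j (zr1 G τ W (n * n) Y)

/-- the set `Y` of the final exchange -/
noncomputable def zY (G : SimpleGraph (Fin n)) (τ : ℤ) (W : Finset (Fin n)) : Finset (Fin n) :=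
  zrm G τ W (n * n) (PC G τ W)

open Classical in
/-- the candidates for the vertices which leave -/
noncomputable def zT (G : SimpleGraph (Fin n)) (τ : ℤ) (W Y : Finset (Fin n)) : Finset (Fin n) :=
  (zU G τ W).filter fun v => ∀ y ∈ Y, G.Adj v y

/-- the final exchange -/
noncomputable def fZ (G : SimpleGraph (Fin n)) (τ : ℤ) (W : Finset (Fin n)) : Finset (Fin n) :=
  W \ firstk (zT G τ W (zY G τ W)) (zY G τ W).card ∪ zY G τ W

/-- the states considered -/
def Sf (G : SimpleGraph (Fin n)) (τ : ℤ) (U : Finset (Fin n)) : Set (Finset (Fin n)) :=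
  {W | W = U ∨ (∃ z, W = sw U z) ∨ (∃ z y, W = sw (sw U z) y) ∨
    (∃ z w, ∃ t : ℕ, t ≤ n ∧ W = cX G τ U z w t) ∨
    (∃ z w, ∃ t : ℕ, t ≤ n ∧ W = cX G τ (sw U z) z w t)}

/-- the facts about the final state of the local search (which did not find a good set) -/
structure Wld (G : SimpleGraph (Fin n)) (τ L : ℤ) (U : Finset (Fin n)) : Prop where
  hL : -3 ≤ L
  hτ : 0 ≤ τ
  big : τ + 1 ≤ E G U
  st : ∀ W ∈ Sf G τ U, N G W Wᶜ = N G U Uᶜ → τ + 1 ≤ E G W → Stk G τ L W
  ng : ∀ W ∈ Sf G τ U, ¬ good G τ W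
  p1 : ∀ z ∈ U, ∀ y, N G (sw (sw U z) y) (sw (sw U z) y)ᶜ = N G U Uᶜ →
    τ + 1 ≤ E G (sw (sw U z) y) → E G (PB G τ U) ≤ E G (PB G τ (sw (sw U z) y)) ∧
      (E G (PB G τ U) = E G (PB G τ (sw (sw U z) y)) → E G (sw (sw U z) y) ≤ E G U)
  fz : ¬ good G τ (fZ G τ U) ∧ ∀ z, ¬ good G τ (fZ G τ (sw U z))

end fin

end Pool.Agent.helper31.JBX
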