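import Pool.Agent.helper31.JBX.Ba

/-!
# JBX-Sw: moving a zero vertex

`h : Stk G τ L U`, `z ∈ Zr G τ U`, `h1 : Stk G τ L (sw U z)`; `β = N {z} U = N {z} Uᶜ`;
`x = E U - τ`, `y = τ - E Uᶜ`, `x1 = E (sw U z) - τ = β - y`, `y1 = τ - E (sw U z)ᶜ = β - x` (`E_sw`,
`E_sw_compl`).

* `sw_cut`: `cut_eq` for `U` and `sw U z` (the same `tot`).
* `sw_Bg`: `mem_Bg_iff` for `sw U z` (`sw U z = insert z Uᶜ`), `sw_cut`, and `mem_Bg_iff` for `U` at `z`.
* `zp_props`: `v ∈ Zp` is in `Bg (sw U z)`, not `z`, `al (sw U z) v = 0 = al U v - 2 ind z v`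
  (`al_sw_compl`); `z, v` adjacent by `adj01 h1`.
* `partners`: `Uᶜ = (sw U z).erase z` is the disjoint union of `Zp`, `S1 (sw U z)` and `S' = sw U z \ Bg (sw U z)`
  (`z ∈ Zr (sw U z)`). For `w ∈ U`, `w ≠ z`: `w ∈ (sw U z)ᶜ`, so `N {w} S' ≤ N S' (sw U z)ᶜ ≤
  2 (x1 - 1) + ∑_{S'} al (sw U z)` (`small_out h1`), `N {w} (S1 (sw U z)) ≤ |S1 (sw U z)| =
  ∑_{S1} al - ∑_{S1} (al - 1)` and `∑_{S'} al + ∑_{S1} al = ∑_{sw U z} al = y1 - L - 3 x1` (the rest is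
  `0`).  So `N {w} Zp ≥ N {w} Uᶜ - (y1 - L - x1 - 2) + ∑_{S1} (al - 1)`, and `y1 - x1 = y - x`.
-/

set_option autoImplicit false

open Finset

namespace Pool.Agent.helper31.JBX

open Pool.Agent.helper81.JB

variable {V : Type} [Fintype V] [DecidableEq V] {G : SimpleGraph V} {τ L : ℤ} {U : Finset V}
  {z : V}

theorem sw_memU (hz : z ∈ Zr G τ U) : z ∈ U := Bg_subset (Zr_subset hz)

theorem sw_al0 (hz : z ∈ Zr G τ U) : N G {z} Uᶜ = N G {z} U := by
  have h1 := (mem_Zr.1 hz).2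
  rw [al_mem G (sw_memU hz)] at h1
  linarith

theorem sw_x (h : Stk G τ L U) (hz : z ∈ Zr G τ U) :
    E G (sw U z) - τ = N G {z} U - (τ - E G Uᶜ) ∧ τ - E G (sw U z)ᶜ = N G {z} U - (E G U - τ) := by
  have hU := sw_memU hz
  have h0 := sw_al0 hz
  have h1 := E_sw G hU
  have h2 := E_sw_compl G hU
  constructor
  · rw [h1, h0]; ring
  · rw [h2]; ring

theorem sw_big (h : Stk G τ L U) (hz : z ∈ Zr G τ U) : τ + 1 ≤ E G (sw U z) := by
  have h1 := deg_out h (Zr_subset hz)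
  have h2 := E_sw G (sw_memU hz)
  rw [h2]
  linarith

theorem sw_cut (h : Stk G τ L U) (hz : z ∈ Zr G τ U) : N G (sw U z) (sw U z)ᶜ = N G U Uᶜ := by
  have h1 := cut_eq G (U := U) h.tot
  have h2 := cut_eq G (U := sw U z) h.tot
  have h3 := sw_x h hz
  linarith [h3.1, h3.2]

theorem sw_mem (h : Stk G τ L U) (h1 : Stk G τ L (sw U z)) (hL : -3 ≤ L) (hz : z ∈ Zr G τ U) :
    z ∈ Zr G τ (sw U z) := by
  have hU := sw_memU hz
  have ha : al G (sw U z) z = 0 := by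
    rw [al_sw_self G hU, (mem_Zr.1 hz).2, neg_zero]
  refine mem_Zr.2 ⟨?_, ha⟩
  unfold Bg
  rw [Finset.mem_filter]
  refine ⟨mem_sw_self U z, ?_⟩
  have h2 := y_ge h
  have h3 := h.big
  have h4 := (sw_x h hz).1
  rw [al_mem G (mem_sw_self U z), sw_compl, N_erase_right G hU, N_sing, ind_self] at ha
  linarith

theorem sw_Bg (h : Stk G τ L U) (h1 : Stk G τ L (sw U z)) (hL : -3 ≤ L) (hz : z ∈ Zr G τ U) :
    Bg G τ (sw U z) = insert z (PC G τ U) := by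
  have h2 := sw_cut h hz
  ext v
  rw [Finset.mem_insert]
  unfold PC
  rw [Finset.mem_filter]
  constructor
  · intro hv
    have hvs : v ∈ sw U z := Bg_subset hv
    have h3 := (mem_Bg_iff h1 hL hvs).1 hv
    rw [h2] at h3
    rcases Finset.mem_insert.1 hvs with h4 | h4
    · exact Or.inl h4
    · exact Or.inr ⟨h4, h3⟩
  · rintro (h3 | ⟨h3, h4⟩)
    · rw [h3]
      exact Zr_subset (sw_mem h h1 hL hz)
    · have hvs : v ∈ sw U z := Finset.mem_insert_of_mem h3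
      refine (mem_Bg_iff h1 hL hvs).2 ?_
      rw [h2]
      exact h4

theorem zp_props (h : Stk G τ L U) (h1 : Stk G τ L (sw U z)) (hL : -3 ≤ L) (hz : z ∈ Zr G τ U)
    {v : V} (hv : v ∈ Zp G τ U z) :
    v ∉ U ∧ v ∈ PC G τ U ∧ G.Adj z v ∧ al G U v = 2 ∧ v ∈ Zr G τ (sw U z) ∧ v ≠ z := by
  unfold Zp at hv
  obtain ⟨hne, hvZ⟩ := Finset.mem_erase.1 hv
  have hvB := Zr_subset hvZ
  have hvP : v ∈ PC G τ U := by
    rw [sw_Bg h h1 hL hz, Finset.mem_insert] at hvB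
    exact hvB.resolve_left hne
  have hvU : v ∉ U := by
    have : v ∈ Uᶜ := by
      unfold PC at hvP
      exact (Finset.mem_filter.1 hvP).1
    simpa using this
  have hzz := sw_mem h h1 hL hz
  have hadj : G.Adj z v := by
    refine adj01 h1 hL (Zr_subset hzz) (Zr_subset hvZ) hne.symm ?_
    rw [(mem_Zr.1 hzz).2, (mem_Zr.1 hvZ).2]
    norm_num
  have hal : al G U v = 2 := by
    have h2 := al_sw_compl G (sw_memU hz) hvU
    rw [(mem_Zr.1 hvZ).2, ind_adj G hadj] at h2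
    linarith
  exact ⟨hvU, hvP, hadj, hal, hvZ, hne⟩

theorem mem_zp (h : Stk G τ L U) (h1 : Stk G τ L (sw U z)) (hL : -3 ≤ L) (hz : z ∈ Zr G τ U)
    {v : V} (hv : v ∈ PC G τ U) (ha : G.Adj z v) (h2 : al G U v = 2) : v ∈ Zp G τ U z := by
  unfold Zp
  have hvU : v ∉ U := by
    have : v ∈ Uᶜ := by
      unfold PC at hv
      exact (Finset.mem_filter.1 hv).1
    simpa using this
  refine Finset.mem_erase.2 ⟨ha.ne', mem_Zr.2 ⟨?_, ?_⟩⟩
  · rw [sw_Bg h h1 hL hz]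
    exact Finset.mem_insert_of_mem hv
  · rw [al_sw_compl G (sw_memU hz) hvU, h2, ind_adj G ha]
    norm_num

theorem zp_adj (h : Stk G τ L U) (h1 : Stk G τ L (sw U z)) (hL : -3 ≤ L) (hz : z ∈ Zr G τ U)
    {v v' : V} (hv : v ∈ Zp G τ U z) (hv' : v' ∈ Zp G τ U z) (hne : v ≠ v') : G.Adj v v' := by
  have a := (zp_props h h1 hL hz hv).2.2.2.2.1
  have b := (zp_props h h1 hL hz hv').2.2.2.2.1
  refine adj01 h1 hL (Zr_subset a) (Zr_subset b) hne ?_
  rw [(mem_Zr.1 a).2, (mem_Zr.1 b).2]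
  norm_num

/-- `N {v} U = N {v} (U.erase z) + 1` is the common degree of `v` in `sw U z`, plus one -/
theorem zp_deg (h : Stk G τ L U) (h1 : Stk G τ L (sw U z)) (hL : -3 ≤ L) (hz : z ∈ Zr G τ U)
    {v : V} (hv : v ∈ Zp G τ U z) :
    N G {v} (sw U z) = N G {v} U - 1 ∧
      N G {v} U = (Bg G τ U).card - Mo G {v} (Bg G τ U) + N G {v} (U \ Bg G τ U) := by
  obtain ⟨hvU, hvP, hadj, hal, hvZ, hne⟩ := zp_props h h1 hL hz hv
  constructor
  · have h2 := (mem_Zr.1 hvZ).2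
    rw [al_mem G (Bg_subset (Zr_subset hvZ)), sw_compl, N_erase_right G (sw_memU hz), N_sing,
      ind_adj G hadj] at h2
    linarith
  · have h2 := N_sdiff_right G (Bg_subset (G := G) (τ := τ) (U := U)) {v}
    have h3 := N_add_Mo_of_notMem G (w := v) (A := Bg G τ U) (fun h' => hvU (Bg_subset h'))
    linarith

theorem partners (h : Stk G τ L U) (h1 : Stk G τ L (sw U z)) (hL : -3 ≤ L) (hz : z ∈ Zr G τ U)
    {w : V} (hw : w ∈ U) (hwz : w ≠ z) :
    (E G U - τ) + L + 2 - (τ - E G Uᶜ) + N G {w} Uᶜ +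
      ∑ v ∈ S1 G τ (sw U z), (al G (sw U z) v - 1) ≤ N G {w} (Zp G τ U z) := by
  classical
  set W := sw U z with hW
  have hU := sw_memU hz
  have hzW : z ∈ Zr G τ W := sw_mem h h1 hL hz
  have hB : Bg G τ W ⊆ W := Bg_subset
  have hZ : Zr G τ W ⊆ Bg G τ W := Zr_subset
  -- the partition of `W`
  have e1 : N G {w} (W \ Bg G τ W) = N G {w} W - N G {w} (Bg G τ W) := N_sdiff_right G hB _
  have e2 : N G {w} (S1 G τ W) = N G {w} (Bg G τ W) - N G {w} (Zr G τ W) := by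
    unfold S1
    exact N_sdiff_right G hZ _
  have e3 : N G {w} (Zp G τ U z) = N G {w} (Zr G τ W) - N G {z} {w} := by
    unfold Zp
    exact N_erase_right G hzW _
  have e4 : N G {w} W = N G {z} {w} + N G {w} Uᶜ := by
    rw [hW]
    unfold sw
    exact N_insert_right G (by simpa using hU) _
  -- the small vertices
  have hwc : w ∈ Wᶜ := by
    rw [hW, sw_compl]
    exact Finset.mem_erase.2 ⟨hwz, hw⟩
  have e5 : N G {w} (W \ Bg G τ W) ≤ N G (W \ Bg G τ W) Wᶜ := by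
    rw [N_comm G (W \ Bg G τ W)]
    exact N_mono G (Finset.singleton_subset_iff.2 hwc) (Finset.Subset.refl _)
  have e6 := small_out h1 hL
  have e7 := N_nonneg G (Bg G τ W) (W \ Bg G τ W)
  -- `S1`
  have e8 : N G {w} (S1 G τ W) ≤ (S1 G τ W).card := N_le_card G _
  have e9 : ∑ v ∈ S1 G τ W, (al G W v - 1) = ∑ v ∈ S1 G τ W, al G W v - (S1 G τ W).card := by
    rw [Finset.sum_sub_distrib, Finset.sum_const, nsmul_eq_mul, mul_one]
  -- the sum of `al`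
  have f1 : ∑ v ∈ W, al G W v = ∑ v ∈ W \ Bg G τ W, al G W v + ∑ v ∈ Bg G τ W, al G W v :=
    (Finset.sum_sdiff hB).symm
  have f2 : ∑ v ∈ Bg G τ W, al G W v = ∑ v ∈ S1 G τ W, al G W v + ∑ v ∈ Zr G τ W, al G W v := by
    unfold S1
    exact (Finset.sum_sdiff hZ).symm
  have f3 : ∑ v ∈ Zr G τ W, al G W v = 0 := Finset.sum_eq_zero fun v hv => (mem_Zr.1 hv).2
  have f4 := sum_al_U G (U := W) h1.tot
  obtain ⟨g1, g2⟩ := sw_x h hz
  rw [← hW] at g1 g2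
  linarith

end Pool.Agent.helper31.JBX
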