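import Pool.Agent.helper31.JBX.Prog
import Pool.Agent.helper31.JBX.Sw
import Pool.Agent.helper81.JB.AlgR2

/-!
# JBX-Dv: from the optimality of `U` for the family `Fp` to the facts `Wld`

`hU : ∀ F ∈ Fp G τ U, pot G τ F ≤ pot G τ U`, `hb : ∀ F ∈ Fp G τ U, ¬ good G τ F`, `2 ≤ n`.

* `pot_cut`: if `N U Uᶜ < N F Fᶜ` then `pot U < pot F`: with `M = n * n ≥ 4` and `0 ≤ N (PB) (PB) ≤ M`, `0 ≤ N X X < M`
  (`N X X ≤ n (n - 1)`), the first components (before multiplication with `M`) are integers, and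
  `2 N F Fᶜ + ind ≥ 2 N U Uᶜ + ind' + 1`.
* `pot_heavy`: the same cut, `E U ≤ τ`, `τ + 1 ≤ E F`: `pot U < pot F`.
* `pot_ex`: the same cut, both `≥ τ + 1`, `pot F ≤ pot U`: `E (PB U) ≤ E (PB F)`, and if equal `E F ≤ E U`.
* `big`: `U` is not good (`U = f1 n n n n U ∈ Fp`, `U ∈ Sf`).  If `E U ≤ τ` then `E Uᶜ ≥ τ + 1`, `F = Uᶜ` has a larger
  potential (`N_comm`).
* `st`: for `W ∈ Sf` with the same cut and `τ + 1 ≤ E W`: `Stk`: `loc`: `loc_of_flip` (`JB/A2`), `flip_of_le`: for `S ⊆ W`,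
  `R ⊆ Wᶜ`, `|S| + |R| ≤ 3`: `W \ S ∪ R = symmDiff W (S ∪ R) = f1 p q r s W` (`f1_eq` in `JB/AlgR1`), so it is in `Fp`
  and its cut is not larger (`pot_cut`).  `mv`: `W.erase v` is in `Fp`, not good.  `mn`: `f4 G τ W ∈ Fp` is not good;
  see `AlgR2_mn`, `stk_fm` in `JB/AlgR2` (properties of `grd`: `grd_subset`, `grd_le`, `grd_min`).
* `ng`, `p1`, `fz`: immediate (`pot_ex`; `sw (sw U z) y ∈ Sf`).
-/

set_option autoImplicit false

open Finset

namespace Pool.Agent.helper31.JBX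

open Pool.Agent.helper81.JB

variable {n : ℕ} {G : SimpleGraph (Fin n)} {τ L : ℤ} {U F : Finset (Fin n)}

theorem Dv_lt {M A A' b b' a a' : ℤ} (hA : A' + 1 ≤ A) (hb : b < M)
    (hb' : 0 ≤ b') (ha : 0 ≤ a) (ha' : a' < M) (hM : 0 < M) :
    (A' * M + (M - b')) * M + a' < (A * M + (M - b)) * M + a := by
  have h1 : (A' + 1) * M ≤ A * M := mul_le_mul_of_nonneg_right hA hM.le
  have h2 : (A' * M + (M - b')) + 1 ≤ A * M + (M - b) := by linarith
  have h3 := mul_le_mul_of_nonneg_right h2 hM.le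
  linarith

theorem Dv_NXX (hn : 2 ≤ n) (G : SimpleGraph (Fin n)) (X : Finset (Fin n)) :
    N G X X < (n : ℤ) * n := by
  have h1 := N_add_Mo_self G X
  have h2 := Mo_nonneg G X X
  have h3 : (X.card : ℤ) ≤ n := by
    have := Finset.card_le_univ X
    rw [Fintype.card_fin] at this
    exact_mod_cast this
  have h4 : (0 : ℤ) ≤ X.card := by positivity
  have h5 : (2 : ℤ) ≤ n := by exact_mod_cast hn
  nlinarith

theorem Dv_M (hn : 2 ≤ n) : (0 : ℤ) < (n : ℤ) * n := by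
  have h5 : (2 : ℤ) ≤ n := by exact_mod_cast hn
  nlinarith

theorem pot_cut (hn : 2 ≤ n) (h : pot G τ F ≤ pot G τ U) : N G F Fᶜ ≤ N G U Uᶜ := by
  by_contra hcon
  push Not at hcon
  have hA : (2 * N G U Uᶜ + (if τ + 1 ≤ E G U then 1 else 0)) + 1 ≤
      2 * N G F Fᶜ + (if τ + 1 ≤ E G F then 1 else 0) := by
    split_ifs <;> omega
  have h1 := Dv_lt hA (Dv_NXX hn G (PB G τ F)) (N_nonneg G (PB G τ U) (PB G τ U))
    (N_nonneg G F F) (Dv_NXX hn G U) (Dv_M hn)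
  unfold pot at h
  exact absurd h (not_le.2 h1)

theorem pot_heavy (hn : 2 ≤ n) (hc : N G F Fᶜ = N G U Uᶜ) (hU : E G U ≤ τ) (hF : τ + 1 ≤ E G F) :
    pot G τ U < pot G τ F := by
  have hA : (2 * N G U Uᶜ + (if τ + 1 ≤ E G U then 1 else 0)) + 1 ≤
      2 * N G F Fᶜ + (if τ + 1 ≤ E G F then 1 else 0) := by
    rw [if_pos hF, if_neg (by omega), hc]
    omega
  exact Dv_lt hA (Dv_NXX hn G (PB G τ F)) (N_nonneg G (PB G τ U) (PB G τ U))
    (N_nonneg G F F) (Dv_NXX hn G U) (Dv_M hn)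

theorem pot_ex (hn : 2 ≤ n) (hc : N G F Fᶜ = N G U Uᶜ) (hU : τ + 1 ≤ E G U) (hF : τ + 1 ≤ E G F)
    (h : pot G τ F ≤ pot G τ U) : E G (PB G τ U) ≤ E G (PB G τ F) ∧
      (E G (PB G τ U) = E G (PB G τ F) → E G F ≤ E G U) := by
  have e1 := two_E G (PB G τ U)
  have e2 := two_E G (PB G τ F)
  have e3 := two_E G F
  have e4 := two_E G U
  have hM := Dv_M hn
  have ha := Dv_NXX hn G U
  have ha' := N_nonneg G F F
  unfold pot at h
  rw [if_pos hU, if_pos hF, hc] at h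
  constructor
  · by_contra hcon
    push Not at hcon
    have h2 : N G (PB G τ F) (PB G τ F) + 1 ≤ N G (PB G τ U) (PB G τ U) := by omega
    have h3 : ((2 * N G U Uᶜ + 1) * ((n : ℤ) * n) + ((n : ℤ) * n - N G (PB G τ U) (PB G τ U))) + 1 ≤
        (2 * N G U Uᶜ + 1) * ((n : ℤ) * n) + ((n : ℤ) * n - N G (PB G τ F) (PB G τ F)) := by
      linarith
    have h4 := mul_le_mul_of_nonneg_right h3 hM.le
    linarith
  · intro he
    have h2 : N G (PB G τ F) (PB G τ F) = N G (PB G τ U) (PB G τ U) := by omega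
    rw [h2] at h
    omega

theorem Dv_mem0 (hn : 2 ≤ n) {W D : Finset (Fin n)} (hW : W ∈ Sf G τ U) (hD : D.card ≤ 4) :
    symmDiff W D ∈ Fp G τ U := by
  obtain ⟨p, hp, q, hq, r, hr, s, hs, he⟩ := f1_eq hn W D hD
  exact Or.inr (Or.inr (Or.inr ⟨W, hW, Or.inr ⟨p, hp, q, hq, r, hr, s, hs, he.symm⟩⟩))

theorem Dv_mem (hn : 2 ≤ n) {W : Finset (Fin n)} (hW : W ∈ Sf G τ U) : W ∈ Fp G τ U := by
  have h1 := Dv_mem0 hn (D := ∅) hW (by simp)
  have h2 : symmDiff W ∅ = W := by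
    ext v
    simp [mem_symmDiff]
  rwa [h2] at h1

theorem Dv_stk (hn : 2 ≤ n) (tot : N G univ univ = 2 * (4 * τ - L))
    (hU : ∀ F ∈ Fp G τ U, pot G τ F ≤ pot G τ U) (hb : ∀ F ∈ Fp G τ U, ¬ good G τ F)
    {W : Finset (Fin n)} (hW : W ∈ Sf G τ U) (hc : N G W Wᶜ = N G U Uᶜ) (hE : τ + 1 ≤ E G W) :
    Stk G τ L W := by
  refine ⟨loc_of_flip G fun S hS R hR hc3 => ?_, tot, hE, ?_, ?_⟩
  · refine flip_of_le G hS hR ?_
    rw [AlgR1_symm hS hR, hc]
    refine pot_cut hn (hU _ (Dv_mem0 hn hW ?_))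
    have := card_union_le S R
    omega
  · intro v hv h1
    have h2 := hb _ (Dv_mem0 hn (D := {v}) hW (by simp))
    have h3 : symmDiff W {v} = W.erase v := by
      ext z
      simp only [mem_symmDiff, mem_singleton, mem_erase]
      constructor
      · rintro (⟨h4, h5⟩ | ⟨h4, h5⟩)
        · exact ⟨h5, h4⟩
        · exact absurd (h4 ▸ hv) h5
      · rintro ⟨h4, h5⟩
        exact Or.inl ⟨h5, h4⟩
    have h4 : (W.erase v)ᶜ = insert v Wᶜ := by
      ext z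
      simp only [mem_compl, mem_erase, mem_insert, not_and]
      tauto
    by_contra hcon
    apply h2
    rw [h3]
    refine ⟨h1, ?_⟩
    rw [h4]
    omega
  · intro hB
    have hf : ¬ good G τ (f4 G τ W) := hb _ (Or.inr (Or.inr (Or.inr ⟨W, hW, Or.inl rfl⟩)))
    have h0 : E G (W \ (W \ Bg G τ W)) ≤ τ := by
      rw [Finset.sdiff_sdiff_eq_self Bg_subset]
      exact hB
    have h1 := grd_le (n * n) h0
    refine ⟨grd G τ W (n * n) (W \ Bg G τ W), grd_subset _ _, h1, fun v hv => grd_min hv, ?_⟩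
    have h2 : (W \ grd G τ W (n * n) (W \ Bg G τ W))ᶜ =
        Wᶜ ∪ grd G τ W (n * n) (W \ Bg G τ W) := by
      ext z
      simp only [mem_compl, mem_sdiff, mem_union, not_and, not_not]
      tauto
    by_contra hcon
    apply hf
    unfold f4 good
    refine ⟨h1, ?_⟩
    rw [h2]
    omega

theorem wld_of_pot (hn : 2 ≤ n) (hL : -3 ≤ L) (hτ : 0 ≤ τ)
    (tot : N G univ univ = 2 * (4 * τ - L))
    (hU : ∀ F ∈ Fp G τ U, pot G τ F ≤ pot G τ U) (hb : ∀ F ∈ Fp G τ U, ¬ good G τ F) :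
    Wld G τ L U := by
  have hS : U ∈ Sf G τ U := Or.inl rfl
  have big : τ + 1 ≤ E G U := by
    by_contra hcon
    have h1 : E G U ≤ τ := by omega
    have h2 := hb U (Dv_mem hn hS)
    have h3 : τ + 1 ≤ E G Uᶜ := by
      by_contra h4
      exact h2 ⟨h1, by omega⟩
    have h5 : N G Uᶜ Uᶜᶜ = N G U Uᶜ := by
      rw [compl_compl, N_comm]
    have h6 := pot_heavy hn h5 h1 h3
    have h7 := hU Uᶜ (Or.inl rfl)
    exact absurd h7 (not_le.2 h6)
  refine ⟨hL, hτ, big, fun W hW hc hE => Dv_stk hn tot hU hb hW hc hE,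
    fun W hW => hb W (Dv_mem hn hW), ?_, ?_, ?_⟩
  · intro z _ y hc hE
    exact pot_ex hn hc big hE (hU _ (Dv_mem hn (Or.inr (Or.inr (Or.inl ⟨z, y, rfl⟩)))))
  · exact hb _ (Or.inr (Or.inl rfl))
  · intro z
    exact hb _ (Or.inr (Or.inr (Or.inl ⟨z, rfl⟩)))

end Pool.Agent.helper31.JBX
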