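import Pool.Agent.helper31.JBX.Sw

/-!
# JBX-Ex: the exchange of two vertices

`h : Wld G τ L U`.

* `Wld.s1`: `h.st (sw U z)`, `sw_cut`, `sw_big`. `Wld.s2`: the same for `sw U z` instead of `U`
  (`sw_cut`, `sw_big` with `h.s1`).
* `ex_eq`: `sw (sw U z) y = insert y (U.erase z)` for `z ∈ U` (`sw_compl`).
* `ex_D`: for `y ∈ Zp U z` let `F = sw (sw U z) y`; `F` is stuck (`Wld.s2`), `PB F = Bg F`, `PB U = Bg U`
  (`PB_eq`), and `Bg F = insert y ((Bg U).erase z)` (`mem_Bg_iff` for `F`, `U`, and `sw U z` at `y`; the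
  cut is the same).  `E (Bg F) = E (Bg U) - N {z} (Bg U) + N {y} ((Bg U).erase z)
  = E (Bg U) + Mo {z} (Bg U) - Mo {y} (Bg U)` as `y`, `z` are adjacent.  `E F = E U - N {z} U + N {y} U - 1`.
  With `h.p1`.
* `claimB`: suppose `z1 ≠ z2` are in `Xn (Zr U) w` and `al w ≤ 3`.  For `y ∈ PC U` adjacent to `w`:
  `al (sw U z1) y + al (sw U z2) y ≥ 2`.  Indeed `al (sw U zi) y = al U y - 2 ind zi y ≥ 0`.
  If `y` is adjacent to `z1`, `z2` then `al U y ≥ 2` (`loc.two`), and if `al U y = 2` then `y ∈ Zp U z1`,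
  `X = sw (sw U z1) y` is stuck, `z2 ∈ Zr X`, `w ∈ Bg X`, `al X w = al U w - 2 ≤ 1`, so `w`, `z2` are
  adjacent by `adj01`, contradiction; so `al U y ≥ 3`.  If `y` is adjacent to exactly one `zi` then
  `al U y ≥ 2`.  If `y` is not adjacent to `z1`, `z2`: `al U y ≥ 1`, since otherwise `y ∈ Zr (sw U z1)`
  would be adjacent to `z1` (`zr_adj`).
  Sum over the `y ∈ PC U` adjacent to `w`: with `P = PC U`, `S' = Uᶜ \ P`,
  `2 N {w} P ≤ ∑_{P} al (sw U z1) + ∑_{P} al (sw U z2)`, `N {w} S' ≤ N S' (sw U zi)ᶜ ≤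
  2 (x_i - 1) + ∑_{S'} al (sw U zi)` (`small_out`; `sw U zi \ Bg (sw U zi) = S'` by `sw_Bg`), and
  `∑_{Uᶜ} al (sw U zi) ≤ ∑_{sw U zi} al = y_i - L - 3 x_i`, where `x_i - y_i = x - y` (`sw_x`).
  So `2 N {w} Uᶜ ≤ ∑_i (y_i - L - x_i - 2) = 2 (y - x - L - 2)`, but `N {w} Uᶜ ≥ y + 1` (`deg_out`).
-/

set_option autoImplicit false

open Finset

namespace Pool.Agent.helper31.JBX

open Pool.Agent.helper81.JB

variable {n : ℕ} {G : SimpleGraph (Fin n)} {τ L : ℤ} {U : Finset (Fin n)} {z y w : Fin n}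

theorem Wld.s0 (h : Wld G τ L U) : Stk G τ L U :=
  h.st U (Or.inl rfl) rfl h.big

theorem Wld.s1 (h : Wld G τ L U) (hz : z ∈ Zr G τ U) : Stk G τ L (sw U z) :=
  h.st (sw U z) (Or.inr (Or.inl ⟨z, rfl⟩)) (sw_cut h.s0 hz) (sw_big h.s0 hz)

theorem Wld.s2 (h : Wld G τ L U) (hz : z ∈ Zr G τ U) (hy : y ∈ Zr G τ (sw U z)) :
    Stk G τ L (sw (sw U z) y) :=
  h.st (sw (sw U z) y) (Or.inr (Or.inr (Or.inl ⟨z, y, rfl⟩)))
    ((sw_cut (h.s1 hz) hy).trans (sw_cut h.s0 hz)) (sw_big (h.s1 hz) hy)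

theorem ex_eq (U : Finset (Fin n)) (z y : Fin n) : sw (sw U z) y = insert y (U.erase z) := by
  have h1 : sw (sw U z) y = insert y (sw U z)ᶜ := rfl
  rw [h1, sw_compl]

/-- the exchange of `z` and `y`: all that is needed about it -/
theorem ex_facts (h : Wld G τ L U) (hz : z ∈ Zr G τ U) (hy : y ∈ Zp G τ U z) :
    Stk G τ L (sw (sw U z) y) ∧ y ∉ U ∧ y ∈ PC G τ U ∧ G.Adj z y ∧ y ≠ z ∧
      N G (sw (sw U z) y) (sw (sw U z) y)ᶜ = N G U Uᶜ := by
  obtain ⟨h1, h2, h3, -, h5, h6⟩ := zp_props h.s0 (h.s1 hz) h.hL hz hy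
  exact ⟨h.s2 hz h5, h1, h2, h3, h6, (sw_cut (h.s1 hz) h5).trans (sw_cut h.s0 hz)⟩

theorem ex_Bg (h : Wld G τ L U) (hz : z ∈ Zr G τ U) (hy : y ∈ Zp G τ U z) :
    Bg G τ (sw (sw U z) y) = insert y ((Bg G τ U).erase z) := by
  obtain ⟨hs, hyU, hyP, -, -, hcut⟩ := ex_facts h hz hy
  ext v
  have hF : v ∈ sw (sw U z) y ↔ v = y ∨ (v ≠ z ∧ v ∈ U) := by
    rw [ex_eq, mem_insert, mem_erase]
  rw [mem_insert, mem_erase]
  constructor
  · intro hv
    have hvF := Bg_subset hv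
    rcases hF.1 hvF with h1 | ⟨h1, h2⟩
    · exact Or.inl h1
    · refine Or.inr ⟨h1, ?_⟩
      rw [mem_Bg_iff h.s0 h.hL h2, ← hcut]
      exact (mem_Bg_iff hs h.hL hvF).1 hv
  · rintro (rfl | ⟨h1, h2⟩)
    · have hvF := hF.2 (Or.inl rfl)
      rw [mem_Bg_iff hs h.hL hvF, hcut]
      unfold PC at hyP
      exact (mem_filter.1 hyP).2
    · have h3 := Bg_subset h2
      have hvF := hF.2 (Or.inr ⟨h1, h3⟩)
      rw [mem_Bg_iff hs h.hL hvF, hcut]
      exact (mem_Bg_iff h.s0 h.hL h3).1 h2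

theorem ex_D (h : Wld G τ L U) (hz : z ∈ Zr G τ U) (hy : y ∈ Zp G τ U z) :
    Mo G {y} (Bg G τ U) ≤ Mo G {z} (Bg G τ U) ∧
      (Mo G {y} (Bg G τ U) = Mo G {z} (Bg G τ U) →
        N G {y} (U \ Bg G τ U) ≤ N G {z} (U \ Bg G τ U)) := by
  obtain ⟨hs, hyU, hyP, hadj, hne, hcut⟩ := ex_facts h hz hy
  have hzB : z ∈ Bg G τ U := Zr_subset hz
  have hzU : z ∈ U := Bg_subset hzB
  have hyB : y ∉ Bg G τ U := fun hc => hyU (Bg_subset hc)
  have hp := h.p1 z hzU y hcut hs.big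
  rw [PB_eq h.s0 h.hL, PB_eq hs h.hL, ex_Bg h hz hy] at hp
  have e1 : y ∉ (Bg G τ U).erase z := fun hc => hyB (mem_of_mem_erase hc)
  have e2 : y ∉ U.erase z := fun hc => hyU (mem_of_mem_erase hc)
  have i1 : ind G z y = 1 := ind_adj G hadj
  have a1 : E G (insert y ((Bg G τ U).erase z)) =
      E G (Bg G τ U) - N G {z} (Bg G τ U) + (N G {y} (Bg G τ U) - 1) := by
    rw [E_insert G e1, E_erase G hzB, N_erase_right G hzB, N_sing, i1]
  have a2 : E G (sw (sw U z) y) = E G U - N G {z} U + (N G {y} U - 1) := by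
    rw [ex_eq, E_insert G e2, E_erase G hzU, N_erase_right G hzU, N_sing, i1]
  have b1 := N_add_Mo_of_mem G hzB
  have b2 := N_add_Mo_of_notMem G hyB
  have c1 : N G {z} (U \ Bg G τ U) = N G {z} U - N G {z} (Bg G τ U) :=
    N_sdiff_right G Bg_subset {z}
  have c2 : N G {y} (U \ Bg G τ U) = N G {y} U - N G {y} (Bg G τ U) :=
    N_sdiff_right G Bg_subset {y}
  rw [a1, a2] at hp
  obtain ⟨hp1, hp2⟩ := hp
  refine ⟨by linarith, fun heq => ?_⟩
  have h3 := hp2 (by linarith)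
  linarith

/-- for `y` in the other class adjacent to `w` -/
theorem claimB_pt (h : Wld G τ L U) (hw : w ∈ S1 G τ U) (ha : al G U w ≤ 3) {z1 z2 : Fin n}
    (h1 : z1 ∈ Zr G τ U) (h2 : z2 ∈ Zr G τ U) (hne : z1 ≠ z2) (hw1 : ¬ G.Adj w z1)
    (hw2 : ¬ G.Adj w z2) (hy : y ∈ PC G τ U) (hwy : G.Adj w y) :
    2 ≤ al G (sw U z1) y + al G (sw U z2) y := by
  have hyU : y ∉ U := by
    unfold PC at hy
    exact mem_compl.1 (mem_filter.1 hy).1
  have hz1U : z1 ∈ U := Bg_subset (Zr_subset h1)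
  have hz2U : z2 ∈ U := Bg_subset (Zr_subset h2)
  have hwB : w ∈ Bg G τ U := ((mem_S1 h.s0.loc).1 hw).1
  have hwU : w ∈ U := Bg_subset hwB
  have hw1al : 1 ≤ al G U w := ((mem_S1 h.s0.loc).1 hw).2
  have hwz1 : w ≠ z1 := by
    rintro rfl
    have := (mem_Zr.1 h1).2
    linarith
  have hwz2 : w ≠ z2 := by
    rintro rfl
    have := (mem_Zr.1 h2).2
    linarith
  have a1 := al_sw_compl G hz1U hyU
  have a2 := al_sw_compl G hz2U hyU
  have n1 := (h.s1 h1).loc.one y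
  have n2 := (h.s1 h2).loc.one y
  by_cases c1 : G.Adj z1 y
  · by_cases c2 : G.Adj z2 y
    · rw [ind_adj G c1] at a1
      rw [ind_adj G c2] at a2
      have h3 : al G U y ≠ 2 := by
        intro h4
        have hyZ : y ∈ Zp G τ U z1 := mem_zp h.s0 (h.s1 h1) h.hL h1 hy c1 h4
        obtain ⟨hs, -, -, -, -, hcut⟩ := ex_facts h h1 hyZ
        have hB := ex_Bg h h1 hyZ
        have b2 : z2 ∈ Bg G τ (sw (sw U z1) y) := by
          rw [hB]
          exact mem_insert_of_mem (mem_erase.2 ⟨hne.symm, Zr_subset h2⟩)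
        have bw : w ∈ Bg G τ (sw (sw U z1) y) := by
          rw [hB]
          exact mem_insert_of_mem (mem_erase.2 ⟨hwz1, hwB⟩)
        have hysw : y ∈ sw U z1 := mem_insert_of_mem (mem_compl.2 hyU)
        have g2 : z2 ∉ sw U z1 := by
          unfold sw
          rw [mem_insert, mem_compl, not_or, not_not]
          exact ⟨hne.symm, hz2U⟩
        have gw : w ∉ sw U z1 := by
          unfold sw
          rw [mem_insert, mem_compl, not_or, not_not]
          exact ⟨hwz1, hwU⟩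
        have d1 := al_sw_mem G hz1U hz2U hne.symm
        rw [ind_adj G (zr_adj h.s0 h.hL h1 h2 hne), (mem_Zr.1 h2).2] at d1
        have d2 := al_sw_compl G hysw g2
        rw [ind_adj G c2.symm, d1] at d2
        have e1 := al_sw_mem G hz1U hwU hwz1
        rw [ind_not G (fun hc => hw1 hc.symm)] at e1
        have e2 := al_sw_compl G hysw gw
        rw [ind_adj G hwy.symm, e1] at e2
        have hadj := adj01 hs h.hL bw b2 hwz2 (by linarith)
        exact hw2 hadj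
      have h5 : 2 ≤ al G U y := by linarith
      have h6 : 3 ≤ al G U y := by omega
      linarith
    · rw [ind_adj G c1] at a1
      rw [ind_not G c2] at a2
      linarith
  · by_cases c2 : G.Adj z2 y
    · rw [ind_not G c1] at a1
      rw [ind_adj G c2] at a2
      linarith
    · rw [ind_not G c1] at a1
      rw [ind_not G c2] at a2
      have h3 : al G U y ≠ 0 := by
        intro h4
        have m1 : y ∈ Zr G τ (sw U z1) := by
          rw [mem_Zr, sw_Bg h.s0 (h.s1 h1) h.hL h1]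
          exact ⟨mem_insert_of_mem hy, by linarith⟩
        have m2 := sw_mem h.s0 (h.s1 h1) h.hL h1
        refine c1 (zr_adj (h.s1 h1) h.hL m2 m1 ?_)
        rintro rfl
        exact hyU hz1U
      have h5 : 1 ≤ al G U y := by
        have : 0 ≤ al G U y := by linarith
        omega
      linarith

/-- the small vertices of the other class -/
theorem claimB_small (h : Wld G τ L U) (hwU : w ∈ U) (hz : z ∈ Zr G τ U) (hwz : w ≠ z) :
    N G {w} (Uᶜ \ PC G τ U) ≤ 2 * ((E G (sw U z) - τ) - 1) +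
      ∑ v ∈ Uᶜ \ PC G τ U, al G (sw U z) v := by
  have hzU : z ∈ U := Bg_subset (Zr_subset hz)
  have h1 := small_out (h.s1 hz) h.hL
  have h2 : sw U z \ Bg G τ (sw U z) = Uᶜ \ PC G τ U := by
    rw [sw_Bg h.s0 (h.s1 hz) h.hL hz]
    ext v
    unfold sw
    simp only [mem_sdiff, mem_insert, mem_compl, not_or]
    constructor
    · rintro ⟨h3 | h3, h4, h5⟩
      · exact absurd h3 h4
      · exact ⟨h3, h5⟩
    · rintro ⟨h3, h5⟩
      refine ⟨Or.inr h3, ?_, h5⟩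
      rintro rfl
      exact h3 hzU
  rw [h2] at h1
  have h3 : N G {w} (Uᶜ \ PC G τ U) ≤ N G (Uᶜ \ PC G τ U) (sw U z)ᶜ := by
    rw [N_comm G {w}]
    refine N_mono G (Subset.refl _) ?_
    rw [sw_compl, singleton_subset_iff, mem_erase]
    exact ⟨hwz, hwU⟩
  have h4 := N_nonneg G (Bg G τ (sw U z)) (Uᶜ \ PC G τ U)
  linarith

open Classical in
theorem ex_mem_Xn {V : Type} [Fintype V] [DecidableEq V] {G : SimpleGraph V} {Z : Finset V}
    {w v : V} : v ∈ Xn G Z w ↔ v ∈ Z ∧ ¬ G.Adj w v := by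
  unfold Xn
  exact Finset.mem_filter

theorem claimB (h : Wld G τ L U) (hw : w ∈ S1 G τ U) (ha : al G U w ≤ 3) :
    (Xn G (Zr G τ U) w).card ≤ 1 := by
  by_contra hcon
  obtain ⟨z1, hz1, z2, hz2, hne⟩ := Finset.one_lt_card.1 (not_le.1 hcon)
  replace hz1 := ex_mem_Xn.1 hz1
  replace hz2 := ex_mem_Xn.1 hz2
  have hwB : w ∈ Bg G τ U := ((mem_S1 h.s0.loc).1 hw).1
  have hwU : w ∈ U := Bg_subset hwB
  have hw1al : 1 ≤ al G U w := ((mem_S1 h.s0.loc).1 hw).2
  have hwz : ∀ z, z ∈ Zr G τ U → w ≠ z := by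
    rintro z hz rfl
    have := (mem_Zr.1 hz).2
    linarith
  have hPsub : PC G τ U ⊆ Uᶜ := by
    unfold PC
    exact filter_subset _ _
  have hP : 2 * N G {w} (PC G τ U) ≤
      ∑ v ∈ PC G τ U, (al G (sw U z1) v + al G (sw U z2) v) := by
    rw [N_sing_sum, Finset.mul_sum]
    refine Finset.sum_le_sum fun v hv => ?_
    by_cases hwv : G.Adj w v
    · rw [ind_adj G hwv]
      have := claimB_pt h hw ha hz1.1 hz2.1 hne hz1.2 hz2.2 hv hwv
      linarith
    · rw [ind_not G hwv]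
      have n1 := (h.s1 hz1.1).loc.one v
      have n2 := (h.s1 hz2.1).loc.one v
      linarith
  rw [Finset.sum_add_distrib] at hP
  have hS1 := claimB_small h hwU hz1.1 (hwz z1 hz1.1)
  have hS2 := claimB_small h hwU hz2.1 (hwz z2 hz2.1)
  have hsplit : N G {w} (Uᶜ \ PC G τ U) = N G {w} Uᶜ - N G {w} (PC G τ U) :=
    N_sdiff_right G hPsub {w}
  have hsum : ∀ z, z ∈ Zr G τ U → ∑ v ∈ PC G τ U, al G (sw U z) v +
      ∑ v ∈ Uᶜ \ PC G τ U, al G (sw U z) v ≤
      (τ - E G (sw U z)ᶜ) - L - 3 * (E G (sw U z) - τ) := by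
    intro z hz
    rw [← sum_al_U G (h.s1 hz).tot, add_comm, Finset.sum_sdiff hPsub]
    refine Finset.sum_le_sum_of_subset_of_nonneg ?_ fun v _ _ => (h.s1 hz).loc.one v
    exact Finset.subset_insert _ _
  have q1 := hsum z1 hz1.1
  have q2 := hsum z2 hz2.1
  have x1 := sw_x h.s0 hz1.1
  have x2 := sw_x h.s0 hz2.1
  have hd := deg_out h.s0 hwB
  have hb := h.big
  have hL := h.hL
  obtain ⟨x11, x12⟩ := x1
  obtain ⟨x21, x22⟩ := x2
  linarith

end Pool.Agent.helper31.JBX
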