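import Pool.Agent.helper31.JBX.Cns

/-!
# JBX-FzP: the piece `pFz` computes `fZ`

After `pSet` (`run_set`, `SetUp`): array 3 is `W`, 5 `Bg W`, 6 `Zr W`.  Array 13 becomes `Wᶜ`, 10 `PC W`
(`val_bigT`), 14 `W \ Bg W`; the loops of `pRb` compute `zrm (n * n)` (as in `AlgF4_step`, `AlgF4_loop` of
`JB/AlgF4`, two nested loops; `down` of the outer loop is `zrm`); then `zT`, `firstk`, `fZ`.
* `val_MoT`: as `val_NT` (`JB/AlgT2`), with `mis`.
* `val_zcT`: `0 < val (zcT a) ↔ zc G τ W (fs a)`, where `zc` is `2 (E W - τ) ≤ 2 Mo Y B + Mo Y Y - 2 N Y (W \ B)`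
  (`two_E`).
-/

set_option autoImplicit false

open Finset

namespace Pool.Agent.helper31.JBX

open Pool.Agent.helper81.JB
open Pool.Agent.helper81.LC (Tm Pr val run b2n down outp)
open Function (update)

variable {n : ℕ} {G : SimpleGraph (Fin n)} {w : List Bool} {ρ : Fin 20 → ℕ}
  {A : Fin 16 → ℕ → Bool}

open Classical in
theorem FzP_Mo (S S' : Finset (Fin n)) : Mo G S S' =
    ((∑ u : Fin n, ∑ v : Fin n, (if u ∈ S then 1 else 0) * (if v ∈ S' then 1 else 0) *
      ((if u = v then 0 else 1) * (if G.Adj u v then 0 else 1)) : ℕ) : ℤ) := by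
  unfold Mo
  push_cast
  rw [← Finset.sum_filter_add_sum_filter_not univ (fun u => u ∈ S)]
  rw [Finset.sum_eq_zero (s := univ.filter fun u => ¬ u ∈ S), add_zero]
  · rw [show (univ.filter fun u => u ∈ S) = S by ext x; simp]
    refine Finset.sum_congr rfl fun u hu => ?_
    rw [← Finset.sum_filter_add_sum_filter_not univ (fun v => v ∈ S')]
    rw [Finset.sum_eq_zero (s := univ.filter fun v => ¬ v ∈ S'), add_zero]
    · rw [show (univ.filter fun v => v ∈ S') = S' by ext x; simp]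
      refine Finset.sum_congr rfl fun v hv => ?_
      unfold mis
      by_cases h1 : u = v <;> by_cases h2 : G.Adj u v <;> simp [hu, hv, h1, h2]
    · intro v hv
      rw [mem_filter] at hv
      simp [hv.2]
  · intro u hu
    rw [mem_filter] at hu
    simp [hu.2]

theorem val_MoT (h : Enc G w) (hA : Iv n A) (a b : Fin 16) :
    ((val w A ρ (MoT a b) : ℕ) : ℤ) = Mo G (fs n A a) (fs n A b) := by
  classical
  have ha := hA.sup a
  have hb := hA.sup b
  rw [FzP_Mo]
  congr 1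
  have e1 : val w A ρ (MoT a b) = ∑ x ∈ range w.length, ∑ y ∈ range w.length,
      val w A (update (update ρ 17 x) 18 y) (.mul (.mul (.arr a (vr 17)) (.arr b (vr 18)))
        (.mul (notT (eqT (vr 17) (vr 18))) (notT (adjT (vr 17) (vr 18))))) := rfl
  have e17 : ∀ x y : ℕ, val w A (update (update ρ 17 x) 18 y) (vr 17) = x := by
    intro x y
    simp [Pool.Agent.helper81.LC.val, Function.update_of_ne]
  have e18 : ∀ x y : ℕ, val w A (update (update ρ 17 x) 18 y) (vr 18) = y := by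
    intro x y
    simp [Pool.Agent.helper81.LC.val]
  rw [e1, AlgT2_sum h (fun x => ∑ y ∈ range w.length, val w A (update (update ρ 17 x) 18 y)
    (.mul (.mul (.arr a (vr 17)) (.arr b (vr 18)))
      (.mul (notT (eqT (vr 17) (vr 18))) (notT (adjT (vr 17) (vr 18))))))]
  · refine Finset.sum_congr rfl fun i _ => ?_
    rw [AlgT2_sum h (fun y => val w A (update (update ρ 17 i.val) 18 y)
      (.mul (.mul (.arr a (vr 17)) (.arr b (vr 18)))
        (.mul (notT (eqT (vr 17) (vr 18))) (notT (adjT (vr 17) (vr 18))))))]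
    · refine Finset.sum_congr rfl fun j _ => ?_
      have h1 := val_arr (A := A) (a := a) h (e17 i.val j.val)
      have h2 := val_arr (A := A) (a := b) h (e18 i.val j.val)
      have h3 := val_adjT (A := A) h (e17 i.val j.val) (e18 i.val j.val)
      have h4 := val_eqT (w := w) (A := A) (ρ := update (update ρ 17 i.val) 18 j.val)
        (vr 17) (vr 18)
      rw [e17, e18] at h4
      change val w A _ (.arr a (vr 17)) * val w A _ (.arr b (vr 18)) *
        (val w A _ (notT (eqT (vr 17) (vr 18))) *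
          val w A _ (notT (adjT (vr 17) (vr 18)))) = _
      rw [val_notT, val_notT, h1, h2, h3, h4]
      congr 1
      by_cases q1 : i = j
      · have q1' : i.val = j.val := congrArg _ q1
        simp [q1]
      · have q1' : i.val ≠ j.val := fun hh => q1 (Fin.ext hh)
        by_cases q2 : G.Adj i j <;> simp [q1, q2, q1']
    · intro y hy
      have h2 := val_arr_of_sup (w := w) hb (t := vr 18) (ρ := update (update ρ 17 i.val) 18 y)
        (by rw [e18]; exact hy)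
      change val w A _ (.arr a (vr 17)) * val w A _ (.arr b (vr 18)) *
        (val w A _ (notT (eqT (vr 17) (vr 18))) *
          val w A _ (notT (adjT (vr 17) (vr 18)))) = _
      rw [h2, mul_zero, zero_mul]
  · intro x hx
    apply Finset.sum_eq_zero
    intro y _
    have h2 := val_arr_of_sup (w := w) ha (t := vr 17) (ρ := update (update ρ 17 x) 18 y)
      (by rw [e17]; exact hx)
    change val w A _ (.arr a (vr 17)) * val w A _ (.arr b (vr 18)) *
      (val w A _ (notT (eqT (vr 17) (vr 18))) *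
        val w A _ (notT (adjT (vr 17) (vr 18)))) = _
    rw [h2, zero_mul, zero_mul]

theorem val_zcT (h : Enc G w) (hA : Iv n A) (a : Fin 16) {W : Finset (Fin n)}
    (h3 : fs n A 3 = W) (h5 : fs n A 5 = Bg G (ρ 0) W) (h14 : fs n A 14 = W \ Bg G (ρ 0) W) :
    0 < val w A ρ (zcT a) ↔ zc G (ρ 0) W (fs n A a) := by
  have e1 := val_NT h (ρ := ρ) (hA.sup 3) (hA.sup 3)
  have e2 := val_NT h (ρ := ρ) (hA.sup a) (hA.sup 14)
  have e3 := val_MoT h (ρ := ρ) hA a 5
  have e4 := val_MoT h (ρ := ρ) hA a a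
  have e5 : val w A ρ (tauT (.num 0)) = 2 * (0 + ρ 0) + 1 := val_tauT _
  have e6 : val w A ρ (zcT a) =
      if val w A ρ (NT 3 3) + 2 * val w A ρ (NT a 14) <
        2 * val w A ρ (MoT a 5) + val w A ρ (MoT a a) + val w A ρ (tauT (.num 0))
      then 1 else 0 := rfl
  rw [h3, ← two_E] at e1
  rw [h14] at e2
  rw [h5] at e3
  unfold zc ph
  rw [e6, e5]
  split_ifs with hc
  · simp only [zero_lt_one, true_iff]
    omega
  · simp only [lt_irrefl, false_iff]
    omega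

/-- difference of two arrays -/
theorem FzP_sdiff (h : Enc G w) (hA : Iv n A) (a b c : Fin 16) :
    fs n (run w (.upd a 16 (.mul (.arr b (vr 16)) (notT (.arr c (vr 16)))) : P) ρ A) a =
        fs n A b \ fs n A c := by
  refine (AlgW_stp h ρ A a _ _ ?_ ?_).eq
  · intro v
    rw [AlgW_mul, AlgW_arr h, val_notT, AlgW_arr h, mem_sdiff]
    by_cases hv : v ∈ fs n A b <;> by_cases h4 : v ∈ fs n A c <;> simp [hv, h4]
  · intro x hx
    rw [AlgW_mul, AlgW_arr0 (hA.sup b) hx, zero_mul]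

/-- the update of array 11 in the removal -/
theorem FzP_upd11 (h : Enc G w) (hA : Iv n A) :
    fs n (run w (.upd 11 16 (.mul (.arr 10 (vr 16)) (notT (eqT (vr 16) (vr 5)))) : P) ρ A) 11 =
        (fs n A 10).filter (fun v => v.val ≠ ρ 5) := by
  refine (AlgW_stp h ρ A 11 _ _ ?_ ?_).eq
  · intro v
    rw [AlgW_mul, AlgW_arr h, val_notT, val_eqT, AlgW_v16,
      AlgW_vi v.val (show (5 : Fin 20) ≠ 16 by decide), mem_filter]
    by_cases hv : v ∈ fs n A 10 <;> by_cases h4 : v.val = ρ 5 <;> simp [hv, h4]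
  · intro x hx
    rw [AlgW_mul, AlgW_arr0 (hA.sup 10) hx, zero_mul]

open Classical in
/-- one step of the removal -/
theorem FzP_step (h : Enc G w) (hA : Iv n A) {W : Finset (Fin n)}
    (h3 : fs n A 3 = W) (h5 : fs n A 5 = Bg G (ρ 0) W) (h14 : fs n A 14 = W \ Bg G (ρ 0) W) :
    fs n (run w pRb ρ A) 10 =
      if (∃ v ∈ fs n A 10, v.val = ρ 5) ∧
          zc G (ρ 0) W ((fs n A 10).filter fun v => v.val ≠ ρ 5)
        then (fs n A 10).filter fun v => v.val ≠ ρ 5 else fs n A 10 := by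
  obtain ⟨A1, hA1⟩ : ∃ A1, A1 = run w (.upd 11 16 (.mul (.arr 10 (vr 16))
    (notT (eqT (vr 16) (vr 5)))) : P) ρ A := ⟨_, rfl⟩
  have hrun : run w pRb ρ A =
      if 0 < val w A1 ρ (.mul (.arr 10 (vr 5)) (zcT 11) : T)
      then run w (.upd 10 16 (.arr 11 (vr 16)) : P) ρ A1 else A1 := by rw [hA1]; rfl
  have I1 : Iv n A1 := by
    rw [hA1]
    exact iv_run _ rfl rfl _ hA
  have e11 : fs n A1 11 = (fs n A 10).filter (fun v => v.val ≠ ρ 5) := by
    rw [hA1]
    exact FzP_upd11 h hA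
  have n1 : ∀ b : Fin 16, b ≠ 11 → fs n A1 b = fs n A b := by
    intro b hb
    rw [hA1]
    exact fs_upd_ne hb _ _
  have v5 : val w A1 ρ (.arr 10 (vr 5)) = if (∃ v ∈ fs n A 10, v.val = ρ 5) then 1 else 0 := by
    by_cases hx : ρ 5 < n
    · have hv : val w A1 ρ (vr 5) = (⟨ρ 5, hx⟩ : Fin n).val := rfl
      rw [val_arr h hv, n1 10 (by decide)]
      refine if_congr ⟨fun hm => ⟨_, hm, rfl⟩, ?_⟩ rfl rfl
      rintro ⟨v, hv, hv'⟩
      have : v = ⟨ρ 5, hx⟩ := Fin.ext hv'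
      rw [← this]
      exact hv
    · have hv : n ≤ val w A1 ρ (vr 5) := not_lt.1 hx
      rw [val_arr_of_sup (I1.sup 10) hv, if_neg]
      rintro ⟨v, _, hv'⟩
      exact hx (hv' ▸ v.isLt)
  have vz := val_zcT h I1 (ρ := ρ) 11 (W := W) (by rw [n1 3 (by decide), h3])
    (by rw [n1 5 (by decide), h5]) (by rw [n1 14 (by decide), h14])
  rw [e11] at vz
  have hc : (0 < val w A1 ρ (.mul (.arr 10 (vr 5)) (zcT 11) : T)) ↔
      ((∃ v ∈ fs n A 10, v.val = ρ 5) ∧
          zc G (ρ 0) W ((fs n A 10).filter fun v => v.val ≠ ρ 5)) := by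
    rw [AlgW_mul, v5, ← vz]
    by_cases q1 : (∃ v ∈ fs n A 10, v.val = ρ 5)
    · rw [if_pos q1, one_mul]
      exact ⟨fun hh => ⟨q1, hh⟩, fun hh => hh.2⟩
    · rw [if_neg q1, zero_mul]
      exact ⟨fun hh => absurd hh (lt_irrefl _), fun hh => absurd hh.1 q1⟩
  rw [hrun]
  by_cases hg : ((∃ v ∈ fs n A 10, v.val = ρ 5) ∧
          zc G (ρ 0) W ((fs n A 10).filter fun v => v.val ≠ ρ 5))
  · rw [if_pos (hc.2 hg), if_pos hg, ← e11]
    refine (AlgW_stp h ρ A1 10 _ _ ?_ ?_).eq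
    · intro v
      rw [AlgW_arr h]
      by_cases hv : v ∈ fs n A1 11 <;> simp [hv]
    · intro x hx
      exact AlgW_arr0 (I1.sup 11) hx
  · rw [if_neg (fun hc' => hg (hc.1 hc')), if_neg hg, n1 10 (by decide)]

theorem FzP_in (h : Enc G w) {W : Finset (Fin n)} (N : ℕ) : ∀ {ρ : Fin 20 → ℕ}
    {A : Fin 16 → ℕ → Bool}, Iv n A →
    fs n A 3 = W → fs n A 5 = Bg G (ρ 0) W → fs n A 14 = W \ Bg G (ρ 0) W →
    Iv n (down (fun x A' => run w pRb (update ρ 5 x) A') N A) ∧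
      fs n (down (fun x A' => run w pRb (update ρ 5 x) A') N A) 3 = W ∧
      fs n (down (fun x A' => run w pRb (update ρ 5 x) A') N A) 5 = Bg G (ρ 0) W ∧
      fs n (down (fun x A' => run w pRb (update ρ 5 x) A') N A) 14 = W \ Bg G (ρ 0) W ∧
      fs n (down (fun x A' => run w pRb (update ρ 5 x) A') N A) 10 =
        zr1 G (ρ 0) W N (fs n A 10) := by
  induction N with
  | zero => exact fun hA h3 h5 h14 => ⟨hA, h3, h5, h14, rfl⟩
  | succ N ih =>
    intro ρ A hA h3 h5 h14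
    have g5 : update ρ 5 N 5 = N := Function.update_self _ _ _
    have g0 : update ρ 5 N 0 = ρ 0 := Function.update_of_ne (by decide) _ _
    have e1 := FzP_step h (ρ := update ρ 5 N) hA h3 (by rw [g0]; exact h5)
      (by rw [g0]; exact h14)
    have I1 : Iv n (run w pRb (update ρ 5 N) A) := iv_run _ rfl rfl _ hA
    have k3 : fs n (run w pRb (update ρ 5 N) A) 3 = W := by rw [nm_fs _ rfl, h3]
    have k5 : fs n (run w pRb (update ρ 5 N) A) 5 = Bg G (ρ 0) W := by rw [nm_fs _ rfl, h5]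
    have k14 : fs n (run w pRb (update ρ 5 N) A) 14 = W \ Bg G (ρ 0) W := by
      rw [nm_fs _ rfl, h14]
    obtain ⟨J1, J3, J5, J14, J10⟩ := ih I1 k3 k5 k14
    have e : down (fun x A' => run w pRb (update ρ 5 x) A') (N + 1) A =
        down (fun x A' => run w pRb (update ρ 5 x) A') N
          (run w pRb (update ρ 5 N) A) := rfl
    rw [g5, g0] at e1
    rw [e]
    refine ⟨J1, J3, J5, J14, ?_⟩
    rw [J10, e1]
    rfl

theorem FzP_out (h : Enc G w) {W : Finset (Fin n)} (N : ℕ) : ∀ {ρ : Fin 20 → ℕ}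
    {A : Fin 16 → ℕ → Bool}, Iv n A →
    fs n A 3 = W → fs n A 5 = Bg G (ρ 0) W → fs n A 14 = W \ Bg G (ρ 0) W →
    fs n (down (fun x A' => run w (.loop 5 pRb) (update ρ 6 x) A') N A) 10 =
        zrm G (ρ 0) W N (fs n A 10) := by
  induction N with
  | zero => exact fun hA h3 h5 h14 => rfl
  | succ N ih =>
    intro ρ A hA h3 h5 h14
    have g0 : update ρ 6 N 0 = ρ 0 := Function.update_of_ne (by decide) _ _
    have e1 := FzP_in h (ρ := update ρ 6 N) w.length hA h3 (by rw [g0]; exact h5)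
      (by rw [g0]; exact h14)
    have er : down (fun x A' => run w pRb (update (update ρ 6 N) 5 x) A') w.length A =
        run w (.loop 5 pRb) (update ρ 6 N) A := rfl
    rw [er, g0, h.len] at e1
    obtain ⟨I1, k3, k5, k14, k10⟩ := e1
    have e : down (fun x A' => run w (.loop 5 pRb) (update ρ 6 x) A') (N + 1) A =
        down (fun x A' => run w (.loop 5 pRb) (update ρ 6 x) A') N
          (run w (.loop 5 pRb) (update ρ 6 N) A) := rfl
    rw [e, ih I1 k3 k5 k14, k10]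
    rfl

theorem rb_loop (h : Enc G w) (hA : Iv n A) {W : Finset (Fin n)}
    (h3 : fs n A 3 = W) (h5 : fs n A 5 = Bg G (ρ 0) W) (h14 : fs n A 14 = W \ Bg G (ρ 0) W) :
    fs n (run w (.loop 6 (.loop 5 pRb)) ρ A) 10 = zrm G (ρ 0) W (n * n) (fs n A 10) := by
  have e1 := FzP_out h w.length hA h3 h5 h14
  rw [h.len] at e1
  have e2 : run w (.loop 6 (.loop 5 pRb)) ρ A =
      down (fun x A' => run w (.loop 5 pRb) (update ρ 6 x) A') w.length A := rfl
  rw [e2, h.len]
  exact e1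

/-- a sum over an array -/
theorem FzP_sum (h : Enc G w) (hA : Iv n A) (b : Fin 16) (t : T) (f : Fin n → ℕ)
    (hf : ∀ j : Fin n, val w A (update ρ 15 j.val) t = f j) :
    val w A ρ (.sum 15 (.mul (.arr b (vr 15)) t)) = ∑ j ∈ fs n A b, f j := by
  have e15 : ∀ y : ℕ, val w A (update ρ 15 y) (vr 15) = y := by
    intro y
    simp [Pool.Agent.helper81.LC.val]
  have e1 : val w A ρ (.sum 15 (.mul (.arr b (vr 15)) t)) = ∑ y ∈ range w.length,
      val w A (update ρ 15 y) (.mul (.arr b (vr 15)) t) := rfl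
  rw [e1, AlgT2_sum h (fun y => val w A (update ρ 15 y) (.mul (.arr b (vr 15)) t))]
  · have e2 : ∀ v : Fin n, val w A (update ρ 15 v.val) (.mul (.arr b (vr 15)) t) =
        if v ∈ fs n A b then f v else 0 := by
      intro v
      rw [AlgW_mul, val_arr h (e15 v.val), hf]
      split_ifs <;> simp
    simp only [e2]
    rw [Finset.sum_ite_mem, Finset.univ_inter]
  · intro y hy
    rw [AlgW_mul, val_arr_of_sup (hA.sup b) (by rw [e15]; exact hy), zero_mul]

/-- the conditions of array 11 in the last exchange -/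
theorem FzP_zT (h : Enc G w) (hA : Iv n A) {W Y : Finset (Fin n)}
    (h5 : fs n A 5 = Bg G (ρ 0) W) (h6 : fs n A 6 = Zr G (ρ 0) W)
    (h14 : fs n A 14 = W \ Bg G (ρ 0) W) (h10 : fs n A 10 = Y) :
    fs n (run w (.upd 11 16 (.mul (.arr 6 (vr 16)) (notT (.add (.add
    (.sum 15 (.mul (.arr 5 (vr 15)) (.mul (notT (eqT (vr 16) (vr 15)))
      (notT (adjT (vr 16) (vr 15))))))
    (.sum 15 (.mul (.arr 14 (vr 15)) (adjT (vr 16) (vr 15)))))
    (.sum 15 (.mul (.arr 10 (vr 15)) (notT (adjT (vr 16) (vr 15)))))))) : P) ρ A) 11 =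
      zT G (ρ 0) W Y := by
  classical
  refine (AlgW_stp h ρ A 11 _ _ ?_ ?_).eq
  · intro v
    have e15 : ∀ y : ℕ, val w A (update (update ρ 16 v.val) 15 y) (vr 15) = y := by
      intro y
      simp [Pool.Agent.helper81.LC.val]
    have e16 : ∀ y : ℕ, val w A (update (update ρ 16 v.val) 15 y) (vr 16) = v.val := by
      intro y
      simp [Pool.Agent.helper81.LC.val, Function.update_of_ne]
    have s1 := FzP_sum h hA (ρ := update ρ 16 v.val) 5 (.mul (notT (eqT (vr 16) (vr 15)))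
      (notT (adjT (vr 16) (vr 15)))) (fun j => if v ≠ j ∧ ¬ G.Adj v j then 1 else 0) (by
        intro j
        have h3 := val_adjT (A := A) h (e16 j.val) (e15 j.val)
        have h4 := val_eqT (w := w) (A := A) (ρ := update (update ρ 16 v.val) 15 j.val)
          (vr 16) (vr 15)
        rw [e16, e15] at h4
        rw [AlgW_mul, val_notT, val_notT, h3, h4]
        by_cases q1 : v = j
        · have q1' : v.val = j.val := congrArg _ q1
          simp [q1]
        · have q1' : v.val ≠ j.val := fun hh => q1 (Fin.ext hh)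
          by_cases q2 : G.Adj v j <;> simp [q1, q2, q1'])
    have s2 := FzP_sum h hA (ρ := update ρ 16 v.val) 14 (adjT (vr 16) (vr 15))
      (fun j => if G.Adj v j then 1 else 0) (by
        intro j
        exact val_adjT (A := A) h (e16 j.val) (e15 j.val))
    have s3 := FzP_sum h hA (ρ := update ρ 16 v.val) 10 (notT (adjT (vr 16) (vr 15)))
      (fun j => if G.Adj v j then 0 else 1) (by
        intro j
        have h3 := val_adjT (A := A) h (e16 j.val) (e15 j.val)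
        rw [val_notT, h3]
        by_cases q2 : G.Adj v j <;> simp [q2])
    rw [AlgW_mul, AlgW_arr h, val_notT, AlgW_add, AlgW_add, s1, s2, s3, h5, h6, h14, h10]
    have t1 : Mo G {v} (Bg G (ρ 0) W) =
        ((∑ j ∈ Bg G (ρ 0) W, (if v ≠ j ∧ ¬ G.Adj v j then 1 else 0) : ℕ) : ℤ) := by
      rw [Mo_sing_sum]
      push_cast
      exact sum_congr rfl fun j _ => by unfold mis; congr
    have t2 : N G {v} (W \ Bg G (ρ 0) W) =
        ((∑ j ∈ W \ Bg G (ρ 0) W, (if G.Adj v j then 1 else 0) : ℕ) : ℤ) := by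
      rw [N_sing_sum]
      push_cast
      exact sum_congr rfl fun j _ => by unfold ind; congr
    have t3 : (∑ j ∈ Y, (if G.Adj v j then 0 else 1)) = 0 ↔ ∀ y ∈ Y, G.Adj v y := by
      rw [sum_eq_zero_iff]
      refine forall₂_congr fun y _ => ?_
      by_cases q : G.Adj v y <;> simp [q]
    have t4 : v ∈ zT G (ρ 0) W Y ↔ v ∈ Zr G (ρ 0) W ∧ (Mo G {v} (Bg G (ρ 0) W) = 0 ∧
        N G {v} (W \ Bg G (ρ 0) W) = 0) ∧ ∀ y ∈ Y, G.Adj v y := by
      unfold zT zU
      rw [mem_filter, mem_filter, and_assoc]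
    rw [t4, t1, t2, ← t3]
    by_cases q : v ∈ Zr G (ρ 0) W
    · rw [if_pos q, one_mul]
      split_ifs with hc
      · simp only [zero_lt_one, true_iff]
        refine ⟨q, ⟨?_, ?_⟩, ?_⟩ <;> omega
      · simp only [lt_irrefl, false_iff]
        rintro ⟨-, ⟨c1, c2⟩, c3⟩
        omega
    · rw [if_neg q, zero_mul]
      exact ⟨fun hh => absurd hh (lt_irrefl _), fun hh => absurd hh.1 q⟩
  · intro x hx
    rw [AlgW_mul, AlgW_arr0 (hA.sup 6) hx, zero_mul]

theorem cm_fz (h : Enc G w) : Cm w (.seq pSet pFz) fun (ρ : Fin 20 → ℕ) (U F : Finset (Fin n)) =>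
    ∃ u : Fin n, ρ 4 = u.val ∧ F = fZ G (ρ 0) (Wv (ρ 2) (ρ 3) (ρ 4) U) := by
  classical
  intro ρ A hA
  refine ⟨iv_run _ rfl rfl _ hA, nm_fs _ rfl _ _, nm_fs _ rfl _ _, ?_⟩
  rintro F ⟨u, hu, rfl⟩
  obtain ⟨-, -, -, -, hS⟩ := run_set h (ρ := ρ) (A := A) ⟨hA.all, hA.sup 0, hA.sup 1, hA.sup 2⟩
  have hW := hS u hu
  set W := Wv (ρ 2) (ρ 3) (ρ 4) (fs n A 1) with hWd
  obtain ⟨A1, hA1⟩ : ∃ A1, A1 = run w pSet ρ A := ⟨_, rfl⟩
  rw [← hA1] at hW
  obtain ⟨A2, hA2⟩ : ∃ A2, A2 = run w (pCp 13 3) ρ A1 := ⟨_, rfl⟩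
  obtain ⟨A3, hA3⟩ : ∃ A3, A3 = run w (.upd 10 16 (.mul (.arr 13 (vr 16)) (bigT 3 13)) : P) ρ A2 :=
    ⟨_, rfl⟩
  obtain ⟨A4, hA4⟩ : ∃ A4, A4 = run w (.upd 14 16 (.mul (.arr 3 (vr 16))
    (notT (.arr 5 (vr 16)))) : P) ρ A3 := ⟨_, rfl⟩
  obtain ⟨A5, hA5⟩ : ∃ A5, A5 = run w (.loop 6 (.loop 5 pRb)) ρ A4 := ⟨_, rfl⟩
  obtain ⟨A6, hA6⟩ : ∃ A6, A6 = run w (.upd 11 16 (.mul (.arr 6 (vr 16)) (notT (.add (.add
    (.sum 15 (.mul (.arr 5 (vr 15)) (.mul (notT (eqT (vr 16) (vr 15)))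
      (notT (adjT (vr 16) (vr 15))))))
    (.sum 15 (.mul (.arr 14 (vr 15)) (adjT (vr 16) (vr 15)))))
    (.sum 15 (.mul (.arr 10 (vr 15)) (notT (adjT (vr 16) (vr 15)))))))) : P) ρ A5 := ⟨_, rfl⟩
  obtain ⟨A7, hA7⟩ : ∃ A7, A7 = run w (.upd 15 16 (.mul (.arr 11 (vr 16))
    (.lt (rankT (vr 16) 11) (cardT 10))) : P) ρ A6 := ⟨_, rfl⟩
  obtain ⟨A8, hA8⟩ : ∃ A8, A8 = run w (.upd 12 16 (.mul (.arr 0 (vr 16))
    (.add (.mul (.arr 3 (vr 16)) (notT (.arr 15 (vr 16)))) (.arr 10 (vr 16)))) : P) ρ A7 :=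
    ⟨_, rfl⟩
  have hrun : run w (.seq pSet pFz) ρ A = A8 := by
    rw [hA8, hA7, hA6, hA5, hA4, hA3, hA2, hA1]
    rfl
  rw [hrun]
  have I1 : Iv n A1 := by rw [hA1]; exact iv_run _ rfl rfl _ hA
  have I2 : Iv n A2 := by rw [hA2]; exact iv_run _ rfl rfl _ I1
  have I3 : Iv n A3 := by rw [hA3]; exact iv_run _ rfl rfl _ I2
  have I4 : Iv n A4 := by rw [hA4]; exact iv_run _ rfl rfl _ I3
  have I5 : Iv n A5 := by rw [hA5]; exact iv_run _ rfl rfl _ I4
  have I6 : Iv n A6 := by rw [hA6]; exact iv_run _ rfl rfl _ I5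
  have I7 : Iv n A7 := by rw [hA7]; exact iv_run _ rfl rfl _ I6
  have n2 : ∀ b : Fin 16, b ≠ 13 → fs n A2 b = fs n A1 b := by
    intro b hb; rw [hA2]; exact fs_upd_ne hb _ _
  have n3 : ∀ b : Fin 16, b ≠ 10 → fs n A3 b = fs n A2 b := by
    intro b hb; rw [hA3]; exact fs_upd_ne hb _ _
  have n4 : ∀ b : Fin 16, b ≠ 14 → fs n A4 b = fs n A3 b := by
    intro b hb; rw [hA4]; exact fs_upd_ne hb _ _
  have n6 : ∀ b : Fin 16, b ≠ 11 → fs n A6 b = fs n A5 b := by
    intro b hb; rw [hA6]; exact fs_upd_ne hb _ _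
  have n7 : ∀ b : Fin 16, b ≠ 15 → fs n A7 b = fs n A6 b := by
    intro b hb; rw [hA7]; exact fs_upd_ne hb _ _
  -- array 13
  have d2 : fs n A2 13 = (fs n A2 3)ᶜ := by
    have := FzP_sdiff h (ρ := ρ) I1 13 0 3
    rw [n2 3 (by decide)]
    rw [hA2]
    refine this.trans ?_
    rw [I1.all, compl_eq_univ_sdiff]
  have w2 : fs n A2 3 = W := by rw [n2 3 (by decide), hW.a3]
  -- array 10
  have d3 : fs n A3 10 = PC G (ρ 0) W := by
    rw [hA3]
    refine (AlgW_stp h ρ A2 10 _ _ ?_ ?_).eq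
    · intro v
      have hb := val_bigT h I2 (ρ := update ρ 16 v.val) d2 (v := v)
        (Function.update_self _ _ _)
      have g0 : update ρ 16 v.val 0 = ρ 0 := Function.update_of_ne (by decide) _ _
      rw [g0, w2] at hb
      rw [w2] at d2
      unfold PC
      rw [AlgW_mul, AlgW_arr h, d2, mem_filter, ← hb]
      by_cases q : v ∈ Wᶜ
      · rw [if_pos q, one_mul]
        exact ⟨fun hh => ⟨q, hh⟩, fun hh => hh.2⟩
      · rw [if_neg q, zero_mul]
        exact ⟨fun hh => absurd hh (lt_irrefl _), fun hh => absurd hh.1 q⟩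
    · intro x hx
      rw [AlgW_mul, AlgW_arr0 (I2.sup 13) hx, zero_mul]
  -- array 14
  have d4 : fs n A4 14 = W \ Bg G (ρ 0) W := by
    rw [hA4]
    refine (FzP_sdiff h (ρ := ρ) I3 14 3 5).trans ?_
    rw [n3 3 (by decide), n3 5 (by decide), n2 5 (by decide), w2, hW.a5]
  have k4 : ∀ b : Fin 16, b ≠ 14 → b ≠ 10 → b ≠ 13 → fs n A4 b = fs n A1 b := by
    intro b h1 h2 h3
    rw [n4 b h1, n3 b h2, n2 b h3]
  have w4 : fs n A4 3 = W := by rw [k4 3 (by decide) (by decide) (by decide), hW.a3]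
  have x4 : fs n A4 5 = Bg G (ρ 0) W := by rw [k4 5 (by decide) (by decide) (by decide), hW.a5]
  have y4 : fs n A4 6 = Zr G (ρ 0) W := by rw [k4 6 (by decide) (by decide) (by decide), hW.a6]
  have z4 : fs n A4 10 = PC G (ρ 0) W := by rw [n4 10 (by decide), d3]
  -- the loops
  have d5 : fs n A5 10 = zY G (ρ 0) W := by
    rw [hA5, rb_loop h I4 w4 x4 d4, z4]
    rfl
  have w5 : fs n A5 3 = W := by rw [hA5, nm_fs _ rfl, w4]
  have x5 : fs n A5 5 = Bg G (ρ 0) W := by rw [hA5, nm_fs _ rfl, x4]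
  have y5 : fs n A5 6 = Zr G (ρ 0) W := by rw [hA5, nm_fs _ rfl, y4]
  have z5 : fs n A5 14 = W \ Bg G (ρ 0) W := by rw [hA5, nm_fs _ rfl, d4]
  -- array 11
  have d6 : fs n A6 11 = zT G (ρ 0) W (zY G (ρ 0) W) := by
    rw [hA6]
    exact FzP_zT h I5 x5 y5 z5 d5
  have z6 : fs n A6 10 = zY G (ρ 0) W := by rw [n6 10 (by decide), d5]
  -- array 15
  have d7 : fs n A7 15 = firstk (zT G (ρ 0) W (zY G (ρ 0) W)) (zY G (ρ 0) W).card := by
    rw [hA7]
    refine (AlgW_stp h ρ A6 15 _ _ ?_ ?_).eq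
    · intro v
      have hr := val_rankT h (ρ := update ρ 16 v.val) (I6.sup 11) (x := vr 16) (i := v) (by
        intro y
        simp [Pool.Agent.helper81.LC.val, Function.update_of_ne])
      have hc := val_cardT h (ρ := update ρ 16 v.val) (I6.sup 10)
      unfold firstk
      rw [AlgW_mul, AlgW_arr h, AlgW_lt, hr, hc, d6, z6, mem_filter]
      by_cases q : v ∈ zT G (ρ 0) W (zY G (ρ 0) W)
      · rw [if_pos q, one_mul]
        split_ifs with hh
        · exact ⟨fun _ => ⟨q, hh⟩, fun _ => zero_lt_one⟩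
        · exact ⟨fun h' => absurd h' (lt_irrefl _), fun h' => absurd h'.2 hh⟩
      · rw [if_neg q, zero_mul]
        exact ⟨fun hh => absurd hh (lt_irrefl _), fun hh => absurd hh.1 q⟩
    · intro x hx
      rw [AlgW_mul, AlgW_arr0 (I6.sup 11) hx, zero_mul]
  have w7 : fs n A7 3 = W := by rw [n7 3 (by decide), n6 3 (by decide), w5]
  have z7 : fs n A7 10 = zY G (ρ 0) W := by rw [n7 10 (by decide), z6]
  rw [hA8]
  refine (AlgW_stp h ρ A7 12 _ _ ?_ ?_).eq
  · intro v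
    unfold fZ
    rw [AlgW_mul, AlgW_arr h, AlgW_add, AlgW_mul, AlgW_arr h, val_notT, AlgW_arr h, AlgW_arr h,
      I7.all, w7, d7, z7, mem_union, mem_sdiff]
    generalize firstk (zT G (ρ 0) W (zY G (ρ 0) W)) (zY G (ρ 0) W).card = S
    generalize zY G (ρ 0) W = Y
    by_cases q1 : v ∈ W <;> by_cases q2 : v ∈ S <;> by_cases q3 : v ∈ Y <;> simp [q1, q2, q3]
  · intro x hx
    rw [AlgW_mul, AlgW_arr0 (I7.sup 0) hx, zero_mul]

end Pool.Agent.helper31.JBX
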