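import Pool.Agent.helper81.JB.Lo

/-!
# JBX-Lw: lower bounds

* `lower_succ`: add an isolated edge: the graph on `Fin (n + 2)` with `G` on the first `n` vertices and the edge
  `n, n + 1`.  For `X ⊆ Fin (n + 2)` let `X'` be the set of the `v : Fin n` with `v.castLE ∈ X`; then `eIn G X' ≤
  eIn G' X` (injection of the edges by `Sym2.map`), `X'ᶜ` belongs to `Xᶜ`.  The number of edges: `N` (`ncard_eq`), or
  the edge set is the image of the edge set of `G` and one more edge.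
* `lower_rr`: induction on `r`, start `lower_r k 0`.
* `sqG u`: the disjoint union of complete graphs with `u` and `u + 1` vertices.  It has `u ^ 2` edges (`ncard_eq`,
  `N_add_Mo_self`, or directly).  For `X`: let `a`, `b` be the numbers of vertices of `X` in the parts; `2 e(X) = a (a - 1) +
  b (b - 1)`, `2 e(Xᶜ) = (u - a) (u - a - 1) + (u + 1 - b) (u - b)`.  Let `p = 2 a - u`, `p' = 2 b - u - 1`, `q = p + p'`
  (odd).  Then `4 e(X) = u ^ 2 - u - 1/2 + (p ^ 2 + p' ^ 2) / 2 + u q - p` and `4 e(Xᶜ) = u ^ 2 - u - 1/2 + (p ^ 2 +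
  p' ^ 2) / 2 - u q + p`.  If `q ≥ 1` then `4 e(X) ≥ u ^ 2 - 1/2 + ((p - 1) ^ 2 - 1 + p' ^ 2) / 2 ≥ u ^ 2 - 1`; if `q ≤ -1`
  then `4 e(Xᶜ) ≥ u ^ 2 - 1` in the same way.
-/

set_option autoImplicit false

open Finset

namespace Pool.Agent.helper31.JBX

open Pool.Agent.helper81.JB

/-- `G` on the first `n` vertices and one more edge `n, n + 1` -/
def Lw_G {n : ℕ} (G : SimpleGraph (Fin n)) : SimpleGraph (Fin (n + 2)) where
  Adj i j := (∃ (hi : i.val < n) (hj : j.val < n), G.Adj ⟨i.val, hi⟩ ⟨j.val, hj⟩) ∨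
    (i ≠ j ∧ n ≤ i.val ∧ n ≤ j.val)
  symm := ⟨fun _ _ h => by
    rcases h with ⟨hi, hj, h⟩ | ⟨h1, h2, h3⟩
    · exact Or.inl ⟨hj, hi, h.symm⟩
    · exact Or.inr ⟨h1.symm, h3, h2⟩⟩
  loopless := ⟨fun _ h => by
    rcases h with ⟨hi, hj, h⟩ | ⟨h1, h2, h3⟩
    · exact G.irrefl h
    · exact h1 rfl⟩

theorem Lw_adj {n : ℕ} (G : SimpleGraph (Fin n)) (a b : Fin n) :
    (Lw_G G).Adj (Fin.castLEEmb (by omega : n ≤ n + 2) a) (Fin.castLEEmb (by omega : n ≤ n + 2) b) ↔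
      G.Adj a b := by
  constructor
  · rintro (⟨hi, hj, h⟩ | ⟨h1, h2, h3⟩)
    · exact h
    · have h4 : n ≤ a.val := h2
      have h5 := a.isLt
      omega
  · intro h
    exact Or.inl ⟨a.isLt, b.isLt, h⟩

theorem Lw_map {n : ℕ} (G : SimpleGraph (Fin n)) (A B : Finset (Fin n)) :
    N (Lw_G G) (A.map (Fin.castLEEmb (by omega : n ≤ n + 2)))
      (B.map (Fin.castLEEmb (by omega : n ≤ n + 2))) = N G A B := by
  unfold N
  rw [Finset.sum_map]
  refine Finset.sum_congr rfl fun a _ => ?_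
  rw [Finset.sum_map]
  refine Finset.sum_congr rfl fun b _ => ?_
  by_cases h : G.Adj a b
  · rw [ind_adj _ h, ind_adj _ ((Lw_adj G a b).2 h)]
  · rw [ind_not _ h, ind_not _ (fun h1 => h ((Lw_adj G a b).1 h1))]

theorem Lw_le {n : ℕ} (G : SimpleGraph (Fin n)) {Y : Finset (Fin n)} {X : Finset (Fin (n + 2))}
    (h : ∀ v ∈ Y, Fin.castLEEmb (by omega : n ≤ n + 2) v ∈ X) : eIn G Y ≤ eIn (Lw_G G) X := by
  have h1 : Y.map (Fin.castLEEmb (by omega : n ≤ n + 2)) ⊆ X := by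
    intro v hv
    obtain ⟨w, hw, rfl⟩ := Finset.mem_map.1 hv
    exact h w hw
  have h2 := N_mono (Lw_G G) h1 h1
  rw [Lw_map, Lo_sum, Lo_sum] at h2
  omega

theorem Lw_total {n : ℕ} (G : SimpleGraph (Fin n)) :
    N (Lw_G G) univ univ = N G univ univ + 2 := by
  set f : Fin n ↪ Fin (n + 2) := Fin.castLEEmb (by omega : n ≤ n + 2) with hf
  set M : Finset (Fin (n + 2)) := univ.map f with hM
  set p : Fin (n + 2) := ⟨n, by omega⟩ with hp
  set q : Fin (n + 2) := ⟨n + 1, by omega⟩ with hq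
  have hMv : ∀ v ∈ M, v.val < n := by
    intro v hv
    obtain ⟨w, _, rfl⟩ := Finset.mem_map.1 hv
    exact w.isLt
  have hpM : p ∉ M := fun h => by
    have := hMv _ h
    simp [hp] at this
  have hqM : q ∉ M := fun h => by
    have := hMv _ h
    simp [hq] at this
  have hpq : p ≠ q := fun h => by
    have := congrArg Fin.val h
    simp [hp, hq] at this
  have hpM' : p ∉ insert q M := by
    rw [Finset.mem_insert, not_or]
    exact ⟨hpq, hpM⟩
  have hU : (univ : Finset (Fin (n + 2))) = insert p (insert q M) := by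
    ext v
    constructor
    · intro _
      rw [Finset.mem_insert, Finset.mem_insert]
      rcases lt_or_ge v.val n with h | h
      · right; right
        rw [hM, Finset.mem_map]
        exact ⟨⟨v.val, h⟩, Finset.mem_univ _, Fin.ext rfl⟩
      · rcases Nat.lt_or_ge v.val (n + 1) with h' | h'
        · left
          exact Fin.ext (by simp only [hp]; omega)
        · right; left
          have := v.isLt
          exact Fin.ext (by simp only [hq]; omega)
    · intro _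
      exact Finset.mem_univ _
  have h0 : ∀ v ∈ M, ind (Lw_G G) p v = 0 := by
    intro v hv
    refine ind_not _ ?_
    rintro (⟨hi, hj, h⟩ | ⟨h1, h2, h3⟩)
    · simp [hp] at hi
    · have := hMv v hv
      omega
  have h0' : ∀ v ∈ M, ind (Lw_G G) q v = 0 := by
    intro v hv
    refine ind_not _ ?_
    rintro (⟨hi, hj, h⟩ | ⟨h1, h2, h3⟩)
    · simp [hq] at hi
    · have := hMv v hv
      omega
  have h1 : N (Lw_G G) {p} M = 0 := by
    rw [N_sing_sum]
    exact Finset.sum_eq_zero h0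
  have h1' : N (Lw_G G) {q} M = 0 := by
    rw [N_sing_sum]
    exact Finset.sum_eq_zero h0'
  have h2 : ind (Lw_G G) p q = 1 := by
    refine ind_adj _ (Or.inr ⟨hpq, ?_, ?_⟩)
    · simp [hp]
    · simp [hq]
  have h3 : N (Lw_G G) M M = N G univ univ := Lw_map G univ univ
  rw [hU, N_insert_left _ hpM', N_insert_right _ hpM', N_insert_right _ hpM', N_insert_left _ hqM,
    N_insert_right _ hqM, N_insert_right _ hqM, N_insert_right _ hqM, h3, h1, h1', N_sing,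
    N_sing, N_sing, ind_self, ind_self, ind_comm _ q p, h2]
  ring

theorem lower_succ {m t : ℕ} (h : ∃ (n : ℕ) (G : SimpleGraph (Fin n)), G.edgeSet.ncard = m ∧
      ∀ X, t ≤ eIn G X ∨ t ≤ eIn G Xᶜ) :
    ∃ (n : ℕ) (G : SimpleGraph (Fin n)), G.edgeSet.ncard = m + 1 ∧
      ∀ X, t ≤ eIn G X ∨ t ≤ eIn G Xᶜ := by
  classical
  obtain ⟨n, G, h1, h2⟩ := h
  refine ⟨n + 2, Lw_G G, ?_, fun X => ?_⟩
  · have h3 := ncard_eq (Lw_G G)
    have h4 := ncard_eq G
    rw [Lw_total, h4, h1] at h3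
    omega
  · rcases h2 (univ.filter fun v => Fin.castLEEmb (by omega : n ≤ n + 2) v ∈ X) with h3 | h3
    · left
      refine h3.trans (Lw_le G fun v hv => ?_)
      exact (Finset.mem_filter.1 hv).2
    · right
      refine h3.trans (Lw_le G fun v hv => ?_)
      rw [Finset.mem_compl] at hv ⊢
      intro h4
      exact hv (Finset.mem_filter.2 ⟨Finset.mem_univ _, h4⟩)

theorem lower_rr (k r : ℕ) : ∃ (n : ℕ) (G : SimpleGraph (Fin n)),
    G.edgeSet.ncard = k * (2 * k + 1) + r ∧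
      ∀ X, k * (k + 1) / 2 ≤ eIn G X ∨ k * (k + 1) / 2 ≤ eIn G Xᶜ := by
  induction r with
  | zero => exact lower_r k 0 (Nat.zero_le _)
  | succ r ih => exact lower_succ ih

/-- the disjoint union of complete graphs with `u` and `u + 1` vertices -/
def sqG (u : ℕ) : SimpleGraph (Fin (2 * u + 1)) where
  Adj i j := i ≠ j ∧ (i.val < u ↔ j.val < u)
  symm := ⟨fun _ _ h => ⟨h.1.symm, h.2.symm⟩⟩
  loopless := ⟨fun _ h => h.1 rfl⟩

/-- the first part -/
def Lw_P (u : ℕ) : Finset (Fin (2 * u + 1)) := univ.filter fun i => i.val < u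

theorem Lw_memP {u : ℕ} (i : Fin (2 * u + 1)) : i ∈ Lw_P u ↔ i.val < u := by
  unfold Lw_P
  rw [Finset.mem_filter]
  exact ⟨fun h => h.2, fun h => ⟨Finset.mem_univ _, h⟩⟩

theorem Lw_cardP (u : ℕ) : (Lw_P u).card = u := by
  have h7 : Lw_P u =
      (Finset.univ : Finset (Fin u)).map (Fin.castLEEmb (by omega : u ≤ 2 * u + 1)) := by
    ext j
    rw [Lw_memP, Finset.mem_map]
    constructor
    · intro hj
      exact ⟨⟨j.val, hj⟩, Finset.mem_univ _, Fin.ext rfl⟩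
    · rintro ⟨i, _, rfl⟩
      exact i.isLt
  rw [h7, Finset.card_map, Finset.card_univ, Fintype.card_fin]

theorem Lw_cardPc (u : ℕ) : (Lw_P u)ᶜ.card = u + 1 := by
  rw [Finset.card_compl, Lw_cardP, Fintype.card_fin]
  omega

theorem Lw_N (u : ℕ) (X : Finset (Fin (2 * u + 1))) :
    N (sqG u) X X = ((X ∩ Lw_P u).card : ℤ) * (((X ∩ Lw_P u).card : ℤ) - 1) +
      ((X \ Lw_P u).card : ℤ) * (((X \ Lw_P u).card : ℤ) - 1) := by
  have hd : Disjoint (X ∩ Lw_P u) (X \ Lw_P u) := by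
    rw [Finset.disjoint_left]
    intro v hv hv'
    exact (Finset.mem_sdiff.1 hv').2 (Finset.mem_inter.1 hv).2
  have hU : X = (X ∩ Lw_P u) ∪ (X \ Lw_P u) := by
    ext v
    rw [Finset.mem_union, Finset.mem_inter, Finset.mem_sdiff]
    tauto
  have h1 := N_add_Mo_self (sqG u) (X ∩ Lw_P u)
  have h2 := N_add_Mo_self (sqG u) (X \ Lw_P u)
  have h3 : Mo (sqG u) (X ∩ Lw_P u) (X ∩ Lw_P u) = 0 := by
    refine Mo_eq_zero _ fun i hi j hj hij => ⟨hij, ?_⟩
    have h5 := (Lw_memP i).1 (Finset.mem_inter.1 hi).2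
    have h6 := (Lw_memP j).1 (Finset.mem_inter.1 hj).2
    exact ⟨fun _ => h6, fun _ => h5⟩
  have h4 : Mo (sqG u) (X \ Lw_P u) (X \ Lw_P u) = 0 := by
    refine Mo_eq_zero _ fun i hi j hj hij => ⟨hij, ?_⟩
    have h5 : ¬ i.val < u := fun h => (Finset.mem_sdiff.1 hi).2 ((Lw_memP i).2 h)
    have h6 : ¬ j.val < u := fun h => (Finset.mem_sdiff.1 hj).2 ((Lw_memP j).2 h)
    exact ⟨fun h => absurd h h5, fun h => absurd h h6⟩
  have h7 : N (sqG u) (X ∩ Lw_P u) (X \ Lw_P u) = 0 := by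
    unfold N
    refine Finset.sum_eq_zero fun i hi => Finset.sum_eq_zero fun j hj => ind_not _ fun h => ?_
    have h5 := (Lw_memP i).1 (Finset.mem_inter.1 hi).2
    exact (Finset.mem_sdiff.1 hj).2 ((Lw_memP j).2 (h.2.1 h5))
  rw [h3] at h1
  rw [h4] at h2
  have h8 : N (sqG u) X X = N (sqG u) (X ∩ Lw_P u) (X ∩ Lw_P u) +
      N (sqG u) (X \ Lw_P u) (X \ Lw_P u) := by
    conv_lhs => rw [hU]
    rw [N_union_left _ hd, N_union_right _ hd, N_union_right _ hd, N_comm _ (X \ Lw_P u) (X ∩ Lw_P u),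
      h7]
    ring
  rw [h8]
  linarith

theorem ncard_sqG (u : ℕ) : (sqG u).edgeSet.ncard = u ^ 2 := by
  have h1 := ncard_eq (sqG u)
  have h2 := Lw_N u univ
  have h3 : (univ : Finset (Fin (2 * u + 1))) ∩ Lw_P u = Lw_P u := Finset.univ_inter _
  have h4 : (univ : Finset (Fin (2 * u + 1))) \ Lw_P u = (Lw_P u)ᶜ := by
    rw [Finset.compl_eq_univ_sdiff]
  rw [h3, h4, Lw_cardP, Lw_cardPc, h1] at h2
  have h5 : (((sqG u).edgeSet.ncard : ℕ) : ℤ) = ((u ^ 2 : ℕ) : ℤ) := by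
    push_cast at h2 ⊢
    linarith
  exact_mod_cast h5

theorem Lw_sq (u : ℕ) (X : Finset (Fin (2 * u + 1)))
    (h : u + 1 ≤ (X ∩ Lw_P u).card + (X \ Lw_P u).card) : u ^ 2 ≤ 4 * eIn (sqG u) X + 1 := by
  have h1 := Lw_N u X
  rw [Lo_sum] at h1
  set a := (X ∩ Lw_P u).card with ha
  set b := (X \ Lw_P u).card with hb
  have h2 : (u : ℤ) + 1 ≤ (a : ℤ) + (b : ℤ) := by exact_mod_cast h
  have h3 : ((u ^ 2 : ℕ) : ℤ) ≤ ((4 * eIn (sqG u) X + 1 : ℕ) : ℤ) := by
    push_cast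
    have h4 : 4 * (eIn (sqG u) X : ℤ) + 1 = ((a : ℤ) + b - 1) ^ 2 + ((a : ℤ) - b) ^ 2 := by
      linear_combination 2 * h1
    rw [h4]
    have h5 : (u : ℤ) ^ 2 ≤ ((a : ℤ) + b - 1) ^ 2 := by
      have h6 : (0 : ℤ) ≤ (u : ℤ) := Int.natCast_nonneg u
      have h7 : (u : ℤ) ≤ (a : ℤ) + b - 1 := by linarith
      exact pow_le_pow_left₀ h6 h7 2
    have h6 := sq_nonneg ((a : ℤ) - b)
    linarith
  exact_mod_cast h3

theorem eIn_sqG (u : ℕ) (X : Finset (Fin (2 * u + 1))) :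
    u ^ 2 ≤ 4 * eIn (sqG u) X + 1 ∨ u ^ 2 ≤ 4 * eIn (sqG u) Xᶜ + 1 := by
  have h1 : (X ∩ Lw_P u).card + (X \ Lw_P u).card = X.card := Finset.card_inter_add_card_sdiff X _
  have h2 : (Xᶜ ∩ Lw_P u).card + (Xᶜ \ Lw_P u).card = Xᶜ.card :=
    Finset.card_inter_add_card_sdiff Xᶜ _
  have h3 : X.card + Xᶜ.card = 2 * u + 1 := by
    rw [Finset.card_add_card_compl, Fintype.card_fin]
  rcases Nat.lt_or_ge X.card (u + 1) with h | h
  · right
    exact Lw_sq u _ (by omega)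
  · left
    exact Lw_sq u _ (by omega)

theorem lower_sq (u j : ℕ) : ∃ (n : ℕ) (G : SimpleGraph (Fin n)),
    G.edgeSet.ncard = u ^ 2 + j ∧
      ∀ X, u ^ 2 / 4 ≤ eIn G X ∨ u ^ 2 / 4 ≤ eIn G Xᶜ := by
  induction j with
  | zero =>
    refine ⟨2 * u + 1, sqG u, ncard_sqG u, fun X => ?_⟩
    rcases eIn_sqG u X with h | h
    · left; omega
    · right; omega
  | succ j ih => exact lower_succ ih

end Pool.Agent.helper31.JBX
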