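import Pool.Agent.helper31.JBX.Syn
import Pool.Agent.helper81.JB.AlgF1
import Pool.Agent.helper81.JB.AlgF2
import Pool.Agent.helper81.JB.AlgF4

/-!
# JBX-MdP: the state in array 3, and the flips of it

`run_set` (`JB/AlgW`) gives arrays 3 to 9 after `pSet` (`SetUp`); `Iv` gives `Inv`.  Then compute the arrays
10, 14, 11, 15, 13, 12, 3 one after the other: `fs_upd`, `nm_fs`, `val_arr`, `val_adjT`, `val_rankT`.
* `md_run`: `fs 3 = md G τ (ρ 7) (Wv ..) u y (ρ 6)` where `ρ 4 = u`, `ρ 5 = y`; the mode is `ρ 7`.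
* `fl_run`: as in `comp1` (`JB/AlgF1`), with array 3 and the variables 8, ..., 11.
* `cm_fl`, `cm_f4`: the compositions; for `cm_f4` use the proof of `comp4` (`JB/AlgF4`: `AlgF4_loop`,
  `AlgF4_sdiff`) for the class in array 3; array 5 is `Bg` of it (`AlgW_bg` in `JB/AlgW`).
-/

set_option autoImplicit false

open Finset

namespace Pool.Agent.helper31.JBX

open Pool.Agent.helper81.JB
open Pool.Agent.helper81.LC (Tm Pr val run b2n down outp)
open Function (update)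

variable {n : ℕ} {G : SimpleGraph (Fin n)} {w : List Bool} {ρ : Fin 20 → ℕ}
  {A : Fin 16 → ℕ → Bool}

theorem iv_inv (hA : Iv n A) : Inv n A := ⟨hA.all, hA.sup 0, hA.sup 1, hA.sup 2⟩

section MdP

theorem MdP_eq (h : Enc G w) (ρ : Fin 20 → ℕ) (A : Fin 16 → ℕ → Bool) (a : Fin 16) (t : T)
    (S : Finset (Fin n)) (h1 : ∀ v : Fin n, 0 < val w A (update ρ 16 v.val) t ↔ v ∈ S) :
    fs n (run w (.upd a 16 t) ρ A) a = S := by
  rw [fs_upd h]
  ext v
  rw [mem_filter, h1]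
  simp

open Classical in
theorem MdP_10 (h : Enc G w) {y : Fin n} (hy : ρ 5 = y.val) (a b : Fin 16) :
    fs n (run w (.upd a 16 (.mul (.arr b (vr 16)) (adjT (vr 5) (vr 16)))) ρ A) a =
      (fs n A b).filter fun v => G.Adj y v := by
  refine MdP_eq h _ _ _ _ _ fun v => ?_
  rw [algF2_mul, AlgW_arr h, val_adjT h (i := y) (j := v) (by
    rw [AlgW_vi _ (show (5 : Fin 20) ≠ 16 by decide), hy]) (AlgW_v16 _), mem_filter,
    algF2_pos_mul, algF2_pos_if]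

theorem MdP_fk (h : Enc G w) {a : Fin 16} (sa : Sup n A a) (b : Fin 16) :
    fs n (run w (.upd b 16 (.mul (.arr a (vr 16)) (.lt (rankT (vr 16) a) (vr 6)))) ρ A) b =
      firstk (fs n A a) (ρ 6) := by
  refine MdP_eq h _ _ _ _ _ fun v => ?_
  unfold firstk
  rw [algF2_mul, AlgW_arr h, algF2_lt, val_rankT h sa (x := vr 16) (i := v) (by
      intro y; simp [algF2_var]), AlgW_vi _ (show (6 : Fin 20) ≠ 16 by decide), mem_filter,
    algF2_pos_mul, algF2_pos_if]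

theorem MdP_all (h : Enc G w) {c : Fin 16} (sc : Sup n A c) (v : Fin n) :
    val w A (update ρ 16 v.val) (.sum 15 (.mul (.arr c (vr 15)) (notT (adjT (vr 16) (vr 15))))) = 0 ↔
      ∀ j ∈ fs n A c, G.Adj v j := by
  rw [algF2_sum, sum_eq_zero_iff]
  refine ⟨fun hz z hz1 => ?_, fun hz y _ => ?_⟩
  · have h2 := hz z.val (mem_range.2 (AlgT_lt_len h z.isLt))
    rw [algF2_mul, val_arr h (v := z) (by simp [algF2_var]), val_notT,
      val_adjT h (i := v) (j := z) (by simp [algF2_var]) (by simp [algF2_var]),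
      if_pos hz1, one_mul] at h2
    by_contra hna
    rw [if_neg hna, if_pos rfl] at h2
    exact one_ne_zero h2
  · rw [algF2_mul]
    by_cases hy : y < n
    · rw [val_arr h (v := ⟨y, hy⟩) (by simp [algF2_var]), val_notT,
        val_adjT h (i := v) (j := ⟨y, hy⟩) (by simp [algF2_var]) (by simp [algF2_var])]
      by_cases hy1 : (⟨y, hy⟩ : Fin n) ∈ fs n A c
      · rw [if_pos (hz _ hy1)]
        simp
      · rw [if_neg hy1, zero_mul]
    · rw [val_arr_of_sup sc (by simpa [algF2_var] using hy), zero_mul]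

open Classical in
theorem MdP_11 (h : Enc G w) {c : Fin 16} (sc : Sup n A c) {y : Fin n} (hy : ρ 5 = y.val)
    (a b : Fin 16) :
    fs n (run w (.upd a 16 (.mul (.mul (.arr b (vr 16)) (notT (adjT (vr 5) (vr 16))))
      (notT (.sum 15 (.mul (.arr c (vr 15)) (notT (adjT (vr 16) (vr 15)))))))) ρ A) a =
      (Xn G (fs n A b) y).filter fun v => ∀ j ∈ fs n A c, G.Adj v j := by
  refine MdP_eq h _ _ _ _ _ fun v => ?_
  rw [algF2_mul, algF2_mul, AlgW_arr h, val_notT, val_notT,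
    val_adjT h (i := y) (j := v) (by
      rw [AlgW_vi _ (show (5 : Fin 20) ≠ 16 by decide), hy]) (AlgW_v16 _), mem_filter]
  have e1 : v ∈ Xn G (fs n A b) y ↔ v ∈ fs n A b ∧ ¬ G.Adj y v := by
    unfold Xn
    exact mem_filter
  have e2 := MdP_all (ρ := ρ) h sc v
  rw [e1]
  by_cases c1 : v ∈ fs n A b
  · by_cases c2 : G.Adj y v
    · simp [c1, c2]
    · by_cases c3 : ∀ j ∈ fs n A c, G.Adj v j
      · rw [if_pos c1, if_neg c2, if_pos rfl, if_pos (e2.2 c3)]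
        simp only [c1, c2, not_false_eq_true, and_self, true_and, mul_one, zero_lt_one, true_iff]
        exact c3
      · rw [if_pos c1, if_neg c2, if_pos rfl, if_neg (fun hh => c3 (e2.1 hh))]
        simp only [mul_zero, lt_irrefl, false_iff]
        exact fun hh => c3 hh.2
  · simp [c1]

theorem MdP_13 (h : Enc G w) (h0 : fs n A 0 = univ) (a b c d : Fin 16) :
    fs n (run w (.upd a 16 (.mul (.arr 0 (vr 16)) (.add (.mul (.arr b (vr 16)) (notT (.arr c (vr 16))))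
      (.arr d (vr 16))))) ρ A) a = fs n A b \ fs n A c ∪ fs n A d := by
  refine MdP_eq h _ _ _ _ _ fun v => ?_
  rw [algF2_mul, AlgW_arr h, algF2_add, algF2_mul, AlgW_arr h, val_notT, AlgW_arr h, AlgW_arr h, h0,
    mem_union, mem_sdiff]
  by_cases c1 : v ∈ fs n A b <;> by_cases c2 : v ∈ fs n A c <;> by_cases c3 : v ∈ fs n A d <;>
    simp [c1, c2, c3]

theorem MdP_12 (h : Enc G w) (h0 : fs n A 0 = univ) {y : Fin n} (hy : ρ 5 = y.val) (a b : Fin 16) :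
    fs n (run w (.upd a 16 (.mul (.arr 0 (vr 16)) (.add (notT (.arr b (vr 16)))
      (eqT (vr 16) (vr 5))))) ρ A) a = sw (fs n A b) y := by
  refine MdP_eq h _ _ _ _ _ fun v => ?_
  rw [algF2_mul, AlgW_arr h, algF2_add, val_notT, AlgW_arr h, val_eqT, AlgW_v16,
    AlgW_vi _ (show (5 : Fin 20) ≠ 16 by decide), h0, hy, sw, mem_insert, mem_compl]
  have e : v.val = y.val ↔ v = y := Fin.val_inj
  by_cases c1 : v ∈ fs n A b <;> by_cases c2 : v = y <;> simp [c1, c2, e]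

theorem MdP_3 (h : Enc G w) (h0 : fs n A 0 = univ) (a b c d : Fin 16) :
    fs n (run w (.upd a 16 (.mul (.arr 0 (vr 16)) (.add (.add (.mul (eqT (vr 7) (.num 0))
      (.arr b (vr 16))) (.mul (eqT (vr 7) (.num 1)) (.arr c (vr 16)))) (.mul (.lt (.num 1) (vr 7))
      (.arr d (vr 16)))))) ρ A) a =
      if ρ 7 = 0 then fs n A b else if ρ 7 = 1 then fs n A c else fs n A d := by
  refine MdP_eq h _ _ _ _ _ fun v => ?_
  rw [algF2_mul, AlgW_arr h, algF2_add, algF2_add, algF2_mul, algF2_mul, algF2_mul, val_eqT, val_eqT,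
    algF2_lt, algF2_num, algF2_num, AlgW_arr h, AlgW_arr h, AlgW_arr h,
    AlgW_vi _ (show (7 : Fin 20) ≠ 16 by decide), h0]
  rcases Nat.lt_or_ge (ρ 7) 1 with h7 | h7
  · have e0 : ρ 7 = 0 := by omega
    rw [e0]
    by_cases c1 : v ∈ fs n A b <;> simp [c1]
  · rcases Nat.lt_or_ge (ρ 7) 2 with h8 | h8
    · have e0 : ρ 7 = 1 := by omega
      rw [e0]
      by_cases c1 : v ∈ fs n A c <;> simp [c1]
    · have e0 : ρ 7 ≠ 0 := by omega
      have e1 : ρ 7 ≠ 1 := by omega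
      have e2 : 1 < ρ 7 := by omega
      rw [if_neg e0, if_neg e0, if_neg e1, if_neg e1, if_pos e2]
      by_cases c1 : v ∈ fs n A d <;> simp [c1]

end MdP

theorem md_run (h : Enc G w) (hA : Iv n A) {u y : Fin n} (hu : ρ 4 = u.val) (hy : ρ 5 = y.val) :
    fs n (run w (.seq pSet pMd) ρ A) 3 =
      md G (ρ 0) (ρ 7) (Wv (ρ 2) (ρ 3) (ρ 4) (fs n A 1)) u y (ρ 6) := by
  classical
  obtain ⟨-, -, -, -, hset⟩ := run_set (ρ := ρ) h (iv_inv hA)
  have hS := hset u hu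
  have I0 : Iv n (run w pSet ρ A) := iv_run pSet rfl rfl ρ hA
  generalize hB0 : run w pSet ρ A = B0 at hS I0
  set W := Wv (ρ 2) (ρ 3) (ρ 4) (fs n A 1) with hW
  obtain ⟨B1, hB1⟩ : ∃ B, B = run w (.upd 10 16 (.mul (.arr 9 (vr 16)) (adjT (vr 5) (vr 16))) : P)
    ρ B0 := ⟨_, rfl⟩
  obtain ⟨B2, hB2⟩ : ∃ B, B = run w (.upd 14 16 (.mul (.arr 10 (vr 16)) (.lt (rankT (vr 16) 10)
    (vr 6))) : P) ρ B1 := ⟨_, rfl⟩
  obtain ⟨B3, hB3⟩ : ∃ B, B = run w (.upd 11 16 (.mul (.mul (.arr 6 (vr 16))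
    (notT (adjT (vr 5) (vr 16))))
    (notT (.sum 15 (.mul (.arr 14 (vr 15)) (notT (adjT (vr 16) (vr 15))))))) : P) ρ B2 := ⟨_, rfl⟩
  obtain ⟨B4, hB4⟩ : ∃ B, B = run w (.upd 15 16 (.mul (.arr 11 (vr 16)) (.lt (rankT (vr 16) 11)
    (vr 6))) : P) ρ B3 := ⟨_, rfl⟩
  obtain ⟨B5, hB5⟩ : ∃ B, B = run w (.upd 13 16 (.mul (.arr 0 (vr 16)) (.add (.mul (.arr 3 (vr 16))
    (notT (.arr 15 (vr 16)))) (.arr 14 (vr 16)))) : P) ρ B4 := ⟨_, rfl⟩
  obtain ⟨B6, hB6⟩ : ∃ B, B = run w (.upd 12 16 (.mul (.arr 0 (vr 16)) (.add (notT (.arr 3 (vr 16)))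
    (eqT (vr 16) (vr 5)))) : P) ρ B5 := ⟨_, rfl⟩
  have hrun : run w (.seq pSet pMd) ρ A = run w (.upd 3 16 (.mul (.arr 0 (vr 16))
    (.add (.add (.mul (eqT (vr 7) (.num 0)) (.arr 3 (vr 16)))
    (.mul (eqT (vr 7) (.num 1)) (.arr 12 (vr 16)))) (.mul (.lt (.num 1) (vr 7))
    (.arr 13 (vr 16))))) : P) ρ B6 := by
    rw [hB6, hB5, hB4, hB3, hB2, hB1, ← hB0]
    rfl
  have I1 : Iv n B1 := by rw [hB1]; exact iv_run _ rfl rfl ρ I0
  have I2 : Iv n B2 := by rw [hB2]; exact iv_run _ rfl rfl ρ I1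
  have I3 : Iv n B3 := by rw [hB3]; exact iv_run _ rfl rfl ρ I2
  have I4 : Iv n B4 := by rw [hB4]; exact iv_run _ rfl rfl ρ I3
  have I5 : Iv n B5 := by rw [hB5]; exact iv_run _ rfl rfl ρ I4
  have I6 : Iv n B6 := by rw [hB6]; exact iv_run _ rfl rfl ρ I5
  have e1 : ∀ b : Fin 16, b ≠ 10 → fs n B1 b = fs n B0 b := fun b hb => by
    rw [hB1]; exact fs_upd_ne hb _ _
  have e2 : ∀ b : Fin 16, b ≠ 14 → fs n B2 b = fs n B1 b := fun b hb => by
    rw [hB2]; exact fs_upd_ne hb _ _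
  have e3 : ∀ b : Fin 16, b ≠ 11 → fs n B3 b = fs n B2 b := fun b hb => by
    rw [hB3]; exact fs_upd_ne hb _ _
  have e4 : ∀ b : Fin 16, b ≠ 15 → fs n B4 b = fs n B3 b := fun b hb => by
    rw [hB4]; exact fs_upd_ne hb _ _
  have e5 : ∀ b : Fin 16, b ≠ 13 → fs n B5 b = fs n B4 b := fun b hb => by
    rw [hB5]; exact fs_upd_ne hb _ _
  have e6 : ∀ b : Fin 16, b ≠ 12 → fs n B6 b = fs n B5 b := fun b hb => by
    rw [hB6]; exact fs_upd_ne hb _ _
  -- array 14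
  have f14 : fs n B2 14 = cJ G (ρ 0) W u y (ρ 6) := by
    rw [hB2, MdP_fk h (I1.sup 10), hB1, MdP_10 h hy, hS.a9]
    rfl
  -- array 11
  have f11 : fs n B3 11 = cT G (ρ 0) W u y (ρ 6) := by
    rw [hB3, MdP_11 h (I2.sup 14) hy, f14, e2 6 (by decide), e1 6 (by decide), hS.a6]
    rfl
  -- array 15
  have f15 : fs n B4 15 = firstk (cT G (ρ 0) W u y (ρ 6)) (ρ 6) := by
    rw [hB4, MdP_fk h (I3.sup 11), f11]
  -- array 13
  have f3 : fs n B4 3 = W := by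
    rw [e4 3 (by decide), e3 3 (by decide), e2 3 (by decide), e1 3 (by decide), hS.a3]
  have f13 : fs n B5 13 = cX G (ρ 0) W u y (ρ 6) := by
    rw [hB5, MdP_13 h I4.all, f15, f3, e4 14 (by decide), e3 14 (by decide), f14]
    rfl
  -- array 12
  have f3' : fs n B5 3 = W := by rw [e5 3 (by decide), f3]
  have f12 : fs n B6 12 = sw W y := by
    rw [hB6, MdP_12 h I5.all hy, f3']
  rw [hrun, MdP_3 h I6.all, f12, e6 13 (by decide), f13, e6 3 (by decide), f3']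
  rfl

theorem fl_run (h : Enc G w) (hA : Iv n A) :
    fs n (run w pFl ρ A) 12 = f1 (ρ 8) (ρ 9) (ρ 10) (ρ 11) (fs n A 3) := by
  rw [pFl, fs_upd h]
  ext v
  have h0 : val w A (update ρ 16 v.val) (.arr 0 (vr 16)) = 1 := by
    rw [val_arr h (v := v) (by simp [Pool.Agent.helper81.LC.val]), hA.all]
    simp
  have h1 : val w A (update ρ 16 v.val) (.arr 3 (vr 16)) = if v ∈ fs n A 3 then 1 else 0 :=
    val_arr h (v := v) (by simp [Pool.Agent.helper81.LC.val])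
  have he : ∀ i : Fin 20, i ≠ 16 → val w A (update ρ 16 v.val) (eqT (vr 16) (vr i)) =
      if v.val = ρ i then 1 else 0 := by
    intro i hi
    rw [val_eqT]
    simp [Pool.Agent.helper81.LC.val, Function.update_of_ne hi]
  simp only [f1, mem_filter, mem_univ, true_and]
  simp only [AlgF1_mul, AlgF1_add, h0, h1, val_eqT, AlgF1_num]
  have e2 := he 8 (by decide)
  have e3 := he 9 (by decide)
  have e4 := he 10 (by decide)
  have e5 := he 11 (by decide)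
  simp only [val_eqT] at e2 e3 e4 e5
  rw [e2, e3, e4, e5]
  exact AlgF1_key _ _ _ _ _ (by split_ifs <;> omega) (by split_ifs <;> omega)
    (by split_ifs <;> omega) (by split_ifs <;> omega) (by split_ifs <;> omega)

theorem f4_run (h : Enc G w) (hA : Iv n A) :
    fs n (run w pF4' ρ A) 12 = f4 G (ρ 0) (fs n A 3) := by
  have p0 := AlgW_bg h ρ A 5 3 (hA.sup 3)
  generalize hB : run w (.upd 5 16 (.mul (.arr 3 (vr 16))
      (.lt (NT 3 3) (tauT (degT (vr 16) 3)))) : P) ρ A = B at p0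
  have hB' : Iv n B := by rw [← hB]; exact iv_run _ rfl rfl ρ hA
  have b3 : fs n B 3 = fs n A 3 := p0.ne 3 (by decide)
  set A2 := run w (.upd 14 16 (.mul (.arr 3 (vr 16)) (notT (.arr 5 (vr 16)))) : P) ρ B with hA2
  set A3 := run w (.loop 5 AlgF4_body : P) ρ A2 with hA3
  set A4 := run w (.upd 12 16 (.mul (.arr 3 (vr 16)) (notT (.arr 14 (vr 16)))) : P) ρ A3 with hA4
  have hrun : run w pF4' ρ A = A4 := by
    rw [hA4, hA3, hA2, ← hB]
    rfl
  rw [hrun]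
  obtain ⟨e14, s14⟩ := AlgF4_sdiff h (ρ := ρ) (hB'.sup 3) 14 5
  rw [← hA2] at e14 s14
  have I2 : Iv n A2 := by rw [hA2]; exact iv_run _ rfl rfl ρ hB'
  have n2 : ∀ b : Fin 16, b ≠ 14 → fs n A2 b = fs n B b := fun b hb => fs_upd_ne hb _ _
  have J2 : AlgF4_J n (fs n A 3) (fs n A2 1) (fs n A2 2) A2 :=
    ⟨iv_inv I2, rfl, rfl, by rw [n2 3 (by decide), b3], I2.sup 3, s14⟩
  obtain ⟨J3, e3⟩ := AlgF4_loop h (ρ := ρ) w.length J2
  have r3 : down (fun x A' => run w AlgF4_body (update ρ 5 x) A') w.length A2 = A3 := rfl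
  rw [r3] at J3 e3
  obtain ⟨e12, -⟩ := AlgF4_sdiff h (ρ := ρ) J3.s3 12 14
  rw [← hA4] at e12
  rw [e12, J3.e3, e3, e14, h.len, b3, p0.eq]
  rfl

theorem cm_fl (h : Enc G w) : Cm w (.seq (.seq pSet pMd) pFl) fun (ρ : Fin 20 → ℕ) (U F : Finset (Fin n)) =>
    ∃ u y : Fin n, ρ 4 = u.val ∧ ρ 5 = y.val ∧
      F = f1 (ρ 8) (ρ 9) (ρ 10) (ρ 11) (md G (ρ 0) (ρ 7) (Wv (ρ 2) (ρ 3) (ρ 4) U) u y (ρ 6)) := by
  intro ρ A hA
  refine ⟨iv_run _ rfl rfl ρ hA, nm_fs _ rfl ρ A, nm_fs _ rfl ρ A, ?_⟩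
  rintro F ⟨u, y, hu, hy, rfl⟩
  have hI : Iv n (run w (.seq pSet pMd) ρ A) := iv_run _ rfl rfl ρ hA
  have e : run w (.seq (.seq pSet pMd) pFl) ρ A = run w pFl ρ (run w (.seq pSet pMd) ρ A) := rfl
  rw [e, fl_run h hI, md_run h hA hu hy]

theorem cm_f4 (h : Enc G w) : Cm w (.seq (.seq pSet pMd) pF4') fun (ρ : Fin 20 → ℕ) (U F : Finset (Fin n)) =>
    ∃ u y : Fin n, ρ 4 = u.val ∧ ρ 5 = y.val ∧
      F = f4 G (ρ 0) (md G (ρ 0) (ρ 7) (Wv (ρ 2) (ρ 3) (ρ 4) U) u y (ρ 6)) := by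
  intro ρ A hA
  refine ⟨iv_run _ rfl rfl ρ hA, nm_fs _ rfl ρ A, nm_fs _ rfl ρ A, ?_⟩
  rintro F ⟨u, y, hu, hy, rfl⟩
  have hI : Iv n (run w (.seq pSet pMd) ρ A) := iv_run _ rfl rfl ρ hA
  have e : run w (.seq (.seq pSet pMd) pF4') ρ A = run w pF4' ρ (run w (.seq pSet pMd) ρ A) := rfl
  rw [e, f4_run h hI, md_run h hA hu hy]

end Pool.Agent.helper31.JBX
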