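import Pool.Agent.helper31.JBX.As
import Pool.Agent.helper31.JBX.Bd
import Pool.Agent.helper31.JBX.Dv
import Pool.Agent.helper31.JBX.Lw
import Pool.Agent.helper81.JB.Val
import Pool.Agent.helper81.JB.AlgM

/-!
# JBX-Ub: the upper bound for `g(m)` and the values
-/

set_option autoImplicit false

open Finset

namespace Pool.Agent.helper31.JBX

open Pool.Agent.helper81.JB

theorem bdk_div (k m : ℕ) : m / 4 ≤ bdk k m := le_max_left _ _

theorem bdk_two (k m : ℕ) : k * (k + 1) ≤ 2 * bdk k m := by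
  have h1 : k * (k + 1) / 2 ≤ bdk k m := (le_max_left _ _).trans (le_max_right _ _)
  have h2 := Val_even k
  omega

theorem bdk_three (k m : ℕ) : (k + 1) * (k + 2) + 2 * m ≤ 2 * bdk k m + 2 * ((k + 1) * (2 * k + 3)) := by
  have h1 : (k + 1) * (k + 2) / 2 + m - (k + 1) * (2 * k + 3) ≤ bdk k m :=
    (le_max_right _ _).trans (le_max_right _ _)
  have h2 := Val_even (k + 1)
  have h3 : 2 * ((k + 1) * (k + 2) / 2) = (k + 1) * (k + 2) := h2
  omega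

theorem hyp_of {k m : ℕ} (K : ℤ) (hK : 0 ≤ K) (h2 : 2 * (bdk k m : ℤ) < K * (K + 1)) :
    2 * ((m : ℤ) - bdk k m) ≤ K * (3 * K + 1) := by
  have e2 : (k : ℤ) * (k + 1) ≤ 2 * (bdk k m : ℤ) := by exact_mod_cast bdk_two k m
  have e3 : ((k : ℤ) + 1) * (k + 2) + 2 * m ≤ 2 * (bdk k m : ℤ) + 2 * (((k : ℤ) + 1) * (2 * k + 3)) := by
    exact_mod_cast bdk_three k m
  have hk : (k : ℤ) + 1 ≤ K := by
    by_contra hc
    have h3 : K ≤ (k : ℤ) := by omega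
    nlinarith
  nlinarith

theorem eIn_le {n : ℕ} (G : SimpleGraph (Fin n)) (X : Finset (Fin n)) : eIn G X ≤ G.edgeSet.ncard :=
  Set.ncard_le_ncard (fun _ h => h.1) (Set.toFinite _)

theorem ex_good {n : ℕ} {G : SimpleGraph (Fin n)} {k : ℕ} (hn : 2 ≤ n)
    {U : Finset (Fin n)}
    (hU : ∀ F ∈ Fp G (bdk k G.edgeSet.ncard : ℕ) U,
      pot G (bdk k G.edgeSet.ncard : ℕ) F ≤ pot G (bdk k G.edgeSet.ncard : ℕ) U) :
    ∃ F ∈ Fp G (bdk k G.edgeSet.ncard : ℕ) U, good G (bdk k G.edgeSet.ncard : ℕ) F := by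
  by_contra hcon
  push Not at hcon
  set m := G.edgeSet.ncard with hm
  set t : ℕ := bdk k m with ht
  have h1 : m / 4 ≤ t := bdk_div k m
  have w := wld_of_pot (L := 4 * (t : ℤ) - m) hn (by omega) (by positivity)
    (by rw [ncard_eq, ← hm]; ring) hU hcon
  refine no_world w fun K hK h2 => ?_
  have := hyp_of K hK h2
  linarith

/-- a good set in the family of a set with the largest potential -/
theorem ex_set {n : ℕ} (hn : 2 ≤ n) (G : SimpleGraph (Fin n)) (k : ℕ) :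
    ∃ F, good G (bdk k G.edgeSet.ncard : ℕ) F := by
  obtain ⟨U, _, hU⟩ := Finset.exists_max_image (univ : Finset (Finset (Fin n)))
    (pot G (bdk k G.edgeSet.ncard : ℕ)) univ_nonempty
  obtain ⟨F, _, hF⟩ := ex_good hn (k := k) (U := U) fun F _ => hU F (mem_univ _)
  exact ⟨F, hF⟩

theorem good_eIn {n : ℕ} {G : SimpleGraph (Fin n)} {t : ℕ} {F : Finset (Fin n)}
    (h : good G (t : ℕ) F) : eIn G F ≤ t ∧ eIn G Fᶜ ≤ t := by
  have h1 := h.1
  have h2 := h.2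
  rw [← eIn_eq] at h1 h2
  exact ⟨by exact_mod_cast h1, by exact_mod_cast h2⟩

/-- the upper bound -/
theorem gg_le (k m : ℕ) : gg m ≤ bdk k m := by
  refine Nat.sInf_le ?_
  intro n G hG
  rcases Nat.lt_or_ge n 2 with hn | hn
  · refine ⟨∅, ?_, ?_⟩
    · rw [AlgM_small hn]; exact Nat.zero_le _
    · rw [AlgM_small hn]; exact Nat.zero_le _
  · obtain ⟨F, hF⟩ := ex_set hn G k
    rw [hG] at hF
    exact ⟨F, good_eIn hF⟩

/-- the value from a lower bound -/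
theorem gg_val {m t k : ℕ} (hk : bdk k m ≤ t)
    (hlo : ∃ (n : ℕ) (G : SimpleGraph (Fin n)), G.edgeSet.ncard = m ∧
      ∀ X, t ≤ eIn G X ∨ t ≤ eIn G Xᶜ) : gg m = t := by
  refine le_antisymm ((gg_le k m).trans hk) ?_
  obtain ⟨n, G, hG, hX⟩ := hlo
  have hne : {t : ℕ | ∀ (n : ℕ) (G : SimpleGraph (Fin n)), G.edgeSet.ncard = m →
      ∃ X : Finset (Fin n), eIn G X ≤ t ∧ eIn G Xᶜ ≤ t}.Nonempty := by
    refine ⟨m, fun n G hG => ⟨∅, ?_, ?_⟩⟩
    · rw [← hG]; exact eIn_le _ _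
    · rw [← hG]; exact eIn_le _ _
  obtain ⟨X, h1, h2⟩ := Nat.sInf_mem hne n G hG
  rcases hX X with h3 | h3
  · exact h3.trans h1
  · exact h3.trans h2

theorem bdk_r {k r : ℕ} (h1 : r ≤ k + 3) (h2 : r ≤ 4 * k + 2) :
    bdk k (k * (2 * k + 1) + r) ≤ k * (k + 1) / 2 := by
  have e1 := Val_even k
  have e2 : 2 * ((k + 1) * (k + 2) / 2) = (k + 1) * (k + 2) := Val_even (k + 1)
  have h3 : r ≤ 3 * k + 2 := by omega
  refine max_le ?_ (max_le le_rfl ?_)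
  · rw [Nat.div_le_iff_le_mul_add_pred (by norm_num)]
    nlinarith
  · rw [Nat.sub_le_iff_le_add]
    nlinarith

theorem gg_rr {k r : ℕ} (h1 : r ≤ k + 3) (h2 : r ≤ 4 * k + 2) :
    gg (k * (2 * k + 1) + r) = k * (k + 1) / 2 :=
  gg_val (bdk_r h1 h2) (lower_rr k r)

theorem bdk_s {k s : ℕ} (h1 : 3 * s ≤ k + 4) (h2 : s ≤ k + 1) :
    bdk k ((k + 1) * (2 * (k + 1) + 1) - s) ≤ (k + 1) * (k + 1 + 1) / 2 - s := by
  have e1 := Val_even k
  have e2 : 2 * ((k + 1) * (k + 1 + 1) / 2) = (k + 1) * (k + 1 + 1) := Val_even (k + 1)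
  have e3 : (k + 1) * (k + 2) / 2 = (k + 1) * (k + 1 + 1) / 2 := rfl
  have e4 : (k + 1) * (2 * k + 3) = (k + 1) * (2 * (k + 1) + 1) := by ring
  have h3 : s ≤ (k + 1) * (2 * (k + 1) + 1) := by nlinarith
  unfold bdk
  rw [e3, e4]
  generalize (k + 1) * (k + 1 + 1) / 2 = c at e2 ⊢
  obtain ⟨M, hM⟩ : ∃ M, (k + 1) * (2 * (k + 1) + 1) = M + s := ⟨_, (Nat.sub_add_cancel h3).symm⟩
  rw [hM, Nat.add_sub_cancel]
  generalize k * (k + 1) / 2 = d at e1 ⊢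
  have h4 : s ≤ c := by nlinarith
  obtain ⟨c', rfl⟩ : ∃ c', c = c' + s := ⟨_, (Nat.sub_add_cancel h4).symm⟩
  rw [Nat.add_sub_cancel]
  refine max_le ?_ (max_le ?_ ?_)
  · rw [Nat.div_le_iff_le_mul_add_pred (by norm_num)]
    nlinarith
  · nlinarith
  · omega

theorem gg_ss {k s : ℕ} (h0 : 1 ≤ k) (h1 : 3 * s ≤ k + 3) :
    gg (k * (2 * k + 1) - s) = k * (k + 1) / 2 - s := by
  rcases Nat.eq_zero_or_pos s with rfl | hs
  · have := gg_rr (k := k) (r := 0) (by omega) (by omega)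
    simpa using this
  · obtain ⟨k, rfl⟩ : ∃ j, k = j + 1 := ⟨_, (Nat.sub_add_cancel h0).symm⟩
    exact gg_val (bdk_s (by omega) (by omega)) (lower_s (k + 1) s (by omega))

theorem gg_sq {k u m : ℕ} (h1 : u ^ 2 ≤ m) (h2 : bdk k m ≤ u ^ 2 / 4) : gg m = u ^ 2 / 4 := by
  obtain ⟨j, rfl⟩ : ∃ j, m = u ^ 2 + j := ⟨_, (Nat.add_sub_of_le h1).symm⟩
  exact gg_val h2 (lower_sq u j)

theorem bdk_mid {k r : ℕ} (h1 : k ≤ r) (h2 : 3 * r ≤ 11 * k + 8) :
    bdk k (k * (2 * k + 1) + r) ≤ (k * (2 * k + 1) + r) / 4 := by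
  have e1 := Val_even k
  have e2 : 2 * ((k + 1) * (k + 2) / 2) = (k + 1) * (k + 2) := Val_even (k + 1)
  unfold bdk
  refine max_le le_rfl (max_le ?_ ?_)
  · rw [Nat.le_div_iff_mul_le (by norm_num)]
    nlinarith
  · rw [Nat.le_div_iff_mul_le (by norm_num), Nat.sub_mul, Nat.sub_le_iff_le_add]
    nlinarith

/-- `g(m) ≤ m / 4` for two thirds of all `m` -/
theorem gg_mid {k r : ℕ} (h1 : k ≤ r) (h2 : 3 * r ≤ 11 * k + 8) :
    4 * gg (k * (2 * k + 1) + r) ≤ k * (2 * k + 1) + r := by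
  have h3 := (gg_le k (k * (2 * k + 1) + r)).trans (bdk_mid h1 h2)
  omega

end Pool.Agent.helper31.JBX
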