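import Pool.Agent.helper31.JBX.Pas
import Pool.Agent.helper31.JBX.Ub
import Pool.Agent.helper81.LC.Poly

/-!
# JBX-Mn: the algorithmic theorem
-/

set_option autoImplicit false

open Finset

namespace Pool.Agent.helper31.JBX

open Pool.Agent.helper81.JB
open Pool.Agent.helper81.LC (outp)
open Pool.Agent.helper64.LP (PolyTime adjBits)

/-- the output is good for `bdk k m` -/
theorem mn_fin {n : ℕ} {G : SimpleGraph (Fin n)} {w : List Bool} (h : Enc G w) (hn : 2 ≤ n) (k : ℕ) :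
    eIn G (fs n (Pool.Agent.helper81.LC.run w pMn (fun _ => 0) (fun _ _ => false)) 2) ≤
        bdk k G.edgeSet.ncard ∧
      eIn G (fs n (Pool.Agent.helper81.LC.run w pMn (fun _ => 0) (fun _ _ => false)) 2)ᶜ ≤
        bdk k G.edgeSet.ncard := by
  rcases Nat.lt_or_ge (bdk k G.edgeSet.ncard) G.edgeSet.ncard with h1 | h1
  · exact good_eIn (run_mn h hn (h1.trans (AlgM_lt hn G)) fun U hU => ex_good hn hU)
  · exact ⟨(eIn_le _ _).trans h1, (eIn_le _ _).trans h1⟩

theorem algorithm : ∃ f : List Bool → List Bool, PolyTime f ∧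
    ∀ (n : ℕ) (G : SimpleGraph (Fin n)) (Ad : Fin n → Fin n → Bool),
      (∀ i j, Ad i j = true ↔ G.Adj i j) →
      ∃ X : Finset (Fin n), f (adjBits n Ad) = (List.finRange n).map (fun v => decide (v ∈ X)) ∧
        ∀ k, eIn G X ≤ bdk k G.edgeSet.ncard ∧ eIn G Xᶜ ≤ bdk k G.edgeSet.ncard := by
  refine ⟨outp pMn 2 nT, Pool.Agent.helper81.LC.polyTime_outp _ _ _, ?_⟩
  intro n G Ad hA
  have hE : Enc G (adjBits n Ad) := enc_adjBits Ad hA
  refine ⟨_, outp_mn hE, fun k => ?_⟩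
  rcases Nat.lt_or_ge n 2 with hn | hn
  · rw [AlgM_small hn, AlgM_small hn]
    exact ⟨Nat.zero_le _, Nat.zero_le _⟩
  · exact mn_fin hE hn k

end Pool.Agent.helper31.JBX
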