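import Pool.Agent.helper31.JBX.MdP
import Pool.Agent.helper31.JBX.FzP
import Pool.Agent.helper81.JB.AlgR1
import Pool.Agent.helper81.JB.AlgP3

/-!
# JBX-Pas: the pass searches the family `Fp`

`sr_loop`, `sr_seq`, `sr_piece` with `cm_fz`, `cm_f4`, `cm_fl` and `sr_mono` (`w.length = n * n`, `u.val < n * n`,
`n ≤ n * n`, `0, 1, 2 < n * n` as `2 ≤ n`).  `Wv 0 0 u U = U`, `Wv 0 1 u U = sw U u`, `Wv 1 0 u U = Uᶜ`
(`Wv_one` in `JB/AlgR1`), `md 0 W .. = W`, `md 1 W u y = sw W y`, `md 2 W u y t = cX W u y t`; `Uᶜ = f1 n n n n Uᶜ`.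
* `pot_nonneg`, `pot_lt`: `N X Xᶜ ≤ n * n`, `N X X ≤ n * n`, `N (PB) (PB) ≤ n * n`, each `< n * n` for `n ≥ 2`
  (`N X Y ≤ |X| |Y|`, no loops, or `N X X + N X Xᶜ = N X univ ≤ n (n - 1)`), so
  `pot < (2 n^2 + 2) n^4 ≤ n^8`.
* `run_ta`: `(n * n) ^ 4` passes: as `AlgP2_down` (`JB/AlgP2`): after `j` passes the potential has increased by at least `j`
  or a pass did not change anything; the nested loops `down` (four times) amount to `(n * n) ^ 4` passes
  (generalize: for nested loops by induction: a loop of `k` rounds of a program with property `P(m)`: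
  the potential increases by at least `m`, or the family was searched for some `U`, has property `P(k m)`).
* `run_mn`: as `run_main` (`JB/AlgP3`).  `outp_mn`: as `outp_eq`.
-/

set_option autoImplicit false

open Finset

namespace Pool.Agent.helper31.JBX

open Pool.Agent.helper81.JB
open Pool.Agent.helper81.LC (Tm Pr val run b2n down outp)
open Function (update)

variable {n : ℕ} {G : SimpleGraph (Fin n)} {w : List Bool} {ρ : Fin 20 → ℕ}
  {A : Fin 16 → ℕ → Bool}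

/-- an `f1` which does not change anything -/
theorem Pas_f1 (hn : 2 ≤ n) (X : Finset (Fin n)) :
    ∃ p < n * n, ∃ q < n * n, ∃ r < n * n, ∃ s < n * n, X = f1 p q r s X := by
  obtain ⟨p, hp, q, hq, r, hr, s, hs, e⟩ := f1_eq hn X ∅ (by simp)
  refine ⟨p, hp, q, hq, r, hr, s, hs, ?_⟩
  rw [e]
  ext v
  simp [mem_symmDiff]

/-- the states as values of `md` -/
theorem Pas_Sf (hn : 2 ≤ n) {τ : ℤ} {U W : Finset (Fin n)} (hW : W ∈ Sf G τ U) :
    ∃ b < n * n, ∃ u y : Fin n, ∃ t < n * n, ∃ m < n * n,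
      md G τ m (Wv 0 b u.val U) u y t = W := by
  have h4 : 4 ≤ n * n := by nlinarith
  have hnn : n < n * n := by nlinarith
  have v0 : Fin n := ⟨0, by omega⟩
  rw [Sf, Set.mem_ofPred_eq] at hW
  rcases hW with hW | ⟨z, hW⟩ | ⟨z, y, hW⟩ | ⟨z, x, t, ht, hW⟩ | ⟨z, x, t, ht, hW⟩
  · refine ⟨0, by omega, v0, v0, 0, by omega, 0, by omega, ?_⟩
    simp only [md, if_true]
    rw [Wv_zero, hW]
  · refine ⟨1, by omega, z, v0, 0, by omega, 0, by omega, ?_⟩
    simp only [md, if_true]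
    rw [Wv_one, Wv_zero, hW]
  · refine ⟨1, by omega, z, y, 0, by omega, 1, by omega, ?_⟩
    have e : md G τ 1 (Wv 0 1 z.val U) z y 0 = sw (Wv 0 1 z.val U) y := by
      simp only [md, one_ne_zero, if_false, if_true]
    rw [e, Wv_one, Wv_zero, hW]
  · refine ⟨0, by omega, z, x, t, by omega, 2, by omega, ?_⟩
    have e : md G τ 2 (Wv 0 0 z.val U) z x t = cX G τ (Wv 0 0 z.val U) z x t := by
      simp only [md]
      rw [if_neg (by omega), if_neg (by omega)]
    rw [e, Wv_zero, hW]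
  · refine ⟨1, by omega, z, x, t, by omega, 2, by omega, ?_⟩
    have e : md G τ 2 (Wv 0 1 z.val U) z x t = cX G τ (Wv 0 1 z.val U) z x t := by
      simp only [md]
      rw [if_neg (by omega), if_neg (by omega)]
    rw [e, Wv_one, Wv_zero, hW]

/-- the number of adjacent pairs is at most `n * n` -/
theorem Pas_N_le (X Y : Finset (Fin n)) : N G X Y ≤ (n : ℤ) * n := by
  have h1 : N G X Y ≤ ∑ _a ∈ X, (n : ℤ) := by
    rw [N_sum]
    refine Finset.sum_le_sum fun a _ => (N_le_card G Y).trans ?_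
    have := card_finset_fin_le Y
    exact_mod_cast this
  have h2 : ∑ _a ∈ X, (n : ℤ) = (X.card : ℤ) * n := by
    rw [Finset.sum_const, nsmul_eq_mul]
  have h3 : (X.card : ℤ) ≤ n := by
    exact_mod_cast card_finset_fin_le X
  rw [h2] at h1
  exact h1.trans (mul_le_mul_of_nonneg_right h3 (by positivity))

theorem sr_pass (h : Enc G w) (hn : 2 ≤ n) : Sr G w pPs fun ρ U F => F ∈ Fp G (ρ 0) U := by
  have hl := h.len
  have c1 := sr_piece h (cm_fz h)
  have c2 := sr_piece h (cm_f4 h)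
  have c3 := sr_loop (i := 8) (by decide) (sr_loop (i := 9) (by decide)
    (sr_loop (i := 10) (by decide) (sr_loop (i := 11) (by decide) (sr_piece h (cm_fl h)))))
  have c4 := sr_loop (i := 5) (by decide) (sr_loop (i := 6) (by decide)
    (sr_loop (i := 7) (by decide) (sr_seq c2 c3)))
  have c5 := sr_loop (i := 2) (by decide) (sr_loop (i := 3) (by decide)
    (sr_loop (i := 4) (by decide) (sr_seq c1 c4)))
  refine sr_mono c5 ?_
  intro ρ U F hF
  have h4 : 4 ≤ n * n := by nlinarith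
  have v0 : Fin n := ⟨0, by omega⟩
  have hlt : ∀ u : Fin n, u.val < w.length := fun u => AlgT_lt_len h u.isLt
  rw [Fp, Set.mem_ofPred_eq] at hF
  rcases hF with hF | hF | ⟨z, hF⟩ | ⟨W, hW, hF | ⟨p, hp, q, hq, r, hr, s, hs, hF⟩⟩
  · refine ⟨1, by omega, 0, by omega, v0.val, hlt v0, Or.inr ?_⟩
    refine ⟨v0.val, hlt v0, 0, by omega, 0, by omega, Or.inr ?_⟩
    obtain ⟨p, hp, q, hq, r, hr, s, hs, e⟩ := Pas_f1 hn Uᶜ
    refine ⟨p, hl ▸ hp, q, hl ▸ hq, r, hl ▸ hr, s, hl ▸ hs, v0, v0, ?_, ?_, ?_⟩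
    · simp
    · simp
    · rw [hF]
      simpa [md, Wv_compl] using e
  · refine ⟨0, by omega, 0, by omega, v0.val, hlt v0, Or.inl ⟨v0, ?_, ?_⟩⟩
    · simp
    · simpa [Wv_zero] using hF
  · refine ⟨0, by omega, 1, by omega, z.val, hlt z, Or.inl ⟨z, ?_, ?_⟩⟩
    · simp
    · rw [hF]
      simp [Wv_one, Wv_zero]
  · obtain ⟨b, hb, u, y, t, ht, m, hm, e⟩ := Pas_Sf hn hW
    refine ⟨0, by omega, b, hl ▸ hb, u.val, hlt u, Or.inr ?_⟩
    refine ⟨y.val, hlt y, t, hl ▸ ht, m, hl ▸ hm, Or.inl ⟨u, y, ?_, ?_, ?_⟩⟩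
    · simp
    · simp
    · rw [hF, ← e]
      simp
  · obtain ⟨b, hb, u, y, t, ht, m, hm, e⟩ := Pas_Sf hn hW
    refine ⟨0, by omega, b, hl ▸ hb, u.val, hlt u, Or.inr ?_⟩
    refine ⟨y.val, hlt y, t, hl ▸ ht, m, hl ▸ hm, Or.inr ?_⟩
    refine ⟨p, hl ▸ hp, q, hl ▸ hq, r, hl ▸ hr, s, hl ▸ hs, u, y, ?_, ?_, ?_⟩
    · simp
    · simp
    · rw [hF, ← e]
      simp

theorem pot_nonneg (τ : ℤ) (X : Finset (Fin n)) : 0 ≤ pot G τ X := by
  have h1 := N_nonneg G X Xᶜ
  have h2 := N_nonneg G X X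
  have h3 := Pas_N_le (G := G) (PB G τ X) (PB G τ X)
  have h4 : (0 : ℤ) ≤ n * n := by positivity
  have h5 : (0 : ℤ) ≤ if τ + 1 ≤ E G X then 1 else 0 := by split_ifs <;> norm_num
  unfold pot
  have h6 : 0 ≤ (2 * N G X Xᶜ + (if τ + 1 ≤ E G X then 1 else 0)) * ((n : ℤ) * n) :=
    mul_nonneg (by linarith) h4
  have h7 := mul_nonneg (add_nonneg h6 (sub_nonneg.2 h3)) h4
  linarith

theorem pot_lt (hn : 2 ≤ n) (τ : ℤ) (X : Finset (Fin n)) : pot G τ X < ((n * n) ^ 4 : ℕ) := by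
  have h1 := Pas_N_le (G := G) X Xᶜ
  have h2 := Pas_N_le (G := G) X X
  have h3 := N_nonneg G (PB G τ X) (PB G τ X)
  have h4 : (4 : ℤ) ≤ n * n := by
    have : 4 ≤ n * n := by nlinarith
    exact_mod_cast this
  have h5 : (if τ + 1 ≤ E G X then 1 else 0 : ℤ) ≤ 1 := by split_ifs <;> norm_num
  unfold pot
  push_cast
  generalize N G X Xᶜ = c at h1 ⊢
  generalize N G X X = e at h2 ⊢
  generalize N G (PB G τ X) (PB G τ X) = p at h3 ⊢
  generalize (if τ + 1 ≤ E G X then 1 else 0 : ℤ) = i at h5 ⊢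
  generalize (n : ℤ) * n = M at h1 h2 h4 ⊢
  have h6 : (2 * c + i) * M ≤ (2 * M + 1) * M :=
    mul_le_mul_of_nonneg_right (by linarith) (by linarith)
  have h7 : ((2 * c + i) * M + (M - p)) * M ≤ ((2 * M + 1) * M + M) * M :=
    mul_le_mul_of_nonneg_right (by linarith) (by linarith)
  have h8 : ((2 * M + 1) * M + M) * M + M < M ^ 4 := by
    have g1 : 0 ≤ (M - 4) * M ^ 3 := mul_nonneg (by linarith) (by positivity)
    have g2 : 0 ≤ (M - 4) * M ^ 2 := mul_nonneg (by linarith) (by positivity)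
    have g3 : 0 ≤ (M - 4) * M := mul_nonneg (by linarith) (by linarith)
    nlinarith
  linarith

/-- `p` increases the potential by `m`, or the family of some class was searched -/
def Pas_Q (G : SimpleGraph (Fin n)) (w : List Bool) (m : ℤ) (p : P) : Prop :=
  ∀ (ρ : Fin 20 → ℕ) (A : Fin 16 → ℕ → Bool), Iv n A → Iv n (run w p ρ A) ∧
    (∀ σ : ℤ, (ρ 0 : ℤ) ≤ σ → good G σ (fs n A 2) → good G σ (fs n (run w p ρ A) 2)) ∧
    (pot G (ρ 0) (fs n A 1) + m ≤ pot G (ρ 0) (fs n (run w p ρ A) 1) ∨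
      ∃ U, ∀ F ∈ Fp G (ρ 0) U, pot G (ρ 0) F ≤ pot G (ρ 0) U ∧
        (good G (ρ 0) F → good G (ρ 0) (fs n (run w p ρ A) 2)))

theorem Pas_Q_one (h : Enc G w) (hn : 2 ≤ n) : Pas_Q G w 1 pPs := by
  intro ρ A hA
  obtain ⟨h1, h2, h3, h4⟩ := sr_pass h hn ρ A hA
  refine ⟨h1, h3, ?_⟩
  by_cases hc : pot G (ρ 0) (fs n (run w pPs ρ A) 1) ≤ pot G (ρ 0) (fs n A 1)
  · exact Or.inr ⟨fs n A 1, (h4 hc).2⟩
  · left
    omega

theorem Pas_Q_loop {m : ℤ} {p : P} (hp : Pas_Q G w m p) :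
    Pas_Q G w (w.length * m) (.loop 1 p) := by
  intro ρ
  have h0 : ∀ x : ℕ, (update ρ 1 x) 0 = ρ 0 := fun x =>
    Function.update_of_ne (by decide) x ρ
  have key : ∀ (k : ℕ) (A : Fin 16 → ℕ → Bool), Iv n A →
      Iv n (down (fun x A' => run w p (update ρ 1 x) A') k A) ∧
      (∀ σ : ℤ, (ρ 0 : ℤ) ≤ σ → good G σ (fs n A 2) →
        good G σ (fs n (down (fun x A' => run w p (update ρ 1 x) A') k A) 2)) ∧
      (pot G (ρ 0) (fs n A 1) + k * m ≤
          pot G (ρ 0) (fs n (down (fun x A' => run w p (update ρ 1 x) A') k A) 1) ∨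
        ∃ U, ∀ F ∈ Fp G (ρ 0) U, pot G (ρ 0) F ≤ pot G (ρ 0) U ∧
          (good G (ρ 0) F →
            good G (ρ 0) (fs n (down (fun x A' => run w p (update ρ 1 x) A') k A) 2))) := by
    intro k
    induction k with
    | zero =>
      intro A hA
      refine ⟨hA, fun σ _ hg => hg, Or.inl ?_⟩
      simp [down]
    | succ k ih =>
      intro A hA
      obtain ⟨h1, h2, h3⟩ := hp (update ρ 1 k) A hA
      rw [h0] at h2 h3
      obtain ⟨g1, g2, g3⟩ := ih (run w p (update ρ 1 k) A) h1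
      have e : down (fun x A' => run w p (update ρ 1 x) A') (k + 1) A =
          down (fun x A' => run w p (update ρ 1 x) A') k (run w p (update ρ 1 k) A) := rfl
      rw [e]
      refine ⟨g1, fun σ hσ hg => g2 σ hσ (h2 σ hσ hg), ?_⟩
      rcases h3 with h3 | ⟨U, h3⟩
      · rcases g3 with g3 | g3
        · left
          push_cast
          linarith
        · exact Or.inr g3
      · right
        refine ⟨U, fun F hF => ?_⟩
        obtain ⟨e1, e2⟩ := h3 F hF
        exact ⟨e1, fun hgF => g2 _ le_rfl (e2 hgF)⟩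
  intro A hA
  exact key w.length A hA

theorem run_ta (h : Enc G w) (hn : 2 ≤ n) (hA : Iv n A) :
    Iv n (run w (.loop 1 (.loop 1 (.loop 1 (.loop 1 pPs)))) ρ A) ∧
    (∀ σ : ℤ, (ρ 0 : ℤ) ≤ σ → good G σ (fs n A 2) →
      good G σ (fs n (run w (.loop 1 (.loop 1 (.loop 1 (.loop 1 pPs)))) ρ A) 2)) ∧
    ∃ U, ∀ F ∈ Fp G (ρ 0) U, pot G (ρ 0) F ≤ pot G (ρ 0) U ∧
      (good G (ρ 0) F →
        good G (ρ 0) (fs n (run w (.loop 1 (.loop 1 (.loop 1 (.loop 1 pPs)))) ρ A) 2)) := by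
  have hl := h.len
  obtain ⟨h1, h2, h3⟩ := Pas_Q_loop (Pas_Q_loop (Pas_Q_loop (Pas_Q_loop (Pas_Q_one h hn)))) ρ A hA
  refine ⟨h1, h2, ?_⟩
  rcases h3 with h3 | h3
  · exfalso
    have e1 := pot_nonneg (G := G) (ρ 0 : ℤ) (fs n A 1)
    have e2 := pot_lt (G := G) hn (ρ 0 : ℤ)
      (fs n (run w (.loop 1 (.loop 1 (.loop 1 (.loop 1 pPs)))) ρ A) 1)
    have e3 : (w.length : ℤ) * (w.length * (w.length * (w.length * 1))) =
        ((n * n) ^ 4 : ℕ) := by
      rw [hl]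
      push_cast
      ring
    rw [e3] at h3
    linarith
  · exact h3

/-- the state after `pV` -/
theorem Pas_init (h : Enc G w) : Iv n (run w pV (fun _ => 0) (fun _ _ => false)) := by
  have h1 := AlgP3_init h
  refine ⟨h1.all, fun a => ?_⟩
  by_cases ha : a = 0
  · rw [ha]
    exact h1.s0
  · refine (sup_upd_ne ha 16 _).2 ?_
    intro x hx
    simp at hx

/-- the loop over `τ` -/
theorem Pas_down (h : Enc G w) (hn : 2 ≤ n) {τ : ℕ}
    (H : ∀ U, (∀ F ∈ Fp G τ U, pot G τ F ≤ pot G τ U) → ∃ F ∈ Fp G τ U, good G τ F)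
    (ρ : Fin 20 → ℕ) :
    ∀ (k : ℕ) (A : Fin 16 → ℕ → Bool), Iv n A → (τ < k ∨ good G τ (fs n A 2)) →
      good G τ (fs n (down (fun x A' => run w (.loop 1 (.loop 1 (.loop 1 (.loop 1 pPs))))
        (update ρ 0 x) A') k A) 2) := by
  intro k
  induction k with
  | zero =>
    intro A _ hg
    rcases hg with hg | hg
    · exact absurd hg (Nat.not_lt_zero τ)
    · exact hg
  | succ k ih =>
    intro A hA hg
    have e : down (fun x A' => run w (.loop 1 (.loop 1 (.loop 1 (.loop 1 pPs))))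
        (update ρ 0 x) A') (k + 1) A =
        down (fun x A' => run w (.loop 1 (.loop 1 (.loop 1 (.loop 1 pPs)))) (update ρ 0 x) A') k
          (run w (.loop 1 (.loop 1 (.loop 1 (.loop 1 pPs)))) (update ρ 0 k) A) := rfl
    rw [e]
    obtain ⟨I1, g1, U, hU⟩ := run_ta h hn (ρ := update ρ 0 k) hA
    have h0 : (update ρ 0 k) 0 = k := Function.update_self _ _ _
    rw [h0] at g1 hU
    refine ih _ I1 ?_
    rcases lt_trichotomy τ k with hlt | heq | hgt
    · exact Or.inl hlt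
    · right
      subst heq
      obtain ⟨F, hF, hgF⟩ := H U fun F hF => (hU F hF).1
      exact (hU F hF).2 hgF
    · right
      rcases hg with hg | hg
      · omega
      · exact g1 _ (by exact_mod_cast hgt.le) hg

theorem run_mn (h : Enc G w) (hn : 2 ≤ n) {τ : ℕ} (hτ : τ < n * n)
    (H : ∀ U, (∀ F ∈ Fp G τ U, pot G τ F ≤ pot G τ U) → ∃ F ∈ Fp G τ U, good G τ F) :
    good G τ (fs n (run w pMn (fun _ => 0) (fun _ _ => false)) 2) := by
  have e : run w pMn (fun _ => 0) (fun _ _ => false) =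
      down (fun x A' => run w (.loop 1 (.loop 1 (.loop 1 (.loop 1 pPs))))
        (update (fun _ => 0 : Fin 20 → ℕ) 0 x) A')
        w.length (run w pV (fun _ => 0) (fun _ _ => false)) := rfl
  rw [e, h.len]
  exact Pas_down h hn H _ (n * n) _ (Pas_init h) (Or.inl hτ)

theorem outp_mn (h : Enc G w) :
    outp pMn 2 nT w = (List.finRange n).map fun v =>
      decide (v ∈ fs n (run w pMn (fun _ => 0) (fun _ _ => false)) 2) := by
  have hn : val w (run w pMn (fun _ => 0) (fun _ _ => false)) (fun _ => 0) nT = n :=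
    val_nT h
  unfold outp
  rw [hn, h.len, ← List.map_take, List.take_range, min_eq_left (Nat.le_mul_self n)]
  generalize run w pMn (fun _ => 0) (fun _ _ => false) = B
  rw [← List.map_coe_finRange_eq_range, List.map_map]
  refine List.map_congr_left fun v _ => ?_
  simp only [Function.comp, mem_fs]
  cases B 2 v.val <;> simp

end Pool.Agent.helper31.JBX
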