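import Pool.Agent.helper31.JBX.Defs
import Pool.Agent.helper81.JB.AlgF

/-!
# JBX-Prog: the potential, the families and the program

Arrays as in `JB/Alg.lean`: 0 all vertices, 1 the current class `U`, 2 the output, 3 `W`, 4 `sw W u`,
5 `Bg W`, 6 `Zr W`, 7 `Bg (sw W u)`, 8 `Zr (sw W u)`, 9 `Zp W u`, 12 the new set, the others scratch.
Variables: 0 `τ`, 1 the number of the pass, 2, 3, 4 as in `Wv`, 5 a vertex, 6 the length of the chain, 7 the mode,
8, 9, 10, 11 the vertices which are flipped; 14, ..., 19 are bound in updates and sums.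
-/

set_option autoImplicit false

open Finset

namespace Pool.Agent.helper31.JBX

open Pool.Agent.helper81.JB
open Pool.Agent.helper81.LC (Tm Pr val run b2n down outp)
open Function (update)

/-! ## Mathematical definitions -/

section
variable {n : ℕ}

open Classical in
/-- the potential: first the cut, then a heavy class, then few edges between big vertices of the class,
then many edges in the class -/
noncomputable def pot (G : SimpleGraph (Fin n)) (τ : ℤ) (X : Finset (Fin n)) : ℤ :=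
  ((2 * N G X Xᶜ + (if τ + 1 ≤ E G X then 1 else 0)) * (n * n) +
    (n * n - N G (PB G τ X) (PB G τ X))) * (n * n) + N G X X

/-- the state: `W`, or `W` with `y` moved and the classes exchanged, or the chain -/
noncomputable def md (G : SimpleGraph (Fin n)) (τ : ℤ) (m : ℕ) (W : Finset (Fin n)) (u y : Fin n) (t : ℕ) :
    Finset (Fin n) :=
  if m = 0 then W else if m = 1 then sw W y else cX G τ W u y t

/-- the sets considered in a pass which does not change the current class `U` -/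
def Fp (G : SimpleGraph (Fin n)) (τ : ℤ) (U : Finset (Fin n)) : Set (Finset (Fin n)) :=
  {F | F = Uᶜ ∨ F = fZ G τ U ∨ (∃ z, F = fZ G τ (sw U z)) ∨ ∃ W ∈ Sf G τ U, F = f4 G τ W ∨
    ∃ p < n * n, ∃ q < n * n, ∃ r < n * n, ∃ s < n * n, F = f1 p q r s W}

end

/-! ## Programs -/

/-- all entries of array `a` not in array `b` -/
def pCp (a b : Fin 16) : P := .upd a 16 (.mul (.arr 0 (vr 16)) (notT (.arr b (vr 16))))

/-- the condition that `vr 16` is big, for the class `x` with complement `xc` -/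
def bigT (x xc : Fin 16) : T :=
  .lt (NT x xc) (.add (degT (vr 16) 0) (.add (tauT (.num 0)) (.num 1)))

/-- array `a`: the big vertices of `x` -/
def pPB (a x xc : Fin 16) : P := .upd a 16 (.mul (.arr x (vr 16)) (bigT x xc))

/-- the potential of the class `x` with complement `xc` and big vertices `b` -/
def potT (x xc b : Fin 16) : T :=
  .add (.mul (.add (.mul (.add (.mul (.num 2) (NT x xc)) (.lt (tauT (.num 0)) (NT x x))) .size)
    (.sub .size (NT b b))) .size) (NT x x)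

/-- consider the set in array 12 -/
def pCo : P := sq [
  pCp 13 12,
  .ite (.mul (.lt (NT 12 12) (tauT (.num 0))) (.lt (NT 13 13) (tauT (.num 0))))
    (.upd 2 16 (.arr 12 (vr 16))) .skip,
  pCp 11 1, pPB 10 1 11, pPB 14 12 13,
  .ite (.lt (potT 1 11 10) (potT 12 13 14)) (.upd 1 16 (.arr 12 (vr 16))) .skip]

/-- array 3: the state (after `pSet`) -/
def pMd : P := sq [
  .upd 10 16 (.mul (.arr 9 (vr 16)) (adjT (vr 5) (vr 16))),
  .upd 14 16 (.mul (.arr 10 (vr 16)) (.lt (rankT (vr 16) 10) (vr 6))),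
  .upd 11 16 (.mul (.mul (.arr 6 (vr 16)) (notT (adjT (vr 5) (vr 16))))
    (notT (.sum 15 (.mul (.arr 14 (vr 15)) (notT (adjT (vr 16) (vr 15))))))),
  .upd 15 16 (.mul (.arr 11 (vr 16)) (.lt (rankT (vr 16) 11) (vr 6))),
  .upd 13 16 (.mul (.arr 0 (vr 16)) (.add (.mul (.arr 3 (vr 16)) (notT (.arr 15 (vr 16))))
    (.arr 14 (vr 16)))),
  .upd 12 16 (.mul (.arr 0 (vr 16)) (.add (notT (.arr 3 (vr 16))) (eqT (vr 16) (vr 5)))),
  .upd 3 16 (.mul (.arr 0 (vr 16)) (.add (.add (.mul (eqT (vr 7) (.num 0)) (.arr 3 (vr 16)))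
    (.mul (eqT (vr 7) (.num 1)) (.arr 12 (vr 16)))) (.mul (.lt (.num 1) (vr 7)) (.arr 13 (vr 16)))))]

/-- array 12: array 3 with up to four vertices flipped -/
def pFl : P := .upd 12 16 (.mul (.arr 0 (vr 16))
  (let s := Tm.add (.add (.add (.add (.arr 3 (vr 16)) (eqT (vr 16) (vr 8))) (eqT (vr 16) (vr 9)))
    (eqT (vr 16) (vr 10))) (eqT (vr 16) (vr 11))
  .add (.add (eqT s (.num 1)) (eqT s (.num 3))) (eqT s (.num 5))))

/-- array 12: `f4` of array 3 -/
def pF4' : P := .seq (.upd 5 16 (.mul (.arr 3 (vr 16)) (.lt (NT 3 3) (tauT (degT (vr 16) 3))))) pF4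

/-- ordered pairs of different nonadjacent vertices -/
def MoT (a b : Fin 16) : T := .sum 17 (.sum 18 (.mul (.mul (.arr a (vr 17)) (.arr b (vr 18)))
  (.mul (notT (eqT (vr 17) (vr 18))) (notT (adjT (vr 17) (vr 18))))))

/-- the condition `zc` for the array `a` (array 3: `W`, 5: `Bg W`, 14: `W \ Bg W`) -/
def zcT (a : Fin 16) : T := .lt (.add (NT 3 3) (.mul (.num 2) (NT a 14)))
  (.add (.add (.mul (.num 2) (MoT a 5)) (MoT a a)) (tauT (.num 0)))

/-- the body of the removal -/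
def pRb : P := .seq (.upd 11 16 (.mul (.arr 10 (vr 16)) (notT (eqT (vr 16) (vr 5)))))
  (.ite (.mul (.arr 10 (vr 5)) (zcT 11)) (.upd 10 16 (.arr 11 (vr 16))) .skip)

/-- array 12: `fZ` (after `pSet`) -/
def pFz : P := sq [
  pCp 13 3,
  .upd 10 16 (.mul (.arr 13 (vr 16)) (bigT 3 13)),
  .upd 14 16 (.mul (.arr 3 (vr 16)) (notT (.arr 5 (vr 16)))),
  .loop 6 (.loop 5 pRb),
  .upd 11 16 (.mul (.arr 6 (vr 16)) (notT (.add (.add
    (.sum 15 (.mul (.arr 5 (vr 15)) (.mul (notT (eqT (vr 16) (vr 15)))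
      (notT (adjT (vr 16) (vr 15))))))
    (.sum 15 (.mul (.arr 14 (vr 15)) (adjT (vr 16) (vr 15)))))
    (.sum 15 (.mul (.arr 10 (vr 15)) (notT (adjT (vr 16) (vr 15)))))))),
  .upd 15 16 (.mul (.arr 11 (vr 16)) (.lt (rankT (vr 16) 11) (cardT 10))),
  .upd 12 16 (.mul (.arr 0 (vr 16)) (.add (.mul (.arr 3 (vr 16)) (notT (.arr 15 (vr 16))))
    (.arr 10 (vr 16))))]

/-- one pass -/
def pPs : P := .loop 2 (.loop 3 (.loop 4 (.seq (.seq (.seq pSet pFz) pCo)
  (.loop 5 (.loop 6 (.loop 7 (.seq (.seq (.seq (.seq pSet pMd) pF4') pCo)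
    (.loop 8 (.loop 9 (.loop 10 (.loop 11 (.seq (.seq (.seq pSet pMd) pFl) pCo))))))))))))

/-- the whole program -/
def pMn : P := .seq pV (.loop 0 (.loop 1 (.loop 1 (.loop 1 (.loop 1 pPs)))))

/-! ## Predicates -/

/-- the invariant of the arrays -/
structure Iv (n : ℕ) (A : Fin 16 → ℕ → Bool) : Prop where
  all : fs n A 0 = univ
  sup : ∀ a, Sup n A a

variable {n : ℕ}

/-- `p` searches the family `Φ` for larger values of the potential and for good sets -/
def Sr (G : SimpleGraph (Fin n)) (w : List Bool) (p : P) (Φ : Fam n) : Prop :=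
  ∀ (ρ : Fin 20 → ℕ) (A : Fin 16 → ℕ → Bool), Iv n A →
    Iv n (run w p ρ A) ∧
    pot G (ρ 0) (fs n A 1) ≤ pot G (ρ 0) (fs n (run w p ρ A) 1) ∧
    (∀ σ : ℤ, (ρ 0 : ℤ) ≤ σ → good G σ (fs n A 2) → good G σ (fs n (run w p ρ A) 2)) ∧
    (pot G (ρ 0) (fs n (run w p ρ A) 1) ≤ pot G (ρ 0) (fs n A 1) →
      fs n (run w p ρ A) 1 = fs n A 1 ∧
      ∀ F, Φ ρ (fs n A 1) F → pot G (ρ 0) F ≤ pot G (ρ 0) (fs n A 1) ∧
        (good G (ρ 0) F → good G (ρ 0) (fs n (run w p ρ A) 2)))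

/-- `p` computes the sets of the family `Φ` in array 12 -/
def Cm (w : List Bool) (p : P) (Φ : Fam n) : Prop :=
  ∀ (ρ : Fin 20 → ℕ) (A : Fin 16 → ℕ → Bool), Iv n A →
    Iv n (run w p ρ A) ∧ fs n (run w p ρ A) 1 = fs n A 1 ∧
    fs n (run w p ρ A) 2 = fs n A 2 ∧
    ∀ F, Φ ρ (fs n A 1) F → fs n (run w p ρ A) 12 = F

end Pool.Agent.helper31.JBX
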