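import Pool.Agent.helper31.JBX.Prog

/-!
# JBX-Syn: syntactic facts about programs

* `gdT i t`: the value of `t` is `0` if variable `i` is `≥ n` and all arrays have no entries `≥ n`
  (`t = .arr b (vr i)`, `t = .mul s t'` with `gdT i s`, `t = .add s s'` with both).
* `gdP p`: every update in `p` is guarded; `allSup_run`: induction on `p` (`sup_upd`, `sup_upd_ne`;
  for `loop` the function `down`).
* `nmP b p`: `p` does not update array `b`; `nm_run`: induction on `p`.
* `iv_run`: both.  For concrete programs use `iv_run (by decide) (by decide)` or `rfl`.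
* `sr_seq, sr_loop, sr_mono`: copy the proofs of `srch_seq, srch_loop, srch_mono` (`JB/AlgS`) with `pot G (ρ 0)`
  instead of `cutN G` (`(update ρ i x) 0 = ρ 0` for `i ≠ 0`).
-/

set_option autoImplicit false

open Finset

namespace Pool.Agent.helper31.JBX

open Pool.Agent.helper81.JB
open Pool.Agent.helper81.LC (Tm Pr val run b2n down outp)
open Function (update)

/-- guarded terms -/
def gdT (i : Fin 20) : T → Bool
  | .arr _ (.var j) => i == j
  | .mul s _ => gdT i s
  | .add s t => gdT i s && gdT i t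
  | _ => false

/-- all updates are guarded -/
def gdP : P → Bool
  | .skip => true
  | .upd _ i t => gdT i t
  | .seq p q => gdP p && gdP q
  | .loop _ p => gdP p
  | .ite _ p q => gdP p && gdP q

/-- array `b` is not updated -/
def nmP (b : Fin 16) : P → Bool
  | .skip => true
  | .upd a _ _ => a != b
  | .seq p q => nmP b p && nmP b q
  | .loop _ p => nmP b p
  | .ite _ p q => nmP b p && nmP b q

variable {n : ℕ} {G : SimpleGraph (Fin n)} {w : List Bool} {ρ : Fin 20 → ℕ}
  {A : Fin 16 → ℕ → Bool}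

theorem Syn_gdT (hA : ∀ a, Sup n A a) (i : Fin 20) : ∀ t : T, gdT i t = true →
    ∀ (ρ : Fin 20 → ℕ) (x : ℕ), n ≤ x → val w A (update ρ i x) t = 0 := by
  intro t
  induction t with
  | num c => intro h; simp [gdT] at h
  | size => intro h; simp [gdT] at h
  | var j => intro h; simp [gdT] at h
  | inp t _ => intro h; simp [gdT] at h
  | sub s t _ _ => intro h; simp [gdT] at h
  | lt s t _ _ => intro h; simp [gdT] at h
  | sum j t _ => intro h; simp [gdT] at h
  | arr a t _ =>
    intro h ρ x hx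
    cases t with
    | var j =>
      have hj : i = j := by simpa [gdT] using h
      subst hj
      refine val_arr_of_sup (hA a) ?_
      simpa [helper81.LC.val] using hx
    | num c => simp [gdT] at h
    | size => simp [gdT] at h
    | inp t => simp [gdT] at h
    | arr b t => simp [gdT] at h
    | add s t => simp [gdT] at h
    | mul s t => simp [gdT] at h
    | sub s t => simp [gdT] at h
    | lt s t => simp [gdT] at h
    | sum j t => simp [gdT] at h
  | mul s t ihs _ =>
    intro h ρ x hx
    have h1 : gdT i s = true := by simpa [gdT] using h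
    simp only [helper81.LC.val, ihs h1 ρ x hx, zero_mul]
  | add s t ihs iht =>
    intro h ρ x hx
    have h1 : gdT i s = true ∧ gdT i t = true := by simpa [gdT] using h
    simp only [helper81.LC.val, ihs h1.1 ρ x hx, iht h1.2 ρ x hx, add_zero]

theorem allSup_run (p : P) (hp : gdP p = true) (ρ : Fin 20 → ℕ) (A : Fin 16 → ℕ → Bool)
    (hA : ∀ a, Sup n A a) : ∀ a, Sup n (run w p ρ A) a := by
  induction p generalizing ρ A with
  | skip => exact hA
  | upd a i t =>
    intro b
    by_cases hb : b = a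
    · subst hb
      exact sup_upd b i t (Syn_gdT hA i t hp ρ)
    · exact (sup_upd_ne hb i t).2 (hA b)
  | seq p q ihp ihq =>
    have h1 : gdP p = true ∧ gdP q = true := by simpa [gdP] using hp
    exact ihq h1.2 ρ _ (ihp h1.1 ρ A hA)
  | loop i p ih =>
    have h1 : gdP p = true := hp
    have key : ∀ (N : ℕ) (A : Fin 16 → ℕ → Bool), (∀ a, Sup n A a) →
        ∀ a, Sup n (down (fun x A' => run w p (update ρ i x) A') N A) a := by
      intro N
      induction N with
      | zero => intro A hA; exact hA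
      | succ N ihN => intro A hA; exact ihN _ (ih h1 (update ρ i N) A hA)
    exact key w.length A hA
  | ite t p q ihp ihq =>
    have h1 : gdP p = true ∧ gdP q = true := by simpa [gdP] using hp
    intro a
    simp only [run]
    split_ifs
    · exact ihp h1.1 ρ A hA a
    · exact ihq h1.2 ρ A hA a

theorem nm_run (p : P) {b : Fin 16} (hp : nmP b p = true) (ρ : Fin 20 → ℕ)
    (A : Fin 16 → ℕ → Bool) : run w p ρ A b = A b := by
  induction p generalizing ρ A with
  | skip => rfl
  | upd a i t =>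
    have hb : a ≠ b := by simpa [nmP] using hp
    exact Function.update_of_ne (Ne.symm hb) _ A
  | seq p q ihp ihq =>
    have h1 : nmP b p = true ∧ nmP b q = true := by simpa [nmP] using hp
    exact (ihq h1.2 ρ _).trans (ihp h1.1 ρ A)
  | loop i p ih =>
    have h1 : nmP b p = true := hp
    have key : ∀ (N : ℕ) (A : Fin 16 → ℕ → Bool),
        down (fun x A' => run w p (update ρ i x) A') N A b = A b := by
      intro N
      induction N with
      | zero => intro A; rfl
      | succ N ihN => intro A; exact (ihN _).trans (ih h1 (update ρ i N) A)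
    exact key w.length A
  | ite t p q ihp ihq =>
    have h1 : nmP b p = true ∧ nmP b q = true := by simpa [nmP] using hp
    simp only [run]
    split_ifs
    · exact ihp h1.1 ρ A
    · exact ihq h1.2 ρ A

theorem nm_fs (p : P) {b : Fin 16} (hp : nmP b p = true) (ρ : Fin 20 → ℕ)
    (A : Fin 16 → ℕ → Bool) : fs n (run w p ρ A) b = fs n A b := by
  simp only [fs, nm_run p hp ρ A]

theorem iv_run (p : P) (h1 : gdP p = true) (h2 : nmP 0 p = true) (ρ : Fin 20 → ℕ)
    {A : Fin 16 → ℕ → Bool} (hA : Iv n A) : Iv n (run w p ρ A) :=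
  ⟨(nm_fs p h2 ρ A).trans hA.all, allSup_run p h1 ρ A hA.sup⟩

theorem sr_seq {p q : P} {Φ Ψ : Fam n} (hp : Sr G w p Φ) (hq : Sr G w q Ψ) :
    Sr G w (.seq p q) fun ρ U F => Φ ρ U F ∨ Ψ ρ U F := by
  intro ρ A hA
  obtain ⟨I1, c1, g1, s1⟩ := hp ρ A hA
  obtain ⟨I2, c2, g2, s2⟩ := hq ρ (run w p ρ A) I1
  have e : run w (.seq p q) ρ A = run w q ρ (run w p ρ A) := rfl
  rw [e]
  refine ⟨I2, c1.trans c2, fun σ hσ hg => g2 σ hσ (g1 σ hσ hg), fun hle => ?_⟩
  obtain ⟨e1, f1⟩ := s1 (c2.trans hle)
  obtain ⟨e2, f2⟩ := s2 (hle.trans c1)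
  refine ⟨e2.trans e1, fun F hF => ?_⟩
  rcases hF with hF | hF
  · obtain ⟨h1, h2⟩ := f1 F hF
    exact ⟨h1, fun hg => g2 _ le_rfl (h2 hg)⟩
  · rw [← e1] at hF ⊢
    exact f2 F hF

theorem sr_loop {p : P} {Φ : Fam n} {i : Fin 20} (hi : i ≠ 0) (hp : Sr G w p Φ) :
    Sr G w (.loop i p) fun ρ U F => ∃ x < w.length, Φ (update ρ i x) U F := by
  intro ρ
  have h0 : ∀ x : ℕ, (update ρ i x) 0 = ρ 0 := fun x => Function.update_of_ne (Ne.symm hi) x ρ
  have key : ∀ (N : ℕ) (A : Fin 16 → ℕ → Bool), Iv n A →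
      Iv n (down (fun x A' => run w p (update ρ i x) A') N A) ∧
      pot G (ρ 0) (fs n A 1) ≤
        pot G (ρ 0) (fs n (down (fun x A' => run w p (update ρ i x) A') N A) 1) ∧
      (∀ σ : ℤ, (ρ 0 : ℤ) ≤ σ → good G σ (fs n A 2) →
        good G σ (fs n (down (fun x A' => run w p (update ρ i x) A') N A) 2)) ∧
      (pot G (ρ 0) (fs n (down (fun x A' => run w p (update ρ i x) A') N A) 1) ≤
          pot G (ρ 0) (fs n A 1) →
        fs n (down (fun x A' => run w p (update ρ i x) A') N A) 1 = fs n A 1 ∧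
        ∀ F, (∃ x < N, Φ (update ρ i x) (fs n A 1) F) →
          pot G (ρ 0) F ≤ pot G (ρ 0) (fs n A 1) ∧
          (good G (ρ 0) F →
            good G (ρ 0) (fs n (down (fun x A' => run w p (update ρ i x) A') N A) 2))) := by
    intro N
    induction N with
    | zero =>
      intro A hA
      refine ⟨hA, le_rfl, fun σ _ hg => hg, fun _ => ⟨rfl, ?_⟩⟩
      rintro F ⟨x, hx, _⟩
      exact absurd hx (Nat.not_lt_zero x)
    | succ N ih =>
      intro A hA
      obtain ⟨I1, c1, g1, s1⟩ := hp (update ρ i N) A hA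
      obtain ⟨I2, c2, g2, s2⟩ := ih (run w p (update ρ i N) A) I1
      rw [h0] at c1 g1 s1
      have e : down (fun x A' => run w p (update ρ i x) A') (N + 1) A =
          down (fun x A' => run w p (update ρ i x) A') N (run w p (update ρ i N) A) := rfl
      rw [e]
      refine ⟨I2, c1.trans c2, fun σ hσ hg => g2 σ hσ (g1 σ hσ hg), fun hle => ?_⟩
      obtain ⟨e1, f1⟩ := s1 (c2.trans hle)
      obtain ⟨e2, f2⟩ := s2 (hle.trans c1)
      refine ⟨e2.trans e1, ?_⟩
      rintro F ⟨x, hx, hF⟩
      by_cases hxN : x = N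
      · subst hxN
        obtain ⟨h1, h2⟩ := f1 F hF
        exact ⟨h1, fun hg => g2 _ le_rfl (h2 hg)⟩
      · rw [← e1] at hF ⊢
        exact f2 F ⟨x, by omega, hF⟩
  intro A hA
  exact key w.length A hA

theorem sr_mono {p : P} {Φ Ψ : Fam n} (hp : Sr G w p Φ)
    (h : ∀ ρ U F, Ψ ρ U F → Φ ρ U F) : Sr G w p Ψ := by
  intro ρ A hA
  obtain ⟨I1, c1, g1, s1⟩ := hp ρ A hA
  refine ⟨I1, c1, g1, fun hle => ?_⟩
  obtain ⟨e1, f1⟩ := s1 hle
  exact ⟨e1, fun F hF => f1 F (h _ _ _ hF)⟩

end Pool.Agent.helper31.JBX
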